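import Pool.Agent.Work.MP_e263ba_co.TilingFinal

/-! JOB M: reduction of the frozen statement to `no_full_tiling`. -/

set_option autoImplicit false
set_option linter.unusedSectionVars false

namespace Pool.Agent.Redei3

section

variable {p : ℕ} [Fact p.Prime]

theorem nonCop_of_closure (A : Finset (Fin 3 → ZMod p)) (h0 : (0 : Fin 3 → ZMod p) ∈ A)
    (hcl : AddSubgroup.closure (A : Set (Fin 3 → ZMod p)) = ⊤) : NonCop A := by
  intro v β h
  have hβ : β = 0 := by
    rw [← h 0 h0]; simp
  subst hβ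
  let f : (Fin 3 → ZMod p) →+ ZMod p :=
    { toFun := fun x => ∑ i, v i * x i
      map_zero' := by simp
      map_add' := by
        intro x y
        simp [mul_add, Finset.sum_add_distrib] }
  have h1 : AddSubgroup.closure (A : Set (Fin 3 → ZMod p)) ≤ f.ker := by
    rw [AddSubgroup.closure_le]
    intro a ha
    exact h a ha
  rw [hcl] at h1
  funext i
  have h2 : f (Pi.single i 1) = 0 := h1 (AddSubgroup.mem_top _)
  have h3 : f (Pi.single i 1) = v i := by
    show ∑ j, v j * (Pi.single i 1 : Fin 3 → ZMod p) j = v i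
    rw [Finset.sum_eq_single i]
    · simp
    · intro b _ hb; simp [hb]
    · intro h; exact absurd (Finset.mem_univ _) h
  rw [← h3, h2]; rfl

theorem four_le_card (A : Finset (Fin 3 → ZMod p)) (h0 : (0 : Fin 3 → ZMod p) ∈ A)
    (hcl : AddSubgroup.closure (A : Set (Fin 3 → ZMod p)) = ⊤) : 4 ≤ A.card := by
  classical
  have h1 : Submodule.span (ZMod p) ((A.erase 0 : Finset (Fin 3 → ZMod p)) :
      Set (Fin 3 → ZMod p)) = ⊤ := by
    have h2 : AddSubgroup.closure (A : Set (Fin 3 → ZMod p)) ≤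
        (Submodule.span (ZMod p) ((A.erase 0 : Finset (Fin 3 → ZMod p)) :
          Set (Fin 3 → ZMod p))).toAddSubgroup := by
      rw [AddSubgroup.closure_le]
      intro a ha
      by_cases ha0 : a = 0
      · subst ha0; exact Submodule.zero_mem _
      · apply Submodule.subset_span
        exact Finset.mem_coe.mpr (Finset.mem_erase.mpr ⟨ha0, ha⟩)
    rw [hcl] at h2
    rw [eq_top_iff]
    intro x _
    exact h2 (AddSubgroup.mem_top x)
  have h3 := finrank_span_finset_le_card (R := ZMod p) (A.erase 0)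
  rw [Set.finrank, h1, finrank_top, Module.finrank_fin_fun, Finset.card_erase_of_mem h0] at h3
  omega

theorem tiles_card (A B : Finset (Fin 3 → ZMod p)) (h : Tiles A B) :
    A.card * B.card = p ^ 3 := by
  classical
  have h1 : (A ×ˢ B).card = (Finset.univ : Finset (Fin 3 → ZMod p)).card := by
    apply Finset.card_bij (fun ab _ => ab.1 + ab.2)
    · intro ab _; exact Finset.mem_univ _
    · intro ab hab cd hcd heq
      rw [Finset.mem_product] at hab hcd
      obtain ⟨x, _, hx⟩ := h (ab.1 + ab.2)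
      rw [hx ab ⟨hab.1, hab.2, rfl⟩, hx cd ⟨hcd.1, hcd.2, heq.symm⟩]
    · intro g _
      obtain ⟨x, hx, _⟩ := h g
      exact ⟨x, Finset.mem_product.mpr ⟨hx.1, hx.2.1⟩, hx.2.2⟩
  rw [Finset.card_product, Finset.card_univ, Fintype.card_fun, ZMod.card, Fintype.card_fin] at h1
  exact h1

theorem tiles_symm (A B : Finset (Fin 3 → ZMod p)) (h : Tiles A B) : Tiles B A := by
  intro g
  obtain ⟨x, hx, hu⟩ := h g
  refine ⟨(x.2, x.1), ⟨hx.2.1, hx.1, by rw [add_comm]; exact hx.2.2⟩, ?_⟩
  rintro y ⟨hy1, hy2, hy3⟩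
  have h1 := hu (y.2, y.1) ⟨hy2, hy1, by rw [add_comm]; exact hy3⟩
  rw [← h1]

theorem redei_finset (A B : Finset (Fin 3 → ZMod p)) (hA0 : (0 : Fin 3 → ZMod p) ∈ A)
    (hB0 : (0 : Fin 3 → ZMod p) ∈ B) (h : Tiles A B)
    (hA : AddSubgroup.closure (A : Set (Fin 3 → ZMod p)) = ⊤)
    (hB : AddSubgroup.closure (B : Set (Fin 3 → ZMod p)) = ⊤) : False := by
  have hp : p.Prime := Fact.out
  have hcard := tiles_card A B h
  have hA4 := four_le_card A hA0 hA
  have hB4 := four_le_card B hB0 hB
  have hncA := nonCop_of_closure A hA0 hA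
  have hncB := nonCop_of_closure B hB0 hB
  have h1 : A.card ∣ p ^ 3 := ⟨B.card, hcard.symm⟩
  obtain ⟨i, hi, hAi⟩ := (Nat.dvd_prime_pow hp).mp h1
  have hpp : 0 < p := hp.pos
  have hp4 : p ≠ 4 := by
    rintro rfl
    revert hp; decide
  interval_cases i
  · rw [pow_zero] at hAi; omega
  · rw [pow_one] at hAi
    have hB2 : B.card = p ^ 2 := by
      rw [hAi] at hcard
      have : p * B.card = p * p ^ 2 := by rw [hcard]; ring
      exact Nat.eq_of_mul_eq_mul_left hpp this
    exact no_full_tiling (by omega) A B hAi hB2 h hncA hncB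
  · have hB1 : B.card = p := by
      rw [hAi] at hcard
      have : p ^ 2 * B.card = p ^ 2 * p := by rw [hcard]; ring
      exact Nat.eq_of_mul_eq_mul_left (by positivity) this
    exact no_full_tiling (by omega) B A hB1 hAi (tiles_symm A B h) hncB hncA
  · have hB1 : B.card = 1 := by
      rw [hAi] at hcard
      have : p ^ 3 * B.card = p ^ 3 * 1 := by rw [hcard]; ring
      exact Nat.eq_of_mul_eq_mul_left (by positivity) this
    omega

end

theorem redei_three :
    ∀ (p : ℕ), p.Prime →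
      ∀ (A B : Set (Fin 3 → ZMod p)),
        (0 : Fin 3 → ZMod p) ∈ A → (0 : Fin 3 → ZMod p) ∈ B →
        (∀ g : Fin 3 → ZMod p,
          ∃! ab : (Fin 3 → ZMod p) × (Fin 3 → ZMod p),
            ab.1 ∈ A ∧ ab.2 ∈ B ∧ ab.1 + ab.2 = g) →
        AddSubgroup.closure A ≠ ⊤ ∨ AddSubgroup.closure B ≠ ⊤ := by
  classical
  intro p hp A B hA0 hB0 h
  have : Fact p.Prime := ⟨hp⟩
  by_contra hcon
  push Not at hcon
  obtain ⟨hA, hB⟩ := hcon
  have hAfin : A.Finite := Set.toFinite A
  have hBfin : B.Finite := Set.toFinite B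
  apply redei_finset hAfin.toFinset hBfin.toFinset
  · rw [Set.Finite.mem_toFinset]; exact hA0
  · rw [Set.Finite.mem_toFinset]; exact hB0
  · intro g
    simpa only [Set.Finite.mem_toFinset] using h g
  · rw [Set.Finite.coe_toFinset]; exact hA
  · rw [Set.Finite.coe_toFinset]; exact hB

end Pool.Agent.Redei3
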