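import Pool.Agent.Work.MP_e263ba_co.PlaneEvA

/-! Binary forms without common zeros generate everything in large degree. -/

set_option autoImplicit false

namespace Pool.Agent.Redei3

open Finset MvPolynomial

variable {K : Type*} [Field K]

theorem uni_decomp (f g h : Polynomial K) (τ σ n : ℕ) (hf : f.natDegree ≤ τ)
    (hg : g.natDegree ≤ σ) (hh : h.natDegree ≤ n) (hcop : IsCoprime f g) (hfτ : f.coeff τ ≠ 0)
    (hτ : 1 ≤ τ) (hσ : 1 ≤ σ) (hn : τ + σ ≤ n + 1) :
    ∃ F G : Polynomial K, F.natDegree ≤ n - τ ∧ G.natDegree ≤ n - σ ∧ h = f * F + g * G := by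
  obtain ⟨a, b, hab⟩ := hcop
  have hfd : f.natDegree = τ := le_antisymm hf (Polynomial.le_natDegree_of_ne_zero hfτ)
  have hf0 : f ≠ 0 := by rintro rfl; simp at hfτ
  set G := (h * b) % f with hG
  set F := h * a + ((h * b) / f) * g with hF
  have hdm : f * ((h * b) / f) + (h * b) % f = h * b := EuclideanDomain.div_add_mod _ _
  have hGd : G.natDegree < τ := by
    rw [← hfd]
    apply Polynomial.natDegree_mod_lt
    omega
  have heq : h = f * F + g * G := by
    have : h = h * (a * f + b * g) := by rw [hab, mul_one]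
    calc h = h * (a * f + b * g) := this
      _ = f * (h * a) + g * (h * b) := by ring
      _ = f * (h * a) + g * (f * ((h * b) / f) + (h * b) % f) := by rw [hdm]
      _ = f * F + g * G := by rw [hF, hG]; ring
  refine ⟨F, G, ?_, by omega, heq⟩
  by_cases hF0 : F = 0
  · simp [hF0]
  have h1 : f * F = h - g * G := by rw [heq]; ring
  have h2 : (f * F).natDegree = τ + F.natDegree := by
    rw [Polynomial.natDegree_mul hf0 hF0, hfd]
  have h3 : (h - g * G).natDegree ≤ n := by
    apply (Polynomial.natDegree_sub_le _ _).trans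
    apply max_le hh
    apply Polynomial.natDegree_mul_le.trans
    omega
  rw [← h1, h2] at h3
  omega

theorem eval_homogenize_one_zero (f : Polynomial K) (n : ℕ) :
    eval (![1, 0] : Fin 2 → K) (f.homogenize n) = f.coeff n := by
  rw [Polynomial.homogenize, map_sum, Finset.sum_eq_single (n, 0)]
  · simp [eval_monomial, Finsupp.prod_fintype, Fin.prod_univ_two]
  · rintro ⟨a, b⟩ hab hne
    rw [Finset.HasAntidiagonal.mem_antidiagonal] at hab
    have hb : b ≠ 0 := by
      rintro rfl
      apply hne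
      simp at hab
      rw [hab]
    simp [eval_monomial, Finsupp.prod_fintype, Fin.prod_univ_two, hb]
  · intro h
    exact absurd (Finset.HasAntidiagonal.mem_antidiagonal.mpr (by simp)) h

theorem binary_decomp [IsAlgClosed K] (q1 q2 q : MvPolynomial (Fin 2) K) (τ σ n : ℕ)
    (h1 : q1.IsHomogeneous τ) (h2 : q2.IsHomogeneous σ) (h : q.IsHomogeneous n)
    (hτ : 1 ≤ τ) (hσ : 1 ≤ σ) (hn : τ + σ ≤ n + 1)
    (hnz : ∀ x : Fin 2 → K, x ≠ 0 → eval x q1 = 0 → eval x q2 ≠ 0) :
    ∃ F G : MvPolynomial (Fin 2) K, F.IsHomogeneous (n - τ) ∧ G.IsHomogeneous (n - σ) ∧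
      q = q1 * F + q2 * G := by
  set D : MvPolynomial (Fin 2) K →ₐ[K] Polynomial K := aeval ![Polynomial.X, 1] with hD
  have hdeg : ∀ (r : MvPolynomial (Fin 2) K) (m : ℕ), r.IsHomogeneous m →
      (D r).natDegree ≤ m := by
    intro r m hr
    have := MvPolynomial.aeval_natDegree_le (m := m) (n := 1) r hr.totalDegree_le
      ![Polynomial.X, 1] (by
        intro i
        fin_cases i
        · exact Polynomial.natDegree_X_le
        · simp)
    simpa using this
  have hhom : ∀ (r : MvPolynomial (Fin 2) K) (m : ℕ), r.IsHomogeneous m →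
      (D r).homogenize m = r := fun r m hr =>
    Polynomial.homogenize_eq_of_isHomogeneous hr rfl
  have hD1 := hdeg q1 τ h1
  have hD2 := hdeg q2 σ h2
  have hD3 := hdeg q n h
  have hcop : IsCoprime (D q1) (D q2) := by
    rw [Polynomial.isCoprime_iff_aeval_ne_zero_of_isAlgClosed K K]
    intro a
    have ha : (![a, 1] : Fin 2 → K) ≠ 0 := by
      intro h0
      have := congrFun h0 1
      simp at this
    have e1 : Polynomial.aeval a (D q1) = eval (![a, 1] : Fin 2 → K) q1 := by
      conv_rhs => rw [← hhom q1 τ h1]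
      rw [Polynomial.eval_homogenize hD1 _ (by simp)]
      simp [Polynomial.coe_aeval_eq_eval]
    have e2 : Polynomial.aeval a (D q2) = eval (![a, 1] : Fin 2 → K) q2 := by
      conv_rhs => rw [← hhom q2 σ h2]
      rw [Polynomial.eval_homogenize hD2 _ (by simp)]
      simp [Polynomial.coe_aeval_eq_eval]
    rw [e1, e2]
    by_cases h0 : eval (![a, 1] : Fin 2 → K) q1 = 0
    · exact Or.inr (hnz _ ha h0)
    · exact Or.inl h0
  have hlead : (D q1).coeff τ ≠ 0 ∨ (D q2).coeff σ ≠ 0 := by
    have ha : (![1, 0] : Fin 2 → K) ≠ 0 := by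
      intro h0
      have := congrFun h0 0
      simp at this
    rw [← eval_homogenize_one_zero, ← eval_homogenize_one_zero, hhom q1 τ h1, hhom q2 σ h2]
    by_cases h0 : eval (![1, 0] : Fin 2 → K) q1 = 0
    · exact Or.inr (hnz _ ha h0)
    · exact Or.inl h0
  have hfin : ∀ F G : Polynomial K, F.natDegree ≤ n - τ → G.natDegree ≤ n - σ →
      D q = D q1 * F + D q2 * G → ∃ F G : MvPolynomial (Fin 2) K, F.IsHomogeneous (n - τ) ∧
        G.IsHomogeneous (n - σ) ∧ q = q1 * F + q2 * G := by
    intro F G hF hG heq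
    refine ⟨F.homogenize (n - τ), G.homogenize (n - σ), Polynomial.isHomogeneous_homogenize _,
      Polynomial.isHomogeneous_homogenize _, ?_⟩
    rw [← hhom q n h, heq, Polynomial.homogenize_add]
    congr 1
    · have := Polynomial.homogenize_mul (D q1) F hD1 hF
      rw [hhom q1 τ h1] at this
      rw [← this]
      congr 1
      omega
    · have := Polynomial.homogenize_mul (D q2) G hD2 hG
      rw [hhom q2 σ h2] at this
      rw [← this]
      congr 1
      omega
  rcases hlead with hl | hl
  · obtain ⟨F, G, hF, hG, heq⟩ := uni_decomp (D q1) (D q2) (D q) τ σ n hD1 hD2 hD3 hcop hl hτ hσ hn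
    exact hfin F G hF hG heq
  · obtain ⟨G, F, hG, hF, heq⟩ := uni_decomp (D q2) (D q1) (D q) σ τ n hD2 hD1 hD3 hcop.symm hl
      hσ hτ (by omega)
    exact hfin F G hF hG (by rw [heq]; ring)

end Pool.Agent.Redei3
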