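import Pool.Agent.Work.MP_e263ba_co.PlaneEvA

/-! Coprime forms have finitely many common zeros; a line missing all of them. -/

set_option autoImplicit false

namespace Pool.Agent.Redei3

open Finset MvPolynomial

variable {K : Type*} [Field K]

theorem two_finrank (n : ℕ) :
    2 * Module.finrank K (homogeneousSubmodule (Fin 3) K n) = (n + 1) * (n + 2) := by
  rw [finrank_hom]
  exact Nat.mul_div_cancel' (Nat.even_mul_succ_self (n + 1)).two_dvd

/-- evaluation at the points of `Z` as a linear map -/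
noncomputable def evZ (Z : Finset (Fin 3 → K)) : MvPolynomial (Fin 3) K →ₗ[K] (Z → K) :=
  LinearMap.pi fun u => (aeval (R := K) (u.1 : Fin 3 → K)).toLinearMap

@[simp] theorem evZ_apply (Z : Finset (Fin 3 → K)) (F : MvPolynomial (Fin 3) K) (u : Z) :
    evZ Z F u = eval u.1 F := by
  simp [evZ, MvPolynomial.aeval_eq_eval]

/-- If evaluation on `H_n` is onto `K^Z` and `W ≤ H_n` vanishes on `Z` then
`|Z| + dim W ≤ dim H_n`. -/
theorem card_add_finrank_le (Z : Finset (Fin 3 → K)) (hZ : Pts Z) (n : ℕ) (hn : Z.card ≤ n + 1)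
    (W : Submodule K (MvPolynomial (Fin 3) K)) (hW : W ≤ homogeneousSubmodule (Fin 3) K n)
    (hv : ∀ F ∈ W, ∀ u ∈ Z, eval u F = 0) :
    Z.card + Module.finrank K W ≤ Module.finrank K (homogeneousSubmodule (Fin 3) K n) := by
  classical
  have := finite_hom (K := K) n
  set E : homogeneousSubmodule (Fin 3) K n →ₗ[K] (Z → K) :=
    (evZ Z).domRestrict (homogeneousSubmodule (Fin 3) K n) with hE
  have hsurj : Function.Surjective E := by
    intro y
    obtain ⟨F, hF, hF2⟩ := ev_surj Z hZ n hn (fun u => if h : u ∈ Z then y ⟨u, h⟩ else 0)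
    refine ⟨⟨F, hF⟩, ?_⟩
    ext u
    have := hF2 u.1 u.2
    simpa [hE] using this
  have h1 := LinearMap.finrank_range_add_finrank_ker E
  rw [LinearMap.range_eq_top.mpr hsurj, finrank_top, Module.finrank_fintype_fun_eq_card,
    Fintype.card_coe] at h1
  have h2 : W.comap (homogeneousSubmodule (Fin 3) K n).subtype ≤ LinearMap.ker E := by
    intro F hF
    rw [LinearMap.mem_ker]
    ext u
    have := hv F.1 hF u.1 u.2
    simpa [hE] using this
  have h3 := Submodule.finrank_mono h2
  have h4 := (Submodule.comapSubtypeEquivOfLe hW).finrank_eq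
  omega

theorem card_common_zeros (T S : MvPolynomial (Fin 3) K) (τ σ : ℕ) (hT : T.IsHomogeneous τ)
    (hS : S.IsHomogeneous σ) (hT0 : T ≠ 0) (hS0 : S ≠ 0) (hcop : IsRelPrime T S)
    (Z : Finset (Fin 3 → K)) (hZ : Pts Z) (hz : ∀ u ∈ Z, eval u T = 0 ∧ eval u S = 0) :
    Z.card ≤ τ * σ := by
  classical
  set m := Z.card with hm
  have := finite_hom (K := K) m
  have := finite_hom (K := K) (σ + m)
  have := finite_hom (K := K) (τ + m)
  set U := (homogeneousSubmodule (Fin 3) K (σ + m)).map (LinearMap.mulLeft K T) with hU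
  set V := (homogeneousSubmodule (Fin 3) K (τ + m)).map (LinearMap.mulLeft K S) with hV
  have hTinj : Function.Injective (LinearMap.mulLeft K T) := fun a b h => by
    simpa [hT0] using h
  have hSinj : Function.Injective (LinearMap.mulLeft K S) := fun a b h => by
    simpa [hS0] using h
  have hUr : Module.finrank K U = Module.finrank K (homogeneousSubmodule (Fin 3) K (σ + m)) :=
    (Submodule.equivMapOfInjective _ hTinj _).symm.finrank_eq
  have hVr : Module.finrank K V = Module.finrank K (homogeneousSubmodule (Fin 3) K (τ + m)) :=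
    (Submodule.equivMapOfInjective _ hSinj _).symm.finrank_eq
  have hinf : U ⊓ V ≤ (homogeneousSubmodule (Fin 3) K m).map (LinearMap.mulLeft K (T * S)) := by
    rintro P ⟨⟨F, hF, rfl⟩, ⟨G, hG, hFG⟩⟩
    simp only [LinearMap.mulLeft_apply] at hFG ⊢
    have hdvd : S ∣ T * F := ⟨G, hFG.symm⟩
    have hSF : S ∣ F := hcop.symm.dvd_of_dvd_mul_left hdvd
    obtain ⟨F', rfl⟩ := hSF
    by_cases hF' : F' = 0
    · subst hF'
      simp
    · obtain ⟨a, b, ha, hb, hab⟩ := hom_of_mul' (n := σ + m) hF hS0 hF'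
      have : a = σ := ha.inj_right hS hS0
      subst this
      have hbm : b = m := by omega
      subst hbm
      exact ⟨F', hb, by simp⟩
  have hinfr : Module.finrank K ↥(U ⊓ V) ≤
      Module.finrank K (homogeneousSubmodule (Fin 3) K m) :=
    (Submodule.finrank_mono hinf).trans (Submodule.finrank_map_le _ _)
  have hsum := Submodule.finrank_sup_add_finrank_inf_eq U V
  have hle : U ⊔ V ≤ homogeneousSubmodule (Fin 3) K (τ + σ + m) := by
    apply sup_le
    · rintro P ⟨F, hF, rfl⟩
      have := hT.mul hF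
      rw [← add_assoc] at this
      exact this
    · rintro P ⟨F, hF, rfl⟩
      have := hS.mul hF
      rw [← add_assoc, add_comm σ τ] at this
      exact this
  have hvan : ∀ F ∈ U ⊔ V, ∀ u ∈ Z, eval u F = 0 := by
    intro F hF u hu
    obtain ⟨F1, hF1, F2, hF2, rfl⟩ := Submodule.mem_sup.mp hF
    obtain ⟨G1, -, rfl⟩ := hF1
    obtain ⟨G2, -, rfl⟩ := hF2
    simp [(hz u hu).1, (hz u hu).2]
  have hmain := card_add_finrank_le Z hZ (τ + σ + m) (by omega) (U ⊔ V) hle hvan
  have e1 := two_finrank (K := K) (τ + σ + m)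
  have e2 := two_finrank (K := K) (σ + m)
  have e3 := two_finrank (K := K) (τ + m)
  have e4 := two_finrank (K := K) m
  rw [← hm] at hmain
  nlinarith

theorem exists_max_common (T S : MvPolynomial (Fin 3) K) (τ σ : ℕ) (hT : T.IsHomogeneous τ)
    (hS : S.IsHomogeneous σ) (hT0 : T ≠ 0) (hS0 : S ≠ 0) (hcop : IsRelPrime T S) :
    ∃ W : Finset (Fin 3 → K), Pts W ∧
      ∀ v : Fin 3 → K, v ≠ 0 → eval v T = 0 → eval v S = 0 → ∃ w ∈ W, ∃ a : K, v = a • w := by
  classical
  set P : Finset (Fin 3 → K) → Prop := fun W => Pts W ∧ ∀ u ∈ W, eval u T = 0 ∧ eval u S = 0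
    with hP
  have hbound : ∀ W, P W → W.card ≤ τ * σ := fun W hW =>
    card_common_zeros T S τ σ hT hS hT0 hS0 hcop W hW.1 hW.2
  have hex : ∃ m : ℕ, ∃ W, P W ∧ τ * σ - W.card = m :=
    ⟨_, ∅, ⟨⟨by simp, by simp⟩, by simp⟩, rfl⟩
  obtain ⟨W, hW, hWm⟩ := Nat.find_spec hex
  refine ⟨W, hW.1, ?_⟩
  intro v hv hvT hvS
  by_contra hcon
  push Not at hcon
  have hvW : v ∉ W := by
    intro h
    exact hcon v h 1 (by simp)
  have hP' : P (insert v W) := by
    refine ⟨⟨?_, ?_⟩, ?_⟩
    · intro u hu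
      rcases Finset.mem_insert.mp hu with rfl | hu
      · exact hv
      · exact hW.1.1 u hu
    · intro u hu w hw c huw
      rcases Finset.mem_insert.mp hu with rfl | hu'
      · rcases Finset.mem_insert.mp hw with rfl | hw'
        · rfl
        · exact absurd huw (hcon w hw' c)
      · rcases Finset.mem_insert.mp hw with rfl | hw'
        · exfalso
          have hc : c ≠ 0 := by
            rintro rfl
            rw [zero_smul] at huw
            exact hW.1.1 u hu' huw
          apply hcon u hu' c⁻¹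
          rw [huw, smul_smul, inv_mul_cancel₀ hc, one_smul]
        · exact hW.1.2 u hu' w hw' c huw
    · intro u hu
      rcases Finset.mem_insert.mp hu with rfl | hu
      · exact ⟨hvT, hvS⟩
      · exact hW.2 u hu
  have h1 := hbound _ hP'
  rw [Finset.card_insert_of_notMem hvW] at h1
  have h2 : Nat.find hex ≤ τ * σ - (insert v W).card := Nat.find_min' hex ⟨_, hP', rfl⟩
  rw [Finset.card_insert_of_notMem hvW] at h2
  omega

/-- a line `x₂ = α x₀ + β x₁` which misses all common zeros. -/
theorem exists_line [Infinite K] (T S : MvPolynomial (Fin 3) K) (τ σ : ℕ)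
    (hT : T.IsHomogeneous τ) (hS : S.IsHomogeneous σ) (hT0 : T ≠ 0) (hS0 : S ≠ 0)
    (hcop : IsRelPrime T S) :
    ∃ α β : K, ∀ v : Fin 3 → K, v ≠ 0 → eval v T = 0 → eval v S = 0 →
      v 2 ≠ α * v 0 + β * v 1 := by
  classical
  obtain ⟨W, hW, hWmax⟩ := exists_max_common T S τ σ hT hS hT0 hS0 hcop
  set Q : MvPolynomial (Fin 2) K := ∏ w ∈ W, (C (w 2) - C (w 0) * X 0 - C (w 1) * X 1) with hQ
  have hQ0 : Q ≠ 0 := by
    rw [hQ, Finset.prod_ne_zero_iff]
    intro w hw h
    have e0 := congrArg (eval (![0, 0] : Fin 2 → K)) h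
    have e1 := congrArg (eval (![1, 0] : Fin 2 → K)) h
    have e2 := congrArg (eval (![0, 1] : Fin 2 → K)) h
    simp at e0 e1 e2
    apply hW.1 w hw
    ext i
    fin_cases i
    · simpa [e0] using e1
    · simpa [e0] using e2
    · simpa using e0
  have hex : ∃ x : Fin 2 → K, eval x Q ≠ 0 := by
    by_contra hcon
    push Not at hcon
    exact hQ0 (MvPolynomial.funext (by simpa using hcon))
  obtain ⟨x, hx⟩ := hex
  refine ⟨x 0, x 1, ?_⟩
  intro v hv hvT hvS hcon
  obtain ⟨w, hw, a, rfl⟩ := hWmax v hv hvT hvS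
  have ha : a ≠ 0 := by
    rintro rfl
    simp at hv
  rw [hQ, map_prod, Finset.prod_ne_zero_iff] at hx
  apply hx w hw
  simp only [map_sub, map_mul, eval_C, eval_X]
  simp only [Pi.smul_apply, smul_eq_mul] at hcon
  have : a * (w 2 - w 0 * x 0 - w 1 * x 1) = 0 := by linear_combination hcon
  exact (mul_eq_zero.mp this).resolve_left ha

end Pool.Agent.Redei3
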