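import Pool.Agent.Work.MP_e263ba_co.PlaneEv
import Pool.Agent.Work.MP_e263ba_co.CIFin
import Pool.Agent.Work.MP_e263ba_co.CIBin

/-! JOB P2: the complete intersection lemma. -/

set_option autoImplicit false

namespace Pool.Agent.Redei3

open Finset MvPolynomial

variable {K : Type*} [Field K]

/-- substitution `X₂ ↦ α X₀ + β X₁`, to two variables -/
noncomputable def thHom (α β : K) : MvPolynomial (Fin 3) K →ₐ[K] MvPolynomial (Fin 2) K :=
  aeval ![X 0, X 1, C α * X 0 + C β * X 1]

/-- two variables into three variables -/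
noncomputable def ioHom : MvPolynomial (Fin 2) K →ₐ[K] MvPolynomial (Fin 3) K :=
  aeval ![X 0, X 1]

/-- the linear form `X₂ - α X₀ - β X₁` -/
noncomputable def ellForm (α β : K) : MvPolynomial (Fin 3) K := X 2 - C α * X 0 - C β * X 1

theorem ellForm_hom (α β : K) : (ellForm α β).IsHomogeneous 1 :=
  ((isHomogeneous_X _ _).sub (isHomogeneous_C_mul_X _ _)).sub (isHomogeneous_C_mul_X _ _)

theorem eval_ellForm (α β : K) (u : Fin 3 → K) :
    eval u (ellForm α β) = u 2 - α * u 0 - β * u 1 := by
  simp [ellForm]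

theorem ellForm_ne (α β : K) : ellForm α β ≠ 0 := by
  intro h
  have := congrArg (eval (![0, 0, 1] : Fin 3 → K)) h
  rw [eval_ellForm] at this
  simp at this

theorem thHom_hom (α β : K) (F : MvPolynomial (Fin 3) K) (n : ℕ) (hF : F.IsHomogeneous n) :
    (thHom α β F).IsHomogeneous n := by
  have := hF.aeval (n := 1) (![X 0, X 1, C α * X 0 + C β * X 1] :
    Fin 3 → MvPolynomial (Fin 2) K) (by
      intro i
      fin_cases i
      · exact isHomogeneous_X _ _
      · exact isHomogeneous_X _ _
      · exact (isHomogeneous_C_mul_X _ _).add (isHomogeneous_C_mul_X _ _))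
  rwa [one_mul] at this

theorem ioHom_hom (F : MvPolynomial (Fin 2) K) (n : ℕ) (hF : F.IsHomogeneous n) :
    (ioHom F).IsHomogeneous n := by
  have := hF.aeval (n := 1) (![X 0, X 1] :
    Fin 2 → MvPolynomial (Fin 3) K) (by
      intro i
      fin_cases i
      · exact isHomogeneous_X _ _
      · exact isHomogeneous_X _ _)
  rwa [one_mul] at this

theorem eval_thHom (α β : K) (F : MvPolynomial (Fin 3) K) (x : Fin 2 → K) :
    eval x (thHom α β F) = eval (![x 0, x 1, α * x 0 + β * x 1] : Fin 3 → K) F := by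
  have h : (MvPolynomial.aeval x).comp (thHom α β) =
      (MvPolynomial.aeval (R := K) (![x 0, x 1, α * x 0 + β * x 1] : Fin 3 → K)) := by
    apply MvPolynomial.algHom_ext
    intro i
    fin_cases i <;> simp [thHom]
  have h2 := congrArg (fun f => f F) h
  simpa [MvPolynomial.aeval_eq_eval] using h2

theorem ellForm_dvd (α β : K) (F : MvPolynomial (Fin 3) K) :
    ellForm α β ∣ F - ioHom (thHom α β F) := by
  rw [← Ideal.mem_span_singleton, ← Ideal.Quotient.eq]
  have h : (Ideal.Quotient.mkₐ K (Ideal.span {ellForm α β})) =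
      (Ideal.Quotient.mkₐ K (Ideal.span {ellForm α β})).comp (ioHom.comp (thHom α β)) := by
    apply MvPolynomial.algHom_ext
    intro i
    fin_cases i
    · simp [thHom, ioHom]
    · simp [thHom, ioHom]
    · simp only [thHom, ioHom, AlgHom.comp_apply, Ideal.Quotient.mkₐ_eq_mk]
      rw [Ideal.Quotient.eq, Ideal.mem_span_singleton]
      refine ⟨1, ?_⟩
      simp [ellForm, sub_sub]
  exact congrArg (fun f => f F) h

theorem exists_quot (α β : K) (F : MvPolynomial (Fin 3) K) (n : ℕ)
    (hF : F.IsHomogeneous (n + 1)) :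
    ∃ F' : MvPolynomial (Fin 3) K, F'.IsHomogeneous n ∧
      F = ioHom (thHom α β F) + ellForm α β * F' := by
  obtain ⟨F', hF'⟩ := ellForm_dvd α β F
  have heq : F = ioHom (thHom α β F) + ellForm α β * F' := by rw [← hF']; ring
  by_cases h0 : F' = 0
  · exact ⟨0, isHomogeneous_zero _ _ _, by rw [h0] at heq; exact heq⟩
  · refine ⟨F', ?_, heq⟩
    have hh : (ellForm α β * F').IsHomogeneous (n + 1) := by
      rw [← hF']
      exact hF.sub (ioHom_hom _ _ (thHom_hom α β F _ hF))
    obtain ⟨a, b, ha, hb, hab⟩ := hom_of_mul' hh (ellForm_ne α β) h0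
    have : a = 1 := ha.inj_right (ellForm_hom α β) (ellForm_ne α β)
    have : b = n := by omega
    rwa [← this]

theorem code_div [IsAlgClosed K] (T S : MvPolynomial (Fin 3) K) (τ σ κ : ℕ)
    (hT : T.IsHomogeneous τ) (hS : S.IsHomogeneous σ) (hτ : 1 ≤ τ) (hσ : 1 ≤ σ)
    (hκ : τ + σ ≤ κ + 2) (α β : K)
    (hline : ∀ v : Fin 3 → K, v ≠ 0 → eval v T = 0 → eval v S = 0 → v 2 ≠ α * v 0 + β * v 1)
    (Z : Finset (Fin 3 → K)) (hZ : Pts Z) (hz : ∀ u ∈ Z, eval u T = 0 ∧ eval u S = 0)
    (c : (Fin 3 → K) → K) (hcode : Code Z c κ) :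
    Code Z (fun u => c u / eval u (ellForm α β)) (κ + 1) := by
  intro F hF
  have hnz : ∀ x : Fin 2 → K, x ≠ 0 → eval x (thHom α β T) = 0 → eval x (thHom α β S) ≠ 0 := by
    intro x hx h1 h2
    rw [eval_thHom] at h1 h2
    apply hline _ _ h1 h2
    · simp
    · intro h0
      apply hx
      ext i
      fin_cases i
      · simpa using congrFun h0 0
      · simpa using congrFun h0 1
  obtain ⟨A, B, hA, hB, hAB⟩ := binary_decomp (thHom α β T) (thHom α β S) (thHom α β F) τ σ (κ + 1)
    (thHom_hom α β T τ hT) (thHom_hom α β S σ hS) (thHom_hom α β F _ hF) hτ hσ (by omega) hnz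
  obtain ⟨F', hF', hFe⟩ := exists_quot α β F κ hF
  obtain ⟨T', hT', hTe⟩ := exists_quot α β T (τ - 1) (by rwa [Nat.sub_add_cancel hτ])
  obtain ⟨S', hS', hSe⟩ := exists_quot α β S (σ - 1) (by rwa [Nat.sub_add_cancel hσ])
  have hA' := ioHom_hom A _ hA
  have hB' := ioHom_hom B _ hB
  set R := F' - T' * ioHom A - S' * ioHom B with hR
  have hRh : R.IsHomogeneous κ := by
    apply IsHomogeneous.sub
    · apply IsHomogeneous.sub hF'
      have h' : τ - 1 + (κ + 1 - τ) = κ := by omega
      have := hT'.mul hA'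
      rwa [h'] at this
    · have h' : σ - 1 + (κ + 1 - σ) = κ := by omega
      have := hS'.mul hB'
      rwa [h'] at this
  have hFR : F = T * ioHom A + S * ioHom B + ellForm α β * R := by
    have h3 : ioHom (thHom α β T) = T - ellForm α β * T' := by linear_combination -hTe
    have h4 : ioHom (thHom α β S) = S - ellForm α β * S' := by linear_combination -hSe
    have h5 : ioHom (thHom α β F) = ioHom (thHom α β T) * ioHom A
        + ioHom (thHom α β S) * ioHom B := by
      rw [hAB, map_add, map_mul, map_mul]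
    rw [h3, h4] at h5
    rw [hR]
    linear_combination hFe + h5
  have h6 := hcode R hRh
  rw [← h6]
  apply Finset.sum_congr rfl
  intro u hu
  have hne : eval u (ellForm α β) ≠ 0 := by
    rw [eval_ellForm]
    intro h0
    apply hline u (hZ.1 u hu) (hz u hu).1 (hz u hu).2
    linear_combination h0
  have h7 : eval u F = eval u (ellForm α β) * eval u R := by
    rw [hFR]
    simp [(hz u hu).1, (hz u hu).2]
  rw [h7]
  field_simp

theorem CI [IsAlgClosed K] (T S : MvPolynomial (Fin 3) K) (τ σ κ : ℕ)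
    (hT : T.IsHomogeneous τ) (hS : S.IsHomogeneous σ) (hT0 : T ≠ 0) (hS0 : S ≠ 0)
    (hcop : IsRelPrime T S) (hτ : 1 ≤ τ) (hσ : 1 ≤ σ) (hκ : τ + σ ≤ κ + 2)
    (Z : Finset (Fin 3 → K)) (hZ : Pts Z) (c : (Fin 3 → K) → K)
    (hsupp : ∀ u ∈ Z, c u ≠ 0 → eval u T = 0 ∧ eval u S = 0) (hcode : Code Z c κ) :
    ∀ u ∈ Z, c u = 0 := by
  classical
  obtain ⟨α, β, hline⟩ := exists_line T S τ σ hT hS hT0 hS0 hcop
  set W := Z.filter (fun u => c u ≠ 0) with hW
  have hWZ : W ⊆ Z := Finset.filter_subset _ _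
  have hWP : Pts W := hZ.mono hWZ
  have hWz : ∀ u ∈ W, eval u T = 0 ∧ eval u S = 0 := by
    intro u hu
    rw [hW, Finset.mem_filter] at hu
    exact hsupp u hu.1 hu.2
  have hWc : Code W c κ := by
    apply hcode.support W hWZ
    intro u hu huW
    by_contra h
    exact huW (Finset.mem_filter.mpr ⟨hu, h⟩)
  have hiter : ∀ j : ℕ, Code W (fun u => c u / (eval u (ellForm α β)) ^ j) (κ + j) := by
    intro j
    induction j with
    | zero => simpa using hWc
    | succ j ih =>
      have := code_div T S τ σ (κ + j) hT hS hτ hσ (by omega) α β hline W hWP hWz _ ih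
      have h' : (fun u : Fin 3 → K => c u / eval u (ellForm α β) ^ j / eval u (ellForm α β)) =
          fun u => c u / eval u (ellForm α β) ^ (j + 1) := by
        funext u
        rw [pow_succ, div_div]
      rw [h'] at this
      exact this
  have hzero := code_zero_of_card hWP (hiter W.card) (by omega)
  intro u hu
  by_contra h
  have huW : u ∈ W := Finset.mem_filter.mpr ⟨hu, h⟩
  have h1 := hzero u huW
  have hne : eval u (ellForm α β) ≠ 0 := by
    rw [eval_ellForm]
    intro h0
    apply hline u (hWP.1 u huW) (hWz u huW).1 (hWz u huW).2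
    linear_combination h0
  exact h ((div_eq_zero_iff.mp h1).resolve_right (pow_ne_zero _ hne))

end Pool.Agent.Redei3
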