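import Mathlib

/-! the numerical inequalities of the geometric core. -/

set_option autoImplicit false

namespace Pool.Agent.Redei3

theorem count_ineq (p k r t N : ℕ) (hkr : k + r + 1 = p) (hp5 : 5 ≤ p) (hodd : p % 2 = 1)
    (h2t : 2 * t + 1 ≤ p) (ht2 : 2 ≤ t) (hr2 : 2 ≤ r) (h2r : 2 * r + 1 ≤ p)
    (h3 : p + 7 ≤ 3 * (t + r)) (hr : r = 2 → p + 1 = 3 * t ∧ t < 4)
    (hG2 : 2 * t ≤ k + 3 → t * (k + 3 - t) ≤ N)
    (hG3 : k + 3 < 2 * t → (k + 2) * (k + 4) ≤ 4 * N)
    (hcon : t = 2 → N ≤ p + 2) : p * (p - 1) < 2 * r * N := by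
  rcases Nat.lt_or_ge r 3 with hr3 | hr3
  · -- r = 2
    have hr' : r = 2 := by omega
    obtain ⟨h1, h2⟩ := hr hr'
    have ht : t = 2 ∨ t = 3 := by omega
    rcases ht with ht | ht
    · subst ht
      have hp : p = 5 := by omega
      subst hp
      have hk : k = 2 := by omega
      subst hk
      have := hG2 (by norm_num)
      subst hr'
      omega
    · subst ht
      omega
  · -- r ≥ 3
    rcases Nat.lt_or_ge (k + 3) (2 * t) with hkt | hkt
    · have h := hG3 hkt
      obtain ⟨w, rfl⟩ : ∃ w, p = 2 * r + 1 + w := ⟨p - (2 * r + 1), by omega⟩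
      have hk : k = r + w := by omega
      subst hk
      obtain ⟨s, rfl⟩ : ∃ s, r = s + 3 := ⟨r - 3, by omega⟩
      have e1 : 2 * (s + 3) + 1 + w - 1 = 2 * (s + 3) + w := by omega
      rw [e1]
      nlinarith [Nat.zero_le (s * w), Nat.zero_le (s * w * w), Nat.zero_le (s * s * w),
        Nat.zero_le (s * s * s), Nat.zero_le (w * w), Nat.zero_le (s * s)]
    · have h := hG2 hkt
      rcases Nat.eq_or_lt_of_le ht2 with ht | ht
      · -- t = 2
        subst ht
        have h4 := hcon rfl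
        have hk : k + 3 - 2 = k + 1 := by omega
        rw [hk] at h
        have hp : p = 2 * r + 1 := by omega
        subst hp
        have hk2 : k = r := by omega
        subst hk2
        have e1 : 2 * k + 1 - 1 = 2 * k := by omega
        rw [e1]
        nlinarith
      · -- t ≥ 3
        obtain ⟨t', rfl⟩ : ∃ t', t = t' + 3 := ⟨t - 3, by omega⟩
        obtain ⟨r', rfl⟩ : ∃ r', r = r' + 3 := ⟨r - 3, by omega⟩
        -- q = t + r ; k + 3 - t = p + 2 - q
        obtain ⟨v, hv⟩ : ∃ v, k + 3 - (t' + 3) = v := ⟨_, rfl⟩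
        rw [hv] at h
        -- p + 2 = v + q
        have hpq : p + 2 = v + (t' + 3) + (r' + 3) := by omega
        -- rt ≥ 3(q-3)
        have hrt : 3 * (t' + r' + 3) ≤ (t' + 3) * (r' + 3) := by nlinarith [Nat.zero_le (t' * r')]
        have hN : 2 * (3 * (t' + r' + 3)) * v ≤ 2 * (r' + 3) * N := by
          calc 2 * (3 * (t' + r' + 3)) * v ≤ 2 * ((t' + 3) * (r' + 3)) * v := by
                apply Nat.mul_le_mul_right; apply Nat.mul_le_mul_left; exact hrt
            _ = 2 * (r' + 3) * ((t' + 3) * v) := by ring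
            _ ≤ 2 * (r' + 3) * N := Nat.mul_le_mul_left _ h
        refine lt_of_lt_of_le ?_ hN
        -- let Q = t' + r' (q = Q + 6), p = v + Q + 4
        obtain ⟨Q, hQ⟩ : ∃ Q, t' + r' = Q := ⟨_, rfl⟩
        have hp : p = v + Q + 4 := by omega
        -- constraints: p + 7 ≤ 3 (Q+6), 4 (Q + 6) ≤ 3 p + 3
        have c1 : p + 7 ≤ 3 * (Q + 6) := by omega
        have c2 : 4 * (Q + 6) ≤ 3 * p + 3 := by omega
        rw [hQ]
        have e1 : p - 1 = v + Q + 3 := by omega
        rw [e1, hp]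
        rw [hp] at c1 c2
        -- (v+Q+4)(v+Q+3) < 6 (Q+3) v
        have c1' : v ≤ 2 * Q + 7 := by omega
        have c2' : Q + 9 ≤ 3 * v := by omega
        -- (2Q+7 - v) ≥ 0 , (3v - Q - 9) ≥ 0
        have hprod : (0:ℤ) ≤ (2 * (Q:ℤ) + 7 - v) * (3 * (v:ℤ) - Q - 9) := by
          apply mul_nonneg <;> [skip; skip]
          · have : (v:ℤ) ≤ 2 * Q + 7 := by exact_mod_cast c1'
            linarith
          · have : (Q:ℤ) + 9 ≤ 3 * v := by exact_mod_cast c2'
            linarith
        have goal : ((v:ℤ) + Q + 4) * (v + Q + 3) < 2 * (3 * (Q + 3)) * v := by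
          have hv0 : (0:ℤ) ≤ v := by positivity
          have hQ0 : (0:ℤ) ≤ Q := by positivity
          have c2z : (Q:ℤ) + 9 ≤ 3 * v := by exact_mod_cast c2'
          have c1z : (v:ℤ) ≤ 2 * Q + 7 := by exact_mod_cast c1'
          nlinarith [mul_nonneg hv0 hQ0]
        exact_mod_cast goal

end Pool.Agent.Redei3
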