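import Pool.Agent.Work.MP_e263ba_co.FunDeg

/-! JOB B1: the function-level part of the local analysis. -/

set_option autoImplicit false

namespace Pool.Agent.Redei3

open Finset Polynomial

variable {p : ℕ} [Fact p.Prime] {K : Type*} [Field K] [Algebra (ZMod p) K]

theorem localSums (φ ψ : ZMod p → K) (a h mS K0 δ : ℕ) (hK0 : K0 + δ = p - 1) (ha : 1 ≤ a)
    (hh : 2 ≤ h) (hhm : h ≤ mS) (ham : a ≤ mS) (hmK : mS ≤ K0)
    (haff : ∀ α β : K, ∃ x, φ x ≠ α * algebraMap (ZMod p) K x + β)
    (h1 : ∀ i, i + 1 ≤ K0 → ∑ x : ZMod p, (algebraMap (ZMod p) K x) ^ i * φ x = 0)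
    (h2 : ∀ j, j + a < mS → ∑ x : ZMod p, (algebraMap (ZMod p) K x) ^ j * ψ x ^ a = 0)
    (h3 : ∑ x : ZMod p, (algebraMap (ZMod p) K x) ^ (mS - a) * ψ x ^ a ≠ 0)
    (h4 : ∀ i, i + 1 + a < mS →
      ∑ x : ZMod p, (algebraMap (ZMod p) K x) ^ i * φ x * ψ x ^ a = 0)
    (h5 : ∀ j < h, ∀ i, i + j ≤ K0 → 1 ≤ i + j →
      ∑ x : ZMod p, (algebraMap (ZMod p) K x) ^ i * φ x ^ j = 0)
    (h6 : ∑ x : ZMod p, (algebraMap (ZMod p) K x) ^ (mS - h) * φ x ^ h ≠ 0) :
    2 ≤ (pol φ).natDegree ∧ (pol φ).natDegree ≤ δ ∧ mS + 1 ≤ (pol φ).natDegree + a ∧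
      p + 1 ≤ (pol φ).natDegree + δ + mS ∧
      (3 ≤ h → 2 * (pol φ).natDegree ≤ δ + 1 ∨ p ≤ 2 * (pol φ).natDegree) := by
  have hprime : p.Prime := Fact.out
  have hp2 := hprime.two_le
  have hd2 : 2 ≤ (pol φ).natDegree := by
    by_contra hcon
    push Not at hcon
    obtain ⟨x, hx⟩ := haff ((pol φ).coeff 1) ((pol φ).coeff 0)
    apply hx
    rw [← pol_eval φ x, Polynomial.eval_eq_sum_range' (n := 2) (by omega),
      Finset.sum_range_succ, Finset.sum_range_one]
    ring
  have hdδ : (pol φ).natDegree ≤ δ := by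
    have := natDegree_pol_le_of_moments φ K0 (by omega) (fun i hi => h1 i (by omega))
    omega
  -- degree of `φ ^ j`
  have hpow : ∀ j, 1 ≤ j → j < h → (pol (φ ^ j)).natDegree ≤ δ + j - 1 := by
    intro j hj1 hj
    have := natDegree_pol_le_of_moments (φ ^ j) (K0 + 1 - j) (by omega) (by
      intro i hi
      have := h5 j hj i (by omega) (by omega)
      simpa using this)
    omega
  refine ⟨hd2, hdδ, ?_, ?_, ?_⟩
  · by_contra hcon
    push Not at hcon
    obtain ⟨i, hi⟩ : ∃ i, i + (pol φ).natDegree + a = mS :=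
      ⟨mS - a - (pol φ).natDegree, by omega⟩
    have h7 := h4 i (by omega)
    have h8 : ∀ x : ZMod p, (algebraMap (ZMod p) K x) ^ i * φ x * ψ x ^ a
        = ∑ k ∈ Finset.range ((pol φ).natDegree + 1), (pol φ).coeff k *
          ((algebraMap (ZMod p) K x) ^ (i + k) * ψ x ^ a) := by
      intro x
      have h9 : φ x = ∑ k ∈ Finset.range ((pol φ).natDegree + 1), (pol φ).coeff k *
          (algebraMap (ZMod p) K x) ^ k := by
        rw [← Polynomial.eval_eq_sum_range, pol_eval]
      conv_lhs => rw [h9]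
      rw [Finset.mul_sum, Finset.sum_mul]
      refine Finset.sum_congr rfl (fun k _ => ?_)
      rw [pow_add]; ring
    rw [Finset.sum_congr rfl (fun x _ => h8 x), Finset.sum_comm, Finset.sum_range_succ] at h7
    have h10 : ∑ k ∈ Finset.range (pol φ).natDegree, ∑ x : ZMod p, (pol φ).coeff k *
          ((algebraMap (ZMod p) K x) ^ (i + k) * ψ x ^ a) = 0 := by
      apply Finset.sum_eq_zero
      intro k hk
      rw [← Finset.mul_sum, h2 (i + k) (by have := Finset.mem_range.mp hk; omega), mul_zero]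
    rw [h10, zero_add, ← Finset.mul_sum, show i + (pol φ).natDegree = mS - a by omega] at h7
    rcases mul_eq_zero.mp h7 with h11 | h11
    · have h12 : pol φ = 0 := Polynomial.leadingCoeff_eq_zero.mp h11
      rw [h12, Polynomial.natDegree_zero] at hd2
      omega
    · exact h3 h11
  · by_contra hcon
    push Not at hcon
    apply h6
    have h7 : ∀ x : ZMod p, (algebraMap (ZMod p) K x) ^ (mS - h) * φ x ^ h
        = (Polynomial.X ^ (mS - h) * (pol (φ ^ (h - 1)) * pol φ)).eval
          (algebraMap (ZMod p) K x) := by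
      intro x
      simp only [Polynomial.eval_mul, Polynomial.eval_pow, Polynomial.eval_X, pol_eval,
        Pi.pow_apply]
      rw [← pow_succ, show h - 1 + 1 = h by omega]
    rw [Finset.sum_congr rfl (fun x _ => h7 x)]
    apply sum_eval_lt
    have h8 := hpow (h - 1) (by omega) (by omega)
    refine lt_of_le_of_lt Polynomial.natDegree_mul_le ?_
    rw [Polynomial.natDegree_X_pow]
    have h9 := Polynomial.natDegree_mul_le (p := pol (φ ^ (h - 1))) (q := pol φ)
    omega
  · intro h3h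
    by_contra hcon
    push Not at hcon
    have h7 := hpow 2 (by omega) (by omega)
    rw [pol_pow φ 2 (by omega), Polynomial.natDegree_pow] at h7
    omega

end Pool.Agent.Redei3
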