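import Pool.Agent.Work.MP_e263ba_co.PlaneEvA

/-! G5, linear forms, conics. -/

set_option autoImplicit false

namespace Pool.Agent.Redei3

open Finset MvPolynomial

variable {K : Type*} [Field K]

theorem deg_one_eq_single (d : Fin 3 →₀ ℕ) (h : d.degree = 1) : ∃ i, d = Finsupp.single i 1 := by
  classical
  obtain ⟨i, hi⟩ : ∃ i, d i ≠ 0 := by
    by_contra hcon
    push Not at hcon
    have : d = 0 := by
      ext k
      exact hcon k
    rw [this] at h
    simp at h
  have hle : Finsupp.single i 1 ≤ d := by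
    rw [Finsupp.single_le_iff]
    exact Nat.one_le_iff_ne_zero.2 hi
  have hsplit : d = (d - Finsupp.single i 1) + Finsupp.single i 1 := (tsub_add_cancel_of_le hle).symm
  have h2 : (d - Finsupp.single i 1).degree = 0 := by
    have h4 := congrArg Finsupp.degree hsplit
    rw [map_add, Finsupp.degree_single] at h4
    omega
  rw [Finsupp.degree_eq_zero_iff] at h2
  rw [h2, zero_add] at hsplit
  exact ⟨i, hsplit⟩

/-- linear forms are the `linForm e`. -/
theorem eq_linForm (L : MvPolynomial (Fin 3) K) (hL : L.IsHomogeneous 1) :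
    ∃ e : Fin 3 → K, L = linForm e ∧ (L ≠ 0 → e ≠ 0) := by
  classical
  have h1 : L = linForm (fun i => coeff (Finsupp.single i 1) L) := by
    ext d
    by_cases hd : d.degree = 1
    · obtain ⟨i, rfl⟩ := deg_one_eq_single d hd
      unfold linForm
      rw [coeff_sum, Finset.sum_eq_single i]
      · rw [coeff_C_mul, coeff_X, if_pos rfl, mul_one]
      · intro j _ hj
        rw [coeff_C_mul, coeff_X, if_neg, mul_zero]
        intro h
        exact hj (Finsupp.single_left_injective one_ne_zero h)
      · intro h; exact absurd (Finset.mem_univ _) h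
    · rw [hL.coeff_eq_zero hd, (linForm_hom _).coeff_eq_zero hd]
  refine ⟨_, h1, ?_⟩
  intro hne h0
  apply hne
  rw [h1, h0]
  simp [linForm]

theorem linForm_ne_zero' {e : Fin 3 → K} (he : e ≠ 0) : linForm e ≠ 0 := by
  obtain ⟨w, hw⟩ := exists_lin_ne he
  intro h
  apply he
  funext i
  have h2 : eval (Pi.single i 1) (linForm e) = 0 := by rw [h, map_zero]
  rw [eval_linForm] at h2
  simpa [Pi.single_apply] using h2

/-- over an infinite field: a polynomial vanishing on the plane `e·u = 0` is divisible by `e`. -/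
theorem lin_dvd_of_van_inf [Infinite K] (e : Fin 3 → K) (he : e ≠ 0) (P : MvPolynomial (Fin 3) K)
    (hvan : ∀ u : Fin 3 → K, ∑ i, e i * u i = 0 → eval u P = 0) : linForm e ∣ P := by
  classical
  obtain ⟨j, hj⟩ : ∃ j, e j ≠ 0 := by
    by_contra hcon
    push Not at hcon
    exact he (funext hcon)
  let g : Fin 3 → MvPolynomial (Fin 3) K :=
    fun i => X i - (if i = j then C (e j)⁻¹ * linForm e else 0)
  let φ : MvPolynomial (Fin 3) K →ₐ[K] MvPolynomial (Fin 3) K := aeval g
  have h1 : ∀ Q : MvPolynomial (Fin 3) K, linForm e ∣ Q - φ Q := by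
    intro Q
    induction Q using MvPolynomial.induction_on with
    | C a => simp [φ]
    | add f g hf hg =>
      have : f + g - φ (f + g) = (f - φ f) + (g - φ g) := by rw [map_add]; ring
      rw [this]; exact dvd_add hf hg
    | mul_X f i hf =>
      have : f * X i - φ (f * X i) = (f - φ f) * X i + φ f * (X i - φ (X i)) := by
        rw [map_mul]; ring
      rw [this]
      apply dvd_add (Dvd.dvd.mul_right hf _)
      apply Dvd.dvd.mul_left
      have h2 : X i - φ (X i) = (if i = j then C (e j)⁻¹ * linForm e else 0) := by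
        simp [φ, g]
      rw [h2]
      split_ifs
      · exact Dvd.intro_left _ rfl
      · exact dvd_zero _
  have h2 : φ P = 0 := by
    apply MvPolynomial.funext
    intro v
    rw [map_zero]
    have h3 : eval v (φ P) = eval (fun i => eval v (g i)) P := by
      have : (eval v).comp (φ : MvPolynomial (Fin 3) K →+* _)
          = (eval (fun i => eval v (g i)) : MvPolynomial (Fin 3) K →+* K) := by
        apply MvPolynomial.ringHom_ext
        · intro r; simp [φ]
        · intro i; simp [φ]
      exact congrArg (fun f => f P) this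
    rw [h3]
    apply hvan
    have h4 : ∀ i, eval v (g i) = v i - (if i = j then (e j)⁻¹ * (∑ i, e i * v i) else 0) := by
      intro i
      simp only [g, map_sub, eval_X]
      split_ifs
      · rw [map_mul, eval_C, eval_linForm]
      · rw [map_zero]
    simp only [h4, mul_sub, Finset.sum_sub_distrib, mul_ite, mul_zero, Finset.sum_ite_eq',
      Finset.mem_univ, if_true]
    rw [← mul_assoc, mul_inv_cancel₀ hj, one_mul, sub_self]
  have h3 := h1 P
  rw [h2, sub_zero] at h3
  exact h3

/-- a form vanishing on a plane `span(v,w)` is divisible by a linear form. -/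
theorem G5 [Infinite K] (T : MvPolynomial (Fin 3) K) (t : ℕ) (_hT : T.IsHomogeneous t)
    (v w : Fin 3 → K) (hli : LinearIndependent K ![v, w])
    (hvan : ∀ α β : K, eval (α • v + β • w) T = 0) :
    ∃ L : MvPolynomial (Fin 3) K, L.IsHomogeneous 1 ∧ L ≠ 0 ∧ L ∣ T := by
  have he : crossProduct v w ≠ 0 := crossProduct_ne_zero_iff_linearIndependent.2 hli
  refine ⟨linForm (crossProduct v w), linForm_hom _, linForm_ne_zero' he, ?_⟩
  apply lin_dvd_of_van_inf _ he
  intro u hu
  have key : ∃ α β : K, u = α • v + β • w := by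
    have hdiv : ∀ A B D x y z : K, D ≠ 0 → x * D = A * y + B * z → x = A / D * y + B / D * z := by
      intro A B D x y z hD h
      field_simp
      exact h
    obtain ⟨j, hj⟩ := Function.ne_iff.mp he
    rw [cross_apply] at hu hj
    simp only [Fin.sum_univ_three, Matrix.cons_val_zero, Matrix.cons_val_one, Matrix.cons_val,
      Pi.zero_apply] at hu hj
    fin_cases j
    · have hj' : v 1 * w 2 - v 2 * w 1 ≠ 0 := hj
      refine ⟨(u 1 * w 2 - u 2 * w 1) / (v 1 * w 2 - v 2 * w 1),
        (v 1 * u 2 - v 2 * u 1) / (v 1 * w 2 - v 2 * w 1), ?_⟩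
      ext i
      simp only [Pi.add_apply, Pi.smul_apply, smul_eq_mul]
      apply hdiv _ _ _ _ _ _ hj'
      fin_cases i
      · show u 0 * _ = _ * v 0 + _ * w 0
        linear_combination hu
      · show u 1 * _ = _ * v 1 + _ * w 1
        ring
      · show u 2 * _ = _ * v 2 + _ * w 2
        ring
    · have hj' : v 2 * w 0 - v 0 * w 2 ≠ 0 := hj
      refine ⟨(u 2 * w 0 - u 0 * w 2) / (v 2 * w 0 - v 0 * w 2),
        (v 2 * u 0 - v 0 * u 2) / (v 2 * w 0 - v 0 * w 2), ?_⟩
      ext i
      simp only [Pi.add_apply, Pi.smul_apply, smul_eq_mul]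
      apply hdiv _ _ _ _ _ _ hj'
      fin_cases i
      · show u 0 * _ = _ * v 0 + _ * w 0
        ring
      · show u 1 * _ = _ * v 1 + _ * w 1
        linear_combination hu
      · show u 2 * _ = _ * v 2 + _ * w 2
        ring
    · have hj' : v 0 * w 1 - v 1 * w 0 ≠ 0 := hj
      refine ⟨(u 0 * w 1 - u 1 * w 0) / (v 0 * w 1 - v 1 * w 0),
        (v 0 * u 1 - v 1 * u 0) / (v 0 * w 1 - v 1 * w 0), ?_⟩
      ext i
      simp only [Pi.add_apply, Pi.smul_apply, smul_eq_mul]
      apply hdiv _ _ _ _ _ _ hj'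
      fin_cases i
      · show u 0 * _ = _ * v 0 + _ * w 0
        ring
      · show u 1 * _ = _ * v 1 + _ * w 1
        ring
      · show u 2 * _ = _ * v 2 + _ * w 2
        linear_combination hu
  obtain ⟨α, β, rfl⟩ := key
  exact hvan α β


theorem deg_two_eq (d : Fin 3 →₀ ℕ) (h : d.degree = 2) :
    ∃ i j, d = Finsupp.single i 1 + Finsupp.single j 1 := by
  classical
  obtain ⟨i, hi⟩ : ∃ i, d i ≠ 0 := by
    by_contra hcon
    push Not at hcon
    have : d = 0 := by
      ext k
      exact hcon k
    rw [this] at h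
    simp at h
  have hle : Finsupp.single i 1 ≤ d := by
    rw [Finsupp.single_le_iff]
    exact Nat.one_le_iff_ne_zero.2 hi
  have hsplit : d = (d - Finsupp.single i 1) + Finsupp.single i 1 := (tsub_add_cancel_of_le hle).symm
  have h2 : (d - Finsupp.single i 1).degree = 1 := by
    have h4 := congrArg Finsupp.degree hsplit
    rw [map_add, Finsupp.degree_single] at h4
    omega
  obtain ⟨j, hj⟩ := deg_one_eq_single _ h2
  rw [hj] at hsplit
  exact ⟨j, i, hsplit⟩

theorem polar2 (T : MvPolynomial (Fin 3) K) (hT : T.IsHomogeneous 2) (x y : Fin 3 → K) :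
    ∃ B : K, ∀ a b : K, eval (a • x + b • y) T = a ^ 2 * eval x T + a * b * B + b ^ 2 * eval y T := by
  classical
  have h1 : ∀ d ∈ T.support, ∃ B : K, ∀ a b : K, eval (a • x + b • y) (monomial d (coeff d T))
      = a ^ 2 * eval x (monomial d (coeff d T)) + a * b * B
        + b ^ 2 * eval y (monomial d (coeff d T)) := by
    intro d hd
    have hdeg : d.degree = 2 := by
      have := hT (mem_support_iff.1 hd)
      rw [Finsupp.degree_eq_weight_one]
      exact this
    obtain ⟨i, j, rfl⟩ := deg_two_eq d hdeg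
    set c := coeff (Finsupp.single i 1 + Finsupp.single j 1) T
    have hm : (monomial (Finsupp.single i 1 + Finsupp.single j 1) c : MvPolynomial (Fin 3) K)
        = C c * X i * X j := by
      rw [X, X, C_mul_monomial, monomial_mul, mul_one, mul_one]
    refine ⟨c * (x i * y j + y i * x j), fun a b => ?_⟩
    rw [hm]
    simp only [map_mul, eval_C, eval_X, Pi.add_apply, Pi.smul_apply, smul_eq_mul]
    ring
  choose! B hB using h1
  refine ⟨∑ d ∈ T.support, B d, fun a b => ?_⟩
  have h2 : ∀ z : Fin 3 → K, eval z T = ∑ d ∈ T.support, eval z (monomial d (coeff d T)) := by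
    intro z
    conv_lhs => rw [T.as_sum]
    rw [map_sum]
  rw [h2 (a • x + b • y), h2 x, h2 y, Finset.mul_sum, Finset.mul_sum, Finset.mul_sum,
    ← Finset.sum_add_distrib, ← Finset.sum_add_distrib]
  exact Finset.sum_congr rfl fun d hd => hB d hd a b


theorem card_perp_aux {p : ℕ} [Fact p.Prime] (v : Fin 3 → ZMod p) (hv : v ≠ 0) :
    (Finset.univ.filter (fun u : Fin 3 → ZMod p => ∑ i, u i * v i = 0)).card = p ^ 2 := by
  classical
  obtain ⟨k, hk⟩ := Function.ne_iff.1 hv
  let φ : (Fin 3 → ZMod p) →ₗ[ZMod p] ZMod p := ∑ i, (v i) • LinearMap.proj i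
  have hφ : ∀ u, φ u = ∑ i, u i * v i := by
    intro u
    simp [φ, mul_comm]
  have hsurj : Function.Surjective φ := by
    intro s
    refine ⟨Pi.single k (s / v k), ?_⟩
    rw [hφ, Finset.sum_eq_single k]
    · simp only [Pi.single_eq_same]
      exact div_mul_cancel₀ s hk
    · intro b _ hb
      simp [hb]
    · intro h
      exact absurd (Finset.mem_univ k) h
  have h1 := LinearMap.finrank_range_add_finrank_ker φ
  rw [LinearMap.range_eq_top.2 hsurj, finrank_top, Module.finrank_self, Module.finrank_fin_fun] at h1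
  have h2 : Nat.card (LinearMap.ker φ) = Nat.card (ZMod p) ^ Module.finrank (ZMod p) (LinearMap.ker φ) :=
    Module.natCard_eq_pow_finrank
  have h3 : Module.finrank (ZMod p) (LinearMap.ker φ) = 2 := by omega
  rw [h3, Nat.card_zmod] at h2
  rw [← h2, Nat.card_eq_fintype_card, ← Fintype.card_coe]
  refine Fintype.card_congr (Equiv.subtypeEquivRight ?_)
  intro u
  simp only [Finset.mem_filter, Finset.mem_univ, true_and, LinearMap.mem_ker, hφ]

/-- at most `p + 2` rational points on a conic without linear factor. -/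
theorem conic_card {p : ℕ} [Fact p.Prime] [Algebra (ZMod p) K] [Infinite K]
    (Z : Finset (Fin 3 → K)) (hZ : Pts Z) (hrat : ∀ z ∈ Z, ∃ u : Fin 3 → ZMod p, z = cst K u)
    (T : MvPolynomial (Fin 3) K) (hT : T.IsHomogeneous 2) (hvan : ∀ z ∈ Z, eval z T = 0)
    (hNL : NoLin T) : Z.card ≤ p + 2 := by
  classical
  have hp : 2 ≤ p := (Fact.out : p.Prime).two_le
  rcases Z.eq_empty_or_nonempty with rfl | ⟨z0, hz0⟩
  · simp
  choose! r hr using hrat
  have hcz : cst K (0 : Fin 3 → ZMod p) = 0 := by
    ext i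
    simp [cst]
  have hcs : ∀ (c : ZMod p) (u : Fin 3 → ZMod p), cst K (c • u) = algebraMap (ZMod p) K c • cst K u := by
    intro c u
    ext i
    simp [cst]
  have hca : ∀ (u v : Fin 3 → ZMod p), cst K (u + v) = cst K u + cst K v := by
    intro u v
    ext i
    simp [cst]
  have hr0 : r z0 ≠ 0 := by
    intro h
    apply hZ.1 z0 hz0
    rw [hr z0 hz0, h, hcz]
  have hcross : ∀ z ∈ Z, z ≠ z0 → crossProduct (r z0) (r z) ≠ 0 := by
    intro z hz hne
    rw [crossProduct_ne_zero_iff_linearIndependent, LinearIndependent.pair_iff' hr0]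
    intro a ha
    apply hne
    apply hZ.2 z hz z0 hz0 (algebraMap (ZMod p) K a)
    conv_lhs => rw [hr z hz]
    conv_rhs => rw [hr z0 hz0]
    rw [← hcs, ha]
  -- two further points on one line through `z0` are impossible
  have hline : ∀ z ∈ Z, ∀ z' ∈ Z, z ≠ z0 → z' ≠ z0 → ∀ α β : K, z' = α • z0 + β • z → z' = z := by
    intro z hz z' hz' hz0' hz0'' α β h
    by_contra hne
    have hβ : β ≠ 0 := by
      rintro rfl
      apply hz0''
      apply hZ.2 z' hz' z0 hz0 α
      rw [h, zero_smul, add_zero]
    have hα : α ≠ 0 := by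
      rintro rfl
      apply hne
      apply hZ.2 z' hz' z hz β
      rw [h, zero_smul, zero_add]
    obtain ⟨B, hB⟩ := polar2 T hT z0 z
    have h1 := hB α β
    rw [← h, hvan z' hz', hvan z0 hz0, hvan z hz] at h1
    have hB0 : B = 0 := by
      have h2 : α * β * B = 0 := by linear_combination -h1
      exact (mul_eq_zero.1 h2).resolve_left (mul_ne_zero hα hβ)
    have hli : LinearIndependent K ![z0, z] := by
      rw [LinearIndependent.pair_iff' (hZ.1 z0 hz0)]
      intro a ha
      exact hz0' (hZ.2 z hz z0 hz0 a ha.symm)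
    obtain ⟨L, h3, h4, h5⟩ := G5 T 2 hT z0 z hli (by
      intro a b
      rw [hB a b, hvan z0 hz0, hvan z hz, hB0]
      ring)
    exact hNL L h3 h4 h5
  have hcard : ((Z.erase z0) ×ˢ (Finset.univ.filter (fun c : ZMod p => c ≠ 0))).card
      ≤ (Finset.univ.filter (fun e : Fin 3 → ZMod p => e ≠ 0 ∧ ∑ i, e i * r z0 i = 0)).card := by
    refine Finset.card_le_card_of_injOn (fun zc => zc.2 • crossProduct (r z0) (r zc.1)) ?_ ?_
    · rintro ⟨z, c⟩ h
      rw [Finset.mem_coe, Finset.mem_product] at h
      have hz := Finset.mem_erase.1 h.1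
      have hc : c ≠ 0 := (Finset.mem_filter.1 h.2).2
      simp only [Finset.coe_filter, Finset.mem_univ, true_and, Set.mem_ofPred_eq]
      refine ⟨smul_ne_zero hc (hcross z hz.2 hz.1), ?_⟩
      have h1 : (r z0) ⬝ᵥ (crossProduct (r z0) (r z)) = 0 := dot_self_cross _ _
      have h2 : ∑ i, (c • crossProduct (r z0) (r z)) i * r z0 i
          = c * ((r z0) ⬝ᵥ (crossProduct (r z0) (r z))) := by
        rw [dotProduct, Finset.mul_sum]
        refine Finset.sum_congr rfl fun i _ => ?_
        rw [Pi.smul_apply, smul_eq_mul]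
        ring
      rw [h2, h1, mul_zero]
    · rintro ⟨z, c⟩ h ⟨z', c'⟩ h' heq
      rw [Finset.mem_coe, Finset.mem_product] at h h'
      simp only at h h' heq
      have hz := Finset.mem_erase.1 h.1
      have hz' := Finset.mem_erase.1 h'.1
      have hc : c ≠ 0 := (Finset.mem_filter.1 h.2).2
      have hc' : c' ≠ 0 := (Finset.mem_filter.1 h'.2).2
      have h1 : crossProduct (r z0) (c' • r z' - c • r z) = 0 := by
        rw [map_sub, map_smul, map_smul, heq, sub_self]
      have h2 : ∃ a : ZMod p, a • r z0 = c' • r z' - c • r z := by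
        by_contra hcon
        push Not at hcon
        exact (crossProduct_ne_zero_iff_linearIndependent.2
          ((LinearIndependent.pair_iff' hr0).2 hcon)) h1
      obtain ⟨a, ha⟩ := h2
      have h3 : r z' = (c'⁻¹ * a) • r z0 + (c'⁻¹ * c) • r z := by
        rw [← smul_smul, ← smul_smul, ha, smul_sub, smul_smul, inv_mul_cancel₀ hc', one_smul]
        abel
      have h4 : z' = z := by
        apply hline z hz.2 z' hz'.2 hz.1 hz'.1 (algebraMap (ZMod p) K (c'⁻¹ * a))
          (algebraMap (ZMod p) K (c'⁻¹ * c))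
        conv_lhs => rw [hr z' hz'.2, h3]
        rw [hca, hcs, hcs, ← hr z0 hz0, ← hr z hz.2]
      subst h4
      have h5 : (c - c') • crossProduct (r z0) (r z') = 0 := by rw [sub_smul, heq, sub_self]
      rcases smul_eq_zero.1 h5 with h6 | h6
      · rw [sub_eq_zero.1 h6]
      · exact absurd h6 (hcross z' hz.2 hz.1)
  rw [Finset.card_product, Finset.card_erase_of_mem hz0] at hcard
  have h7 : (Finset.univ.filter (fun c : ZMod p => c ≠ 0)).card = p - 1 := by
    rw [Finset.filter_ne', Finset.card_erase_of_mem (Finset.mem_univ _), Finset.card_univ, ZMod.card]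
  have h8 : (Finset.univ.filter (fun e : Fin 3 → ZMod p => e ≠ 0 ∧ ∑ i, e i * r z0 i = 0)).card
      = p ^ 2 - 1 := by
    have h9 : (Finset.univ.filter (fun e : Fin 3 → ZMod p => e ≠ 0 ∧ ∑ i, e i * r z0 i = 0))
        = (Finset.univ.filter (fun e : Fin 3 → ZMod p => ∑ i, e i * r z0 i = 0)).erase 0 := by
      ext u
      simp
    rw [h9, Finset.card_erase_of_mem (by simp), card_perp_aux (r z0) hr0]
  rw [h7, h8] at hcard
  obtain ⟨q, rfl⟩ : ∃ q, p = q + 1 := ⟨p - 1, by omega⟩
  have h10 : (q + 1) ^ 2 - 1 = (q + 2) * q := by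
    have : (q + 1) ^ 2 = (q + 2) * q + 1 := by ring
    rw [this]; rfl
  rw [h10, Nat.add_sub_cancel] at hcard
  have h11 := Nat.le_of_mul_le_mul_right hcard (by omega)
  omega

end Pool.Agent.Redei3
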