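import Pool.Agent.Work.MP_e263ba_co.PlaneEvA
import Pool.Agent.Work.MP_e263ba_co.PlaneEvB

/-! JOB P1b: evaluation, G0, minimal forms, G5, conics (see `PlaneEvA`, `PlaneEvB`). -/
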