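import Pool.Agent.Work.MP_e263ba_co.PlaneDim

/-! evaluation of forms at points, codes, minimal forms (ev_surj, G0, exists_minForm). -/

set_option autoImplicit false

namespace Pool.Agent.Redei3

open Finset MvPolynomial

variable {K : Type*} [Field K]

lemma Pts.mono {Z W : Finset (Fin 3 → K)} (h : Pts Z) (hW : W ⊆ Z) : Pts W :=
  ⟨fun u hu => h.1 u (hW hu), fun u hu v hv => h.2 u (hW hu) v (hW hv)⟩

theorem linForm_hom (w : Fin 3 → K) : (linForm w).IsHomogeneous 1 :=
  IsHomogeneous.sum _ _ _ fun i _ => isHomogeneous_C_mul_X (w i) i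

theorem eval_linForm (w u : Fin 3 → K) : eval u (linForm w) = ∑ i, w i * u i := by
  simp [linForm]

/-- a linear form vanishing at `v` but not at `u` -/
theorem exists_lin_sep {u v : Fin 3 → K} (hv : v ≠ 0) (h : ∀ a : K, u ≠ a • v) :
    ∃ w : Fin 3 → K, eval v (linForm w) = 0 ∧ eval u (linForm w) ≠ 0 := by
  classical
  by_contra hcon
  push Not at hcon
  have hm : ∀ i j, v j * u i = v i * u j := by
    intro i j
    have h1 := hcon (Pi.single i (v j) - Pi.single j (v i)) (by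
      rw [eval_linForm]
      simp only [Pi.sub_apply, sub_mul, Finset.sum_sub_distrib]
      simp only [Pi.single_apply, ite_mul, zero_mul, Finset.sum_ite_eq', Finset.mem_univ, if_true]
      ring)
    rw [eval_linForm] at h1
    simp only [Pi.sub_apply, sub_mul, Finset.sum_sub_distrib] at h1
    simp only [Pi.single_apply, ite_mul, zero_mul, Finset.sum_ite_eq', Finset.mem_univ,
      if_true] at h1
    exact sub_eq_zero.mp h1
  obtain ⟨j, hj⟩ := Function.ne_iff.mp hv
  simp only [Pi.zero_apply] at hj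
  apply h (u j / v j)
  ext i
  simp only [Pi.smul_apply, smul_eq_mul]
  have := hm i j
  field_simp
  linear_combination this

theorem exists_lin_ne {u : Fin 3 → K} (hu : u ≠ 0) :
    ∃ w : Fin 3 → K, eval u (linForm w) ≠ 0 := by
  classical
  obtain ⟨j, hj⟩ := Function.ne_iff.mp hu
  refine ⟨Pi.single j 1, ?_⟩
  rw [eval_linForm]
  simpa [Pi.single_apply] using hj

/-- (ev), indicator version -/
theorem ev_single {Z : Finset (Fin 3 → K)} (hZ : Pts Z) {n : ℕ} (hn : Z.card ≤ n + 1)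
    {u : Fin 3 → K} (hu : u ∈ Z) :
    ∃ F : MvPolynomial (Fin 3) K, F.IsHomogeneous n ∧ eval u F = 1 ∧
      ∀ v ∈ Z, v ≠ u → eval v F = 0 := by
  classical
  have h1 : ∀ v : Fin 3 → K, ∃ w : Fin 3 → K, v ∈ Z → v ≠ u →
      eval v (linForm w) = 0 ∧ eval u (linForm w) ≠ 0 := by
    intro v
    by_cases hv : v ∈ Z
    · by_cases hvu : v = u
      · exact ⟨0, fun _ h => absurd hvu h⟩
      · obtain ⟨w, hw⟩ := exists_lin_sep (hZ.1 v hv)
          (fun a ha => hvu (hZ.2 u hu v hv a ha).symm)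
        exact ⟨w, fun _ _ => hw⟩
    · exact ⟨0, fun h => absurd h hv⟩
  choose w hw using h1
  obtain ⟨w0, hw0⟩ := exists_lin_ne (hZ.1 u hu)
  set G : MvPolynomial (Fin 3) K :=
    (∏ v ∈ Z.erase u, linForm (w v)) * linForm w0 ^ (n - (Z.erase u).card) with hG
  have hcard : (Z.erase u).card ≤ n := by
    rw [Finset.card_erase_of_mem hu]; omega
  have hGhom : G.IsHomogeneous n := by
    have h2 : (∏ v ∈ Z.erase u, linForm (w v)).IsHomogeneous (∑ v ∈ Z.erase u, 1) :=
      IsHomogeneous.prod _ _ _ fun v _ => linForm_hom (w v)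
    have h3 : (linForm w0 ^ (n - (Z.erase u).card)).IsHomogeneous (1 * (n - (Z.erase u).card)) :=
      (linForm_hom w0).pow _
    have h4 := h2.mul h3
    convert h4 using 1
    simp only [Finset.sum_const, smul_eq_mul, mul_one, one_mul]
    omega
  have hGu : eval u G ≠ 0 := by
    rw [hG, map_mul, map_prod, map_pow]
    apply mul_ne_zero
    · rw [Finset.prod_ne_zero_iff]
      intro v hv
      rw [Finset.mem_erase] at hv
      exact (hw v hv.2 hv.1).2
    · exact pow_ne_zero _ hw0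
  refine ⟨C (eval u G)⁻¹ * G, hGhom.C_mul _, ?_, ?_⟩
  · rw [map_mul, eval_C, inv_mul_cancel₀ hGu]
  · intro v hv hvu
    have hGv : eval v G = 0 := by
      rw [hG, map_mul, map_prod]
      rw [Finset.prod_eq_zero (Finset.mem_erase.mpr ⟨hvu, hv⟩) (hw v hv hvu).1, zero_mul]
    rw [map_mul, hGv, mul_zero]

/-- evaluation of forms of degree `n ≥ |Z| - 1` at the points of `Z` is onto. -/
theorem ev_surj (Z : Finset (Fin 3 → K)) (hZ : Pts Z) (n : ℕ) (hn : Z.card ≤ n + 1)
    (y : (Fin 3 → K) → K) :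
    ∃ F : MvPolynomial (Fin 3) K, F.IsHomogeneous n ∧ ∀ u ∈ Z, eval u F = y u := by
  classical
  have h1 : ∀ u : Fin 3 → K, ∃ F : MvPolynomial (Fin 3) K, F.IsHomogeneous n ∧
      (u ∈ Z → eval u F = 1 ∧ ∀ v ∈ Z, v ≠ u → eval v F = 0) := by
    intro u
    by_cases hu : u ∈ Z
    · obtain ⟨F, h1, h2, h3⟩ := ev_single hZ hn hu
      exact ⟨F, h1, fun _ => ⟨h2, h3⟩⟩
    · exact ⟨0, isHomogeneous_zero _ _ _, fun h => absurd h hu⟩
  choose F hF hF2 using h1
  refine ⟨∑ u ∈ Z, C (y u) * F u, IsHomogeneous.sum _ _ _ fun u _ => (hF u).C_mul _, ?_⟩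
  intro u hu
  rw [map_sum, Finset.sum_eq_single u]
  · rw [map_mul, eval_C, (hF2 u hu).1, mul_one]
  · intro v hv hvu
    rw [map_mul, (hF2 v hv).2 u hu hvu.symm, mul_zero]
  · exact fun h => absurd hu h

/-- a code of degree `≥ |Z| - 1` is zero -/
theorem code_zero_of_card {Z : Finset (Fin 3 → K)} (hZ : Pts Z) {c : (Fin 3 → K) → K} {k : ℕ}
    (hc : Code Z c k) (hk : Z.card ≤ k + 1) : ∀ u ∈ Z, c u = 0 := by
  classical
  intro u hu
  obtain ⟨F, h1, h2, h3⟩ := ev_single hZ hk hu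
  have := hc F h1
  rw [Finset.sum_eq_single u] at this
  · rwa [h2, mul_one] at this
  · intro v hv hvu
    rw [h3 v hv hvu, mul_zero]
  · exact fun h => absurd hu h

theorem G0 (Z : Finset (Fin 3 → K)) (hZ : Pts Z) (hne : Z.Nonempty) (c : (Fin 3 → K) → K)
    (hc : ∀ u ∈ Z, c u ≠ 0) (k : ℕ) (hcode : Code Z c k) : k + 2 ≤ Z.card := by
  by_contra hcon
  obtain ⟨u, hu⟩ := hne
  exact hc u hu (code_zero_of_card hZ hcode (by omega) u hu)

/-- restricting a code to its support -/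
theorem Code.support {Z : Finset (Fin 3 → K)} {c : (Fin 3 → K) → K} {k : ℕ} (hc : Code Z c k)
    (W : Finset (Fin 3 → K)) (hW : W ⊆ Z) (h0 : ∀ u ∈ Z, u ∉ W → c u = 0) : Code W c k := by
  intro F hF
  rw [← hc F hF]
  apply Finset.sum_subset hW
  intro u hu huW
  rw [h0 u hu huW, zero_mul]

/-- multiplying a code by a form lowers the degree -/
theorem Code.mul {Z : Finset (Fin 3 → K)} {c : (Fin 3 → K) → K} {k a b : ℕ} (hc : Code Z c k)
    {Q : MvPolynomial (Fin 3) K} (hQ : Q.IsHomogeneous a) (hab : a + b = k) :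
    Code Z (fun u => c u * eval u Q) b := by
  intro F hF
  have := hc (Q * F) (hab ▸ hQ.mul hF)
  simpa [mul_assoc] using this

theorem exists_minForm (Z : Finset (Fin 3 → K)) (S : MvPolynomial (Fin 3) K) (s : ℕ)
    (hS : S.IsHomogeneous s) (hS0 : S ≠ 0) (hvan : ∀ u ∈ Z, eval u S = 0) :
    ∃ T t, MinForm Z T t ∧ t ≤ s := by
  classical
  have hex : ∃ t : ℕ, ∃ T : MvPolynomial (Fin 3) K, T ≠ 0 ∧ T.IsHomogeneous t ∧
      ∀ u ∈ Z, eval u T = 0 := ⟨s, S, hS0, hS, hvan⟩
  obtain ⟨T, h1, h2, h3⟩ := Nat.find_spec hex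
  refine ⟨T, Nat.find hex, ⟨h2, h1, h3, ?_⟩, Nat.find_min' hex ⟨S, hS0, hS, hvan⟩⟩
  intro F m hF hF0 hFZ
  exact Nat.find_min' hex ⟨F, hF0, hF, hFZ⟩

end Pool.Agent.Redei3
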