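import Pool.Agent.Work.MP_e263ba_co.Fn
import Pool.Agent.Work.MP_e263ba_co.PlaneEvA

/-! JOB A: Lemma Q, NC, A0, A1 (planar Rédei). -/

set_option autoImplicit false

namespace Pool.Agent.Redei3

open Finset MvPolynomial

variable {p : ℕ} [Fact p.Prime] {K : Type*} [Field K] [Algebra (ZMod p) K]

theorem lemQ (hp5 : 5 ≤ p) (w : ZMod p → K)
    (h : ∀ i j, 1 ≤ i + j → 2 * (i + j) ≤ p - 1 →
      ∑ x : ZMod p, (algebraMap (ZMod p) K x) ^ i * w x ^ j = 0) :
    ∃ α β : K, ∀ x, w x = α * algebraMap (ZMod p) K x + β := by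
  have hp : p.Prime := Fact.out
  have hodd : p % 2 = 1 := by
    rcases hp.eq_two_or_odd with h2 | h2
    · omega
    · exact h2
  have hdeg : (pol w).natDegree ≤ p - 1 - (p - 1) / 2 := by
    apply natDegree_pol_le_of_moments w ((p - 1) / 2) (by omega)
    intro i hi
    have := h i 1 (by omega) (by omega)
    simpa using this
  rcases Nat.lt_or_ge (pol w).natDegree 2 with hd | hd
  · refine ⟨(pol w).coeff 1, (pol w).coeff 0, fun x => ?_⟩
    rw [← pol_eval w x, Polynomial.eval_eq_sum_range' hd]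
    simp [Finset.sum_range_succ]
    ring
  · exfalso
    set d := (pol w).natDegree with hdd
    set j := (p - 1) / d with hj
    set i := (p - 1) % d with hi
    have hij : d * j + i = p - 1 := Nat.div_add_mod (p - 1) d
    have hid : i < d := Nat.mod_lt _ (by omega)
    have hj2 : 2 ≤ j := by
      rw [hj, Nat.le_div_iff_mul_le (by omega)]
      omega
    have hkey : 2 * (i + j) ≤ p - 1 := by
      rw [← hij]
      rcases Nat.lt_or_ge d 3 with h3 | h3
      · have : d = 2 := by omega
        have hi0 : i = 0 := by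
          rw [hi, this]; omega
        rw [this, hi0]
        omega
      · obtain ⟨e, he⟩ : ∃ e, d = e + 3 := ⟨d - 3, by omega⟩
        obtain ⟨j', hj'⟩ : ∃ j', j = j' + 2 := ⟨j - 2, by omega⟩
        rw [he] at hid ⊢
        rw [hj']
        nlinarith [Nat.zero_le (e * j'), Nat.zero_le e, Nat.zero_le j']
    have hsum := h i j (by omega) hkey
    have hpow : pol (w ^ j) = pol w ^ j := by
      apply pol_pow
      rw [← hdd, mul_comm]
      have := hp.pos
      omega
    have hpd : (pol (w ^ j)).natDegree = j * d := by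
      rw [hpow, Polynomial.natDegree_pow]
    have hm := moment_eq_neg_lc (w ^ j) i (by rw [hpd, mul_comm]; omega)
    have h0 : pol w ≠ 0 := by
      intro h0
      rw [h0, Polynomial.natDegree_zero] at hdd
      omega
    rw [show (∑ x : ZMod p, (algebraMap (ZMod p) K x) ^ i * (w ^ j) x) = 0 from hsum, hpow,
      Polynomial.leadingCoeff_pow] at hm
    have h1 : (pol w).leadingCoeff ^ j ≠ 0 :=
      pow_ne_zero _ (Polynomial.leadingCoeff_ne_zero.mpr h0)
    exact h1 (neg_eq_zero.mp hm.symm)

theorem NC (A : Finset (Fin 3 → ZMod p)) (hnc : NonCop A) (hne : A.Nonempty)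
    (v : Fin 3 → K) (β : K) (h : ∀ a ∈ A, lin v a = β) : v = 0 := by
  have _ := hne
  funext i
  rw [Pi.zero_apply, ← Module.forall_dual_apply_eq_zero_iff (ZMod p)]
  intro f
  have h1 := hnc (fun i => f (v i)) (f β) (by
    intro a ha
    rw [← h a ha]
    unfold lin
    rw [map_sum]
    refine Finset.sum_congr rfl (fun i _ => ?_)
    rw [mul_comm (v i), ← Algebra.smul_def, map_smul, smul_eq_mul, mul_comm])
  exact congrFun h1 i

/-- if all restrictions of the `P_m` to the line through `u` and `w` vanish then `w` is a multiple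
of `u`. -/
theorem prop_of_restr_zero (hp5 : 5 ≤ p) (A : Finset (Fin 3 → ZMod p)) (hA : A.card = p)
    (hnc : NonCop A) (u : Fin 3 → ZMod p) (hu : IsPM A u) (w : Fin 3 → K)
    (h : ∀ m, 1 ≤ m → 2 * m ≤ p - 1 → restr (cst K u) w (PS K A m) = 0) :
    ∃ α : K, w = α • cst K u := by
  have hp : p.Prime := Fact.out
  have hchar : CharP K p := charP_of_injective_algebraMap (algebraMap (ZMod p) K).injective p
  obtain ⟨α, β, hαβ⟩ := lemQ hp5 (fn A u w) (by
    intro i j h1 h2
    have h3 := h (i + j) h1 h2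
    have h4 := coeff_restr_PS A (i + j) j (cst K u) w
    rw [h3, Polynomial.coeff_zero] at h4
    have hc : (((i + j).choose j : ℕ) : K) ≠ 0 := by
      rw [Ne, CharP.cast_eq_zero_iff K p]
      intro hdvd
      have h5 : (i + j).choose j ∣ (i + j).factorial := by
        rw [← Nat.choose_mul_factorial_mul_factorial (Nat.le_add_left j i), mul_assoc]
        exact Dvd.intro _ rfl
      have h6 := (hp.dvd_factorial).mp (hdvd.trans h5)
      omega
    have h5 := (mul_eq_zero.mp h4.symm).resolve_left hc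
    rw [sum_lin_eq₂ A hA u hu] at h5
    simpa using h5)
  refine ⟨α, ?_⟩
  have hne : A.Nonempty := by
    rw [← Finset.card_pos, hA]; exact hp.pos
  have h1 := NC A hnc hne (w - α • cst K u) β (by
    intro a ha
    rw [lin_sub, lin_smul]
    set x := ∑ i, u i * a i with hx
    have hax : pt A u x = a := hu.2 (pt_mem A hA u hu _) ha (pt_dot A hA u hu _)
    have h2 := hαβ x
    unfold fn at h2
    rw [hax] at h2
    rw [h2, lin_cst]
    ring)
  exact sub_eq_zero.mp h1

theorem A0 (hp5 : 5 ≤ p) (A : Finset (Fin 3 → ZMod p)) (hA : A.card = p) (hnc : NonCop A)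
    (u : Fin 3 → ZMod p) (hu : IsPM A u) : ∃ m, 1 ≤ m ∧ 2 * m ≤ p - 1 ∧ PS K A m ≠ 0 := by
  classical
  by_contra hcon
  push Not at hcon
  have hall : ∀ w : Fin 3 → K, ∃ α : K, w = α • cst K u := by
    intro w
    apply prop_of_restr_zero hp5 A hA hnc u hu w
    intro m h1 h2
    rw [hcon m h1 h2, map_zero]
  obtain ⟨k, hk⟩ := Function.ne_iff.mp (cst_ne_zero (K := K) hu.1)
  obtain ⟨l, hl⟩ : ∃ l : Fin 3, l ≠ k := exists_ne k
  obtain ⟨α, hα⟩ := hall (Pi.single l 1)
  have h1 := congrFun hα k
  have h2 := congrFun hα l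
  rw [Pi.single_eq_of_ne hl.symm, Pi.smul_apply, smul_eq_mul] at h1
  rw [Pi.single_eq_same, Pi.smul_apply, smul_eq_mul] at h2
  have h3 : α = 0 := (mul_eq_zero.mp h1.symm).resolve_right hk
  rw [h3, zero_mul] at h2
  exact one_ne_zero h2

/-- planar Rédei: on a line of the dual plane there are at most `(p-1)/2` points of `PM`. -/
theorem A1 (hp5 : 5 ≤ p) (A : Finset (Fin 3 → ZMod p)) (hA : A.card = p) (hnc : NonCop A)
    (Z : Finset (Fin 3 → K)) (hZ : Pts Z)
    (hrat : ∀ z ∈ Z, ∃ u : Fin 3 → ZMod p, IsPM A u ∧ z = cst K u)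
    (e : Fin 3 → K) (he : e ≠ 0) (hZe : ∀ z ∈ Z, ∑ i, e i * z i = 0) :
    2 * Z.card ≤ p - 1 := by
  classical
  have hp : p.Prime := Fact.out
  by_contra hcon
  push Not at hcon
  have hcard2 : 1 < Z.card := by omega
  obtain ⟨z0, hz0, z1, hz1, hne01⟩ := Finset.one_lt_card.mp hcard2
  obtain ⟨u, hu, rfl⟩ := hrat z0 hz0
  -- linear independence and span
  have hli : LinearIndependent K ![cst K u, z1] := by
    rw [LinearIndependent.pair_iff]
    intro s t hst
    have ht : t = 0 := by
      by_contra ht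
      apply hne01
      apply (hZ.2 z1 hz1 _ hz0 (-(t⁻¹ * s)) _).symm
      have : z1 = t⁻¹ • (t • z1) := by rw [smul_smul, inv_mul_cancel₀ ht, one_smul]
      rw [this, eq_neg_of_add_eq_zero_right hst, smul_neg, smul_smul, neg_smul]
    subst ht
    rw [zero_smul, add_zero] at hst
    exact ⟨(smul_eq_zero.mp hst).resolve_right (hZ.1 _ hz0), rfl⟩
  let φ : (Fin 3 → K) →ₗ[K] K := ∑ i, (e i) • LinearMap.proj i
  have hφ : ∀ x, φ x = ∑ i, e i * x i := by
    intro x; simp [φ]
  have hφ0 : φ ≠ 0 := by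
    intro h0
    obtain ⟨k, hk⟩ := Function.ne_iff.mp he
    apply hk
    have h1 := hφ (Pi.single k 1)
    rw [h0, LinearMap.zero_apply] at h1
    simpa [Pi.single_apply] using h1.symm
  have hker : Module.finrank K (LinearMap.ker φ) = 2 := by
    have h1 := LinearMap.finrank_range_add_finrank_ker φ
    have h2 : LinearMap.range φ = ⊤ := LinearMap.range_eq_top.mpr (LinearMap.surjective hφ0)
    rw [h2, finrank_top, Module.finrank_self, Module.finrank_fin_fun] at h1
    omega
  have hspan : Submodule.span K (Set.range ![cst K u, z1]) = LinearMap.ker φ := by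
    apply Submodule.eq_of_le_of_finrank_eq
    · rw [Submodule.span_le]
      rintro x ⟨i, rfl⟩
      fin_cases i
      · show φ (cst K u) = 0
        rw [hφ]; exact hZe _ hz0
      · show φ z1 = 0
        rw [hφ]; exact hZe _ hz1
    · rw [finrank_span_eq_card hli, hker]
      simp
  have hcomb : ∀ z ∈ Z, ∃ a b : K, z = a • cst K u + b • z1 := by
    intro z hz
    have h1 : z ∈ LinearMap.ker φ := by
      rw [LinearMap.mem_ker, hφ]; exact hZe z hz
    rw [← hspan] at h1
    rw [Matrix.range_cons, Matrix.range_cons, Matrix.range_empty, Set.union_empty,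
      Set.singleton_union, Submodule.mem_span_pair] at h1
    obtain ⟨a, b, hab⟩ := h1
    exact ⟨a, b, hab.symm⟩
  have hcomb' : ∀ z : Fin 3 → K, ∃ b : K, z ∈ Z → z ≠ z1 → ∃ a : K, a ≠ 0 ∧
      z = a • (cst K u + b • z1) := by
    intro z
    by_cases hz : z ∈ Z
    · obtain ⟨a, b, hab⟩ := hcomb z hz
      refine ⟨b / a, fun _ hz1' => ?_⟩
      have ha : a ≠ 0 := by
        rintro rfl
        rw [zero_smul, zero_add] at hab
        exact hz1' (hZ.2 z hz z1 hz1 b hab)
      refine ⟨a, ha, ?_⟩
      rw [hab, smul_add, smul_smul, mul_div_cancel₀ _ ha]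
    · exact ⟨0, fun h => absurd h hz⟩
  choose f hf using hcomb'
  have hinj : Set.InjOn f (Z.erase z1 : Finset (Fin 3 → K)) := by
    intro z hz z' hz' hzz
    rw [Finset.mem_coe, Finset.mem_erase] at hz hz'
    obtain ⟨a, ha, hza⟩ := hf z hz.2 hz.1
    obtain ⟨a', ha', hza'⟩ := hf z' hz'.2 hz'.1
    apply hZ.2 z hz.2 z' hz'.2 (a * a'⁻¹)
    rw [hza', smul_smul, mul_assoc, inv_mul_cancel₀ ha', mul_one, ← hzz]
    exact hza
  obtain ⟨α, hα⟩ := prop_of_restr_zero hp5 A hA hnc u hu z1 (by
    intro m hm1 hm2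
    have hcoeffm : (restr (cst K u) z1 (PS K A m)).coeff m = 0 := by
      rw [coeff_restr_PS]
      obtain ⟨u1, hu1, hzu1⟩ := hrat z1 hz1
      have h1 := PS_van (K := K) A hA u1 hu1 m (by omega)
      rw [eval_PS, ← hzu1] at h1
      simp [h1]
    have hdeg : (restr (cst K u) z1 (PS K A m)).natDegree < m := by
      have h1 : (restr (cst K u) z1 (PS K A m)).natDegree ≤ m - 1 := by
        rw [Polynomial.natDegree_le_iff_coeff_eq_zero]
        intro j hj
        rcases Nat.lt_or_ge m j with h2 | h2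
        · rw [coeff_restr_PS, Nat.choose_eq_zero_of_lt h2, Nat.cast_zero, zero_mul]
        · have : j = m := by omega
          rw [this]; exact hcoeffm
      omega
    by_contra hR0
    have hroots : ((Z.erase z1).image f).card ≤ (restr (cst K u) z1 (PS K A m)).natDegree := by
      apply Polynomial.card_le_degree_of_subset_roots
      intro y hy
      rw [Finset.mem_val, Finset.mem_image] at hy
      obtain ⟨z, hz, rfl⟩ := hy
      rw [Finset.mem_erase] at hz
      rw [Polynomial.mem_roots hR0, Polynomial.IsRoot.def, restr_PS, Polynomial.eval_finsetSum]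
      obtain ⟨a, ha, hza⟩ := hf z hz.2 hz.1
      obtain ⟨v, hv, hzv⟩ := hrat z hz.2
      have h1 := PS_van (K := K) A hA v hv m (by omega)
      rw [← hzv, hza, eval_PS] at h1
      simp only [lin_smul, mul_pow, ← Finset.mul_sum] at h1
      have h2 := (mul_eq_zero.mp h1).resolve_left (pow_ne_zero _ ha)
      rw [← h2]
      refine Finset.sum_congr rfl (fun a' _ => ?_)
      simp only [lin_add, lin_smul, Polynomial.eval_pow, Polynomial.eval_add,
        Polynomial.eval_mul, Polynomial.eval_C, Polynomial.eval_X]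
    rw [Finset.card_image_of_injOn hinj, Finset.card_erase_of_mem hz1] at hroots
    omega)
  exact hne01 ((hZ.2 z1 hz1 _ hz0 α hα).symm)

end Pool.Agent.Redei3
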