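import Pool.Agent.Work.MP_e263ba_co.Fn
import Pool.Agent.Work.MP_e263ba_co.PlaneEv
import Pool.Agent.Work.MP_e263ba_co.Rich
import Pool.Agent.Work.MP_e263ba_co.LocalSums

/-! JOB B2: from forms to sums. -/

set_option autoImplicit false

namespace Pool.Agent.Redei3

open Finset MvPolynomial

variable {p : ℕ} [Fact p.Prime] {K : Type*} [Field K] [Algebra (ZMod p) K]

/-- values of the restriction. -/
theorem restr_eval (T : MvPolynomial (Fin 3) K) (u w : Fin 3 → K) (z : K) :
    (restr u w T).eval z = eval (u + z • w) T := by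
  induction T using MvPolynomial.induction_on with
  | C a => simp [restr]
  | add P Q hP hQ => rw [map_add, Polynomial.eval_add, hP, hQ, map_add]
  | mul_X P i hP =>
    have h1 : Polynomial.eval z (restr u w (X i)) = u i + z * w i := by
      simp only [restr, aeval_X, Polynomial.eval_add, Polynomial.eval_mul, Polynomial.eval_C,
        Polynomial.eval_X]
    rw [map_mul, Polynomial.eval_mul, hP, map_mul, eval_X, h1]
    simp only [Pi.add_apply, Pi.smul_apply, smul_eq_mul]

/-- order of contact: `T(u + z w)` starts with `(w·∇T(u)) z`. -/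
theorem restr_coeff_zero (T : MvPolynomial (Fin 3) K) (u w : Fin 3 → K) :
    (restr u w T).coeff 0 = eval u T := by
  rw [Polynomial.coeff_zero_eq_eval_zero, restr_eval, zero_smul, add_zero]

theorem restr_coeff_one (T : MvPolynomial (Fin 3) K) (u w : Fin 3 → K) :
    (restr u w T).coeff 1 = ∑ j, w j * eval u (pderiv j T) := by
  induction T using MvPolynomial.induction_on with
  | C a => simp [restr]
  | add P Q hP hQ =>
    simp only [map_add, Polynomial.coeff_add, hP, hQ, mul_add, Finset.sum_add_distrib]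
  | mul_X P i hP =>
    rw [map_mul, Polynomial.mul_coeff_one, hP, restr_coeff_zero]
    have h1 : (restr u w (X i)).coeff 1 = w i := by
      simp [restr]
    have h2 : (restr u w (X i)).coeff 0 = u i := by
      simp [restr]
    rw [h1, h2]
    simp only [Derivation.leibniz, smul_eq_mul, map_add, map_mul, eval_X, mul_add,
      Finset.sum_add_distrib, pderiv_X]
    rw [Finset.sum_mul]
    congr 1
    · rw [Finset.sum_eq_single i]
      · simp; ring
      · intro b _ hb
        simp [hb.symm]
      · intro h; exact absurd (Finset.mem_univ _) h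
    · refine Finset.sum_congr rfl (fun j _ => ?_)
      ring

/-- a form without linear factor does not vanish on a line. -/
theorem lg_restr_ne_zero [Infinite K] (T : MvPolynomial (Fin 3) K) (t : ℕ)
    (hT : T.IsHomogeneous t) (hNL : NoLin T) (e φ : Fin 3 → K) (he : eval e T = 0)
    (hli : LinearIndependent K ![e, φ]) : restr e φ T ≠ 0 := by
  intro h0
  have hQ : restr φ e T = 0 := by
    have h1 : Polynomial.X * restr φ e T = 0 := by
      apply Polynomial.funext
      intro z
      rw [Polynomial.eval_mul, Polynomial.eval_X, Polynomial.eval_zero]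
      by_cases hz : z = 0
      · rw [hz, zero_mul]
      · have h2 : φ + z • e = z • (e + z⁻¹ • φ) := by
          rw [smul_add, smul_smul, mul_inv_cancel₀ hz, one_smul, add_comm]
        rw [restr_eval, h2, eval_smul_hom T t hT, ← restr_eval, h0, Polynomial.eval_zero,
          mul_zero, mul_zero]
    exact (mul_eq_zero.mp h1).resolve_left Polynomial.X_ne_zero
  obtain ⟨L, hL1, hL0, hLT⟩ := G5 T t hT e φ hli (by
    intro α β
    by_cases hβ : β = 0
    · rw [hβ, zero_smul, add_zero, eval_smul_hom T t hT, he, mul_zero]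
    · have h2 : α • e + β • φ = β • (φ + (β⁻¹ * α) • e) := by
        rw [smul_add, smul_smul, mul_inv_cancel_left₀ hβ, add_comm]
      rw [h2, eval_smul_hom T t hT, ← restr_eval, hQ, Polynomial.eval_zero, mul_zero])
  exact hNL L hL1 hL0 hLT

theorem lg_coeff_lt (P Q : Polynomial K) (n a j : ℕ) (h : Polynomial.X ^ n ∣ P) (hj : j < n * a)
    (hd : P ^ a ∣ Q) : Q.coeff j = 0 := by
  have h1 : (Polynomial.X : Polynomial K) ^ (n * a) ∣ Q := by
    rw [pow_mul]
    exact (pow_dvd_pow_of_dvd h a).trans hd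
  exact (Polynomial.X_pow_dvd_iff.mp h1) j hj

theorem lg_coeff_eq (P G : Polynomial K) (n a : ℕ) :
    ((Polynomial.X ^ n * P) ^ a * G).coeff (n * a) = P.coeff 0 ^ a * G.coeff 0 := by
  rw [mul_pow, ← pow_mul, mul_assoc, Polynomial.coeff_X_pow_mul', if_pos le_rfl, Nat.sub_self,
    Polynomial.mul_coeff_zero]
  congr 1
  simp only [Polynomial.coeff_zero_eq_eval_zero, Polynomial.eval_pow]

/-- splitting off the power of `X`. -/
theorem lg_exists_order (P : Polynomial K) (hP : P ≠ 0) :
    ∃ (n : ℕ) (P' : Polynomial K), P = Polynomial.X ^ n * P' ∧ P'.coeff 0 ≠ 0 := by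
  have h1 : (Polynomial.X : Polynomial K) ^ P.natTrailingDegree ∣ P := by
    rw [Polynomial.X_pow_dvd_iff]
    intro d hd
    exact Polynomial.coeff_eq_zero_of_lt_natTrailingDegree hd
  have h2 : P.coeff P.natTrailingDegree ≠ 0 := by
    have := Polynomial.trailingCoeff_nonzero_iff_nonzero.mpr hP
    exact this
  generalize P.natTrailingDegree = n at h1 h2
  obtain ⟨P', hP'⟩ := h1
  refine ⟨n, P', hP', ?_⟩
  rw [hP', Polynomial.coeff_X_pow_mul', if_pos le_rfl, Nat.sub_self] at h2
  exact h2

theorem lg_choose (m j : ℕ) (hm : m < p) (hj : j ≤ m) : ((m.choose j : ℕ) : K) ≠ 0 := by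
  have hprime : p.Prime := Fact.out
  have : CharP K p := charP_of_injective_algebraMap (algebraMap (ZMod p) K).injective p
  intro h
  rw [CharP.cast_eq_zero_iff K p] at h
  have h1 : ¬ p ∣ m.factorial := by
    rw [hprime.dvd_factorial]; omega
  apply h1
  rw [← Nat.choose_mul_factorial_mul_factorial hj]
  exact Dvd.dvd.mul_right (Dvd.dvd.mul_right h _) _

theorem lg_coeff_sum {ι : Type*} (s : Finset ι) (f g h : ι → K) (m j : ℕ) (hj : j ≤ m) :
    (∑ a ∈ s, (Polynomial.C (f a) + Polynomial.X * Polynomial.C (g a)) ^ m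
        * Polynomial.C (h a)).coeff j
      = (m.choose j : K) * ∑ a ∈ s, f a ^ (m - j) * g a ^ j * h a := by
  rw [Polynomial.finsetSum_coeff, Finset.mul_sum]
  refine Finset.sum_congr rfl (fun a _ => ?_)
  rw [Polynomial.coeff_mul_C, add_comm, add_pow, Polynomial.finsetSum_coeff,
    Finset.sum_eq_single j]
  · have : (Polynomial.X * Polynomial.C (g a)) ^ j * Polynomial.C (f a) ^ (m - j)
        * ((m.choose j : ℕ) : Polynomial K)
        = Polynomial.C ((g a) ^ j * (f a) ^ (m - j) * (m.choose j : K))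
          * Polynomial.X ^ j := by
      simp only [mul_pow, map_mul, map_pow, map_natCast]; ring
    rw [this, Polynomial.coeff_C_mul_X_pow, if_pos rfl]; ring
  · intro b _ hb
    have : (Polynomial.X * Polynomial.C (g a)) ^ b * Polynomial.C (f a) ^ (m - b)
        * ((m.choose b : ℕ) : Polynomial K)
        = Polynomial.C ((g a) ^ b * (f a) ^ (m - b) * (m.choose b : K))
          * Polynomial.X ^ b := by
      simp only [mul_pow, map_mul, map_pow, map_natCast]; ring
    rw [this, Polynomial.coeff_C_mul_X_pow, if_neg (Ne.symm hb)]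
  · intro h; exact absurd (Finset.mem_range.mpr (by omega)) h

/-- The local analysis at a good point `u` (tangent vector `φ`, transversal vector `ψ`). -/
theorem local_geom [Infinite K] (hp5 : 5 ≤ p) (A : Finset (Fin 3 → ZMod p)) (hA : A.card = p)
    (hnc : NonCop A) (u : Fin 3 → ZMod p) (hu : IsPM A u)
    (T : MvPolynomial (Fin 3) K) (t : ℕ) (hT : T.IsHomogeneous t) (ht1 : 1 ≤ t) (hNL : NoLin T)
    (hTu : eval (cst K u) T = 0) (φ ψ : Fin 3 → K)
    (hφ : ∑ j, φ j * eval (cst K u) (pderiv j T) = 0)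
    (hφu : LinearIndependent K ![cst K u, φ])
    (hψ : ∑ j, ψ j * eval (cst K u) (pderiv j T) ≠ 0)
    (a mS K0 δ : ℕ) (hK0 : K0 + δ = p - 1) (hδ : 1 ≤ δ) (ha : 1 ≤ a)
    (G : MvPolynomial (Fin 3) K) (hPG : PS K A mS = T ^ a * G)
    (hGu : eval (cst K u) G ≠ 0) (hmS1 : 1 ≤ mS) (hmK : mS ≤ K0)
    (hdiv : ∀ m, 1 ≤ m → m ≤ K0 → T ^ a ∣ PS K A m)
    (hdiv1 : ∀ m, 1 ≤ m → m < mS → T ^ (a + 1) ∣ PS K A m) :
    2 ≤ (pol (fn A u φ)).natDegree ∧ (pol (fn A u φ)).natDegree ≤ δ ∧
      mS + 1 ≤ (pol (fn A u φ)).natDegree + a ∧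
      p + 1 ≤ (pol (fn A u φ)).natDegree + δ + mS ∧
      (2 ≤ a → 2 * (pol (fn A u φ)).natDegree ≤ δ + 1 ∨ p ≤ 2 * (pol (fn A u φ)).natDegree) := by
  classical
  have hK0p : K0 < p := by omega
  -- coefficients of the restrictions of `P_m`
  have hcoe : ∀ (w : Fin 3 → K) (m j : ℕ), (restr (cst K u) w (PS K A m)).coeff j
      = (m.choose j : K) * ∑ x : ZMod p, (algebraMap (ZMod p) K x) ^ (m - j) * fn A u w x ^ j := by
    intro w m j
    rw [coeff_restr_PS, sum_lin_eq₂ A hA u hu]
  -- restriction of `T` along `φ`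
  obtain ⟨τ, P, hP, hP0⟩ := lg_exists_order (restr (cst K u) φ T)
    (lg_restr_ne_zero T t hT hNL (cst K u) φ hTu hφu)
  have hτ : 2 ≤ τ := by
    by_contra hcon
    have h0 : (restr (cst K u) φ T).coeff 0 = 0 := by rw [restr_coeff_zero, hTu]
    have h1 : (restr (cst K u) φ T).coeff 1 = 0 := by rw [restr_coeff_one, hφ]
    have h2 : (restr (cst K u) φ T).coeff τ = P.coeff 0 := by
      rw [hP, Polynomial.coeff_X_pow_mul', if_pos le_rfl, Nat.sub_self]
    have : τ = 0 ∨ τ = 1 := by omega
    rcases this with h | h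
    · rw [h] at h2; rw [h2] at h0; exact hP0 h0
    · rw [h] at h2; rw [h2] at h1; exact hP0 h1
  have hXφ : (Polynomial.X : Polynomial K) ^ τ ∣ restr (cst K u) φ T := ⟨P, hP⟩
  -- restriction of `T` along transversal vectors
  obtain ⟨c, hc⟩ : ∃ c, ∑ j, ψ j * eval (cst K u) (pderiv j T) = c := ⟨_, rfl⟩
  rw [hc] at hψ
  have hw : ∀ b : K, ∃ Q : Polynomial K,
      restr (cst K u) (ψ + b • φ) T = Polynomial.X ^ 1 * Q ∧ Q.coeff 0 = c := by
    intro b
    have h0 : (restr (cst K u) (ψ + b • φ) T).coeff 0 = 0 := by rw [restr_coeff_zero, hTu]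
    have h1 : (restr (cst K u) (ψ + b • φ) T).coeff 1 = c := by
      rw [restr_coeff_one]
      have : ∑ j, (ψ + b • φ) j * eval (cst K u) (pderiv j T)
          = ∑ j, ψ j * eval (cst K u) (pderiv j T)
            + b * ∑ j, φ j * eval (cst K u) (pderiv j T) := by
        rw [Finset.mul_sum, ← Finset.sum_add_distrib]
        refine Finset.sum_congr rfl (fun j _ => ?_)
        simp only [Pi.add_apply, Pi.smul_apply, smul_eq_mul]; ring
      rw [this, hφ, mul_zero, add_zero, hc]
    have h2 : (Polynomial.X : Polynomial K) ^ 1 ∣ restr (cst K u) (ψ + b • φ) T := by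
      rw [Polynomial.X_pow_dvd_iff]
      intro d hd
      have : d = 0 := by omega
      rw [this, h0]
    obtain ⟨Q, hQ⟩ := h2
    refine ⟨Q, hQ, ?_⟩
    rw [← h1, hQ, Polynomial.coeff_X_pow_mul', if_pos le_rfl, Nat.sub_self]
  obtain ⟨Qψ, hQψ, hQψ0⟩ := hw 0
  rw [zero_smul, add_zero] at hQψ
  have hXψ : (Polynomial.X : Polynomial K) ^ 1 ∣ restr (cst K u) ψ T := ⟨Qψ, hQψ⟩
  -- order `a τ` at `mS`
  have hφG : (restr (cst K u) φ (PS K A mS)).coeff (τ * a) ≠ 0 := by
    rw [hPG, map_mul, map_pow, hP, lg_coeff_eq, restr_coeff_zero]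
    exact mul_ne_zero (pow_ne_zero _ hP0) hGu
  have hψG : (restr (cst K u) ψ (PS K A mS)).coeff (1 * a) ≠ 0 := by
    rw [hPG, map_mul, map_pow, hQψ, lg_coeff_eq, restr_coeff_zero, hQψ0]
    exact mul_ne_zero (pow_ne_zero _ hψ) hGu
  rw [one_mul] at hψG
  rw [hcoe] at hφG hψG
  have hhm : τ * a ≤ mS := by
    by_contra hcon
    apply hφG
    rw [Nat.choose_eq_zero_of_lt (by omega), Nat.cast_zero, zero_mul]
  have ham : a ≤ mS := by
    by_contra hcon
    apply hψG
    rw [Nat.choose_eq_zero_of_lt (by omega), Nat.cast_zero, zero_mul]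
  have hh2 : 2 ≤ τ * a := by
    calc 2 = 2 * 1 := rfl
      _ ≤ τ * a := Nat.mul_le_mul hτ ha
  have key := localSums (fn A u φ) (fn A u ψ) a (τ * a) mS K0 δ hK0 ha hh2 hhm ham hmK
    (by
      intro α β
      by_contra hcon
      push Not at hcon
      have h1 : φ - α • cst K u = 0 := by
        refine NC A hnc ⟨_, pt_mem A hA u hu 0⟩ (φ - α • cst K u) β ?_
        intro b hb
        have h2 : b = pt A u (∑ i, u i * b i) :=
          (hu.2 (pt_mem A hA u hu _) hb (pt_dot A hA u hu _)).symm
        have h3 := hcon (∑ i, u i * b i)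
        rw [fn, ← h2] at h3
        rw [lin_sub, lin_smul, lin_cst, h3]
        ring
      rw [LinearIndependent.pair_iff] at hφu
      have h4 := hφu (-α) 1 (by
        rw [one_smul, neg_smul, neg_add_eq_sub]; exact h1)
      exact one_ne_zero h4.2)
    (by
      intro i hi
      have h1 : (restr (cst K u) φ (PS K A (i + 1))).coeff 1 = 0 := by
        apply lg_coeff_lt (restr (cst K u) φ T) _ τ a 1 hXφ (by omega)
        rw [← map_pow]
        exact map_dvd _ (hdiv (i + 1) (by omega) hi)
      rw [hcoe] at h1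
      have h2 := (mul_eq_zero.mp h1).resolve_left (lg_choose (p := p) _ _ (by omega) (by omega))
      simpa using h2)
    (by
      intro j hj
      have h1 : (restr (cst K u) ψ (PS K A (j + a))).coeff a = 0 := by
        apply lg_coeff_lt (restr (cst K u) ψ T) _ 1 (a + 1) a hXψ (by omega)
        rw [← map_pow]
        exact map_dvd _ (hdiv1 (j + a) (by omega) hj)
      rw [hcoe] at h1
      have h2 := (mul_eq_zero.mp h1).resolve_left (lg_choose (p := p) _ _ (by omega) (by omega))
      rw [Nat.add_sub_cancel] at h2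
      exact h2)
    (fun h0 => hψG (by rw [h0, mul_zero]))
    (by
      intro i hi
      obtain ⟨H, hH⟩ := hdiv1 (i + 1 + a) (by omega) hi
      have h1 : ∀ b : K, ∑ x : ZMod p, (algebraMap (ZMod p) K x) ^ i
          * (fn A u ψ x + b * fn A u φ x) ^ (a + 1) * ((i + 1 + a).choose (a + 1) : K)
          = c ^ (a + 1) * eval (cst K u) H := by
        intro b
        obtain ⟨Q, hQ, hQ0⟩ := hw b
        have h2 : (restr (cst K u) (ψ + b • φ) (PS K A (i + 1 + a))).coeff (1 * (a + 1))
            = c ^ (a + 1) * eval (cst K u) H := by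
          rw [hH, map_mul, map_pow, hQ, lg_coeff_eq, restr_coeff_zero, hQ0]
        rw [one_mul, hcoe, Finset.mul_sum] at h2
        rw [← h2]
        refine Finset.sum_congr rfl (fun x _ => ?_)
        have h3 : fn A u (ψ + b • φ) x = fn A u ψ x + b * fn A u φ x := by
          simp only [fn, lin_add, lin_smul]
        rw [h3, show i + 1 + a - (a + 1) = i by omega]
        ring
      have h4 : ∑ x : ZMod p, (Polynomial.C (fn A u ψ x) + Polynomial.X
          * Polynomial.C (fn A u φ x)) ^ (a + 1) * Polynomial.C ((algebraMap (ZMod p) K x) ^ i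
          * ((i + 1 + a).choose (a + 1) : K)) = Polynomial.C (c ^ (a + 1) * eval (cst K u) H) := by
        apply Polynomial.funext
        intro b
        rw [Polynomial.eval_finsetSum, Polynomial.eval_C, ← h1 b]
        refine Finset.sum_congr rfl (fun x _ => ?_)
        simp only [Polynomial.eval_mul, Polynomial.eval_pow, Polynomial.eval_add,
          Polynomial.eval_C, Polynomial.eval_X]
        ring
      have h5 := lg_coeff_sum (Finset.univ : Finset (ZMod p)) (fn A u ψ) (fn A u φ)
        (fun x => (algebraMap (ZMod p) K x) ^ i * ((i + 1 + a).choose (a + 1) : K)) (a + 1) 1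
        (by omega)
      rw [h4, Polynomial.coeff_C, if_neg (by omega)] at h5
      have h6 := (mul_eq_zero.mp h5.symm).resolve_left
        (lg_choose (p := p) _ _ (by omega) (by omega))
      have h7 : ∑ x : ZMod p, fn A u ψ x ^ (a + 1 - 1) * fn A u φ x ^ 1 *
          ((algebraMap (ZMod p) K x) ^ i * ((i + 1 + a).choose (a + 1) : K))
          = (∑ x : ZMod p, (algebraMap (ZMod p) K x) ^ i * fn A u φ x * fn A u ψ x ^ a)
            * ((i + 1 + a).choose (a + 1) : K) := by
        rw [Finset.sum_mul]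
        refine Finset.sum_congr rfl (fun x _ => ?_)
        rw [Nat.add_sub_cancel]; ring
      rw [h7] at h6
      exact (mul_eq_zero.mp h6).resolve_right (lg_choose (p := p) _ _ (by omega) (by omega)))
    (by
      intro j hj i hij1 hij2
      have h1 : (restr (cst K u) φ (PS K A (i + j))).coeff j = 0 := by
        apply lg_coeff_lt (restr (cst K u) φ T) _ τ a j hXφ hj
        rw [← map_pow]
        exact map_dvd _ (hdiv (i + j) hij2 hij1)
      rw [hcoe] at h1
      have h2 := (mul_eq_zero.mp h1).resolve_left (lg_choose (p := p) _ _ (by omega) (by omega))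
      rw [Nat.add_sub_cancel] at h2
      exact h2)
    (fun h0 => hφG (by rw [h0, mul_zero]))
  obtain ⟨k1, k2, k3, k4, k5⟩ := key
  refine ⟨k1, k2, k3, k4, fun h2a => k5 ?_⟩
  calc 3 ≤ 2 * 2 := by norm_num
    _ ≤ τ * a := Nat.mul_le_mul hτ h2a

end Pool.Agent.Redei3
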