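import Pool.Agent.Work.MP_e263ba_co.TightC

/-! JOB B3: the tight case `r = 2`, function level. -/

set_option autoImplicit false
set_option linter.unusedSectionVars false

namespace Pool.Agent.Redei3

open Finset Polynomial

variable {p : ℕ} [Fact p.Prime] {K : Type*} [Field K] [Algebra (ZMod p) K]

open TightAux in
theorem tight (φ ψ : ZMod p → K) (t : ℕ) (hp : p + 1 = 3 * t) (ht : 4 ≤ t)
    (hM : ∀ i j l, i + j + l < t →
      ∑ x : ZMod p, (algebraMap (ZMod p) K x) ^ i * φ x ^ j * ψ x ^ l = 0)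
    (hφ : (pol φ).natDegree = t) (hψ : (pol ψ).natDegree = 2 * t - 1) :
    ∃ l1 l2 l3 m1 m2 m3 m4 : K, l1 ≠ 0 ∧ m1 ≠ 0 ∧ ∀ j l, j + l = t →
      ∑ x : ZMod p, (l1 * φ x + l2 * algebraMap (ZMod p) K x + l3) ^ j *
        (m1 * ψ x + m2 * φ x + m3 * algebraMap (ZMod p) K x + m4) ^ l = 0 := by
  have hprime : p.Prime := Fact.out
  have : CharP K p := charP_of_injective_algebraMap (algebraMap (ZMod p) K).injective p
  obtain ⟨c0, c1, c2, c3, c4, c5, c6, hc6, hFF⟩ := exists_FF hp ht hM hφ hψ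
  obtain ⟨d0, d1, d2, d3, d4, d5, d6, κ, hFG⟩ := exists_FG hp ht hM hφ hψ
  obtain ⟨s0, hs0⟩ : ∃ s0, c5 = c6 * s0 := ⟨c5 / c6, by field_simp⟩
  have hcy : C c5 + C c6 * X = C c6 * (X + C s0) := by
    rw [hs0, C_mul]; ring
  rw [hcy] at hFF
  obtain ⟨a, q, ha, hqd, hF⟩ := cubic_solution p t hprime hp ht (pol φ) (pol ψ) (X + C s0)
    (C c3 + C c4 * X) (C c0 + C c1 * X + C c2 * X ^ 2) (C d3 + C d4 * X)
    (C d0 + C d1 * X + C d2 * X ^ 2) (C d5 + C d6 * X) c6 κ s0 hφ rfl (natDegree_lin _ _)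
    (natDegree_quad _ _ _) (natDegree_lin _ _) (natDegree_quad _ _ _) (natDegree_lin _ _)
    hFF hFG
  obtain ⟨l0, l1, e0, e1, hG⟩ := div_step t ht (pol φ) (pol ψ) (X + C s0) (C c3 + C c4 * X)
    (C c0 + C c1 * X + C c2 * X ^ 2) q a c6 s0 rfl (natDegree_lin _ _) (natDegree_quad _ _ _)
    hqd hF hFF
  obtain ⟨q1, q0, hq⟩ := exists_eq_X_add_C_of_natDegree_le_one hqd
  -- function values
  have hφx : ∀ x : ZMod p, φ x = a * yf s0 x ^ t + (q1 * algebraMap (ZMod p) K x + q0) := by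
    intro x
    have h1 := congrArg (eval (algebraMap (ZMod p) K x)) hF
    rw [pol_eval, hq] at h1
    simpa [yf] using h1
  have hψx : ∀ x : ZMod p, c6 * ψ x = a ^ 2 * yf s0 x ^ (2 * t - 1)
      + a * l0 * yf s0 x ^ (t - 1) + a * l1 * yf s0 x ^ t
      + (e0 + e1 * algebraMap (ZMod p) K x) := by
    intro x
    have h1 := congrArg (eval (algebraMap (ZMod p) K x)) hG
    rw [eval_mul, eval_C, pol_eval] at h1
    rw [h1]
    simp [yf]
  obtain ⟨P, hPdef⟩ : ∃ P : ZMod p → K, P = fun x =>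
      a⁻¹ * φ x + (-(a⁻¹ * q1)) * algebraMap (ZMod p) K x + (-(a⁻¹ * q0)) := ⟨_, rfl⟩
  obtain ⟨Q, hQdef⟩ : ∃ Q : ZMod p → K, Q = fun x =>
      (c6 / a ^ 2) * ψ x + (-(l1 / a ^ 2)) * φ x
        + ((l1 * q1 - e1) / a ^ 2) * algebraMap (ZMod p) K x + (l1 * q0 - e0) / a ^ 2 := ⟨_, rfl⟩
  have hPW : P ∈ W φ ψ 1 := by
    have h1 : P = a⁻¹ • φ + (-(a⁻¹ * q1)) • xi + (-(a⁻¹ * q0)) • (1 : ZMod p → K) := by
      rw [hPdef]; funext x; simp [xi]
    rw [h1]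
    exact Submodule.add_mem _ (Submodule.add_mem _ (Submodule.smul_mem _ _ W_phi)
      (Submodule.smul_mem _ _ W_xi)) (Submodule.smul_mem _ _ (W_one 1))
  have hQW : Q ∈ W φ ψ 1 := by
    have h1 : Q = (c6 / a ^ 2) • ψ + (-(l1 / a ^ 2)) • φ + ((l1 * q1 - e1) / a ^ 2) • xi
        + ((l1 * q0 - e0) / a ^ 2) • (1 : ZMod p → K) := by
      rw [hQdef]; funext x; simp [xi]
    rw [h1]
    exact Submodule.add_mem _ (Submodule.add_mem _ (Submodule.add_mem _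
      (Submodule.smul_mem _ _ W_psi) (Submodule.smul_mem _ _ W_phi))
      (Submodule.smul_mem _ _ W_xi)) (Submodule.smul_mem _ _ (W_one 1))
  have hPy : ∀ x, P x = yf s0 x ^ t := by
    intro x
    rw [hPdef]
    simp only
    rw [hφx x]
    field_simp
    ring
  have hQy : ∀ x, Q x = yf s0 x ^ (2 * t - 1) + (l0 / a) * yf s0 x ^ (t - 1) := by
    intro x
    rw [hQdef]
    simp only
    have h1 : (c6 / a ^ 2) * ψ x = (c6 * ψ x) / a ^ 2 := by ring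
    rw [h1, hψx x, hφx x]
    field_simp
    ring
  refine ⟨a⁻¹, -(a⁻¹ * q1), -(a⁻¹ * q0), c6 / a ^ 2, -(l1 / a ^ 2), (l1 * q1 - e1) / a ^ 2,
    (l1 * q0 - e0) / a ^ 2, inv_ne_zero ha, div_ne_zero hc6 (pow_ne_zero 2 ha), ?_⟩
  intro j l hjl
  have h1 := endgame hp ht hM hφ hψ s0 (l0 / a) P Q hPW hQW hPy hQy j l hjl
  rw [hPdef, hQdef] at h1
  exact h1

end Pool.Agent.Redei3
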