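import Pool.Agent.Work.MP_e263ba_co.Fn
import Pool.Agent.Work.MP_e263ba_co.PlaneEv
import Pool.Agent.Work.MP_e263ba_co.Tight

/-! JOB B4: the geometric form of the tight case. -/

set_option autoImplicit false

namespace Pool.Agent.Redei3

open Finset MvPolynomial

variable {p : ℕ} [Fact p.Prime] {K : Type*} [Field K] [Algebra (ZMod p) K]

/-- coefficients of a sum of powers of linear polynomials with weights. -/
theorem tg_coeff_sum {ι : Type*} (s : Finset ι) (f g h : ι → K) (m j : ℕ) (hj : j ≤ m) :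
    (∑ a ∈ s, (Polynomial.C (f a) + Polynomial.X * Polynomial.C (g a)) ^ m
        * Polynomial.C (h a)).coeff j
      = (m.choose j : K) * ∑ a ∈ s, f a ^ (m - j) * g a ^ j * h a := by
  rw [Polynomial.finsetSum_coeff, Finset.mul_sum]
  refine Finset.sum_congr rfl (fun a _ => ?_)
  rw [Polynomial.coeff_mul_C, add_comm, add_pow, Polynomial.finsetSum_coeff,
    Finset.sum_eq_single j]
  · have : (Polynomial.X * Polynomial.C (g a)) ^ j * Polynomial.C (f a) ^ (m - j)
        * ((m.choose j : ℕ) : Polynomial K)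
        = Polynomial.C ((g a) ^ j * (f a) ^ (m - j) * (m.choose j : K))
          * Polynomial.X ^ j := by
      simp only [mul_pow, map_mul, map_pow, map_natCast]; ring
    rw [this, Polynomial.coeff_C_mul_X_pow, if_pos rfl]; ring
  · intro b _ hb
    have : (Polynomial.X * Polynomial.C (g a)) ^ b * Polynomial.C (f a) ^ (m - b)
        * ((m.choose b : ℕ) : Polynomial K)
        = Polynomial.C ((g a) ^ b * (f a) ^ (m - b) * (m.choose b : K))
          * Polynomial.X ^ b := by
      simp only [mul_pow, map_mul, map_pow, map_natCast]; ring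
    rw [this, Polynomial.coeff_C_mul_X_pow, if_neg (Ne.symm hb)]
  · intro h; exact absurd (Finset.mem_range.mpr (by omega)) h

theorem tg_choose_ne_zero (m j : ℕ) (hm : m < p) (hj : j ≤ m) : ((m.choose j : ℕ) : K) ≠ 0 := by
  have hprime : p.Prime := Fact.out
  have : CharP K p := charP_of_injective_algebraMap (algebraMap (ZMod p) K).injective p
  intro h
  rw [CharP.cast_eq_zero_iff K p] at h
  have h1 : ¬ p ∣ m.factorial := by
    rw [hprime.dvd_factorial]; omega
  apply h1
  rw [← Nat.choose_mul_factorial_mul_factorial hj]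
  exact Dvd.dvd.mul_right (Dvd.dvd.mul_right h _) _

/-- vanishing of `P_m` gives the vanishing of all the mixed moments of order `m`. -/
theorem tg_mixed [Infinite K] (A : Finset (Fin 3 → ZMod p)) (m : ℕ) (hm : m < p)
    (hP : PS K A m = 0) (e φ ψ : Fin 3 → K) (i j l : ℕ) (hijl : i + j + l = m) :
    ∑ a ∈ A, lin e a ^ i * lin φ a ^ j * lin ψ a ^ l = 0 := by
  have h1 : ∀ z : K, ∑ a ∈ A, (lin e a + z * lin φ a) ^ (i + j) * lin ψ a ^ l = 0 := by
    intro z
    have h2 := coeff_restr_PS A m l (e + z • φ) ψ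
    rw [hP, map_zero, Polynomial.coeff_zero] at h2
    have h3 := (mul_eq_zero.mp h2.symm).resolve_left (tg_choose_ne_zero (p := p) m l hm (by omega))
    rw [← h3]
    refine Finset.sum_congr rfl (fun a _ => ?_)
    rw [lin_add, lin_smul]
    congr 2
    omega
  have h4 : (∑ a ∈ A, (Polynomial.C (lin e a) + Polynomial.X * Polynomial.C (lin φ a)) ^ (i + j)
        * Polynomial.C (lin ψ a ^ l)) = 0 := by
    apply Polynomial.funext
    intro z
    rw [Polynomial.eval_finsetSum, Polynomial.eval_zero, ← h1 z]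
    refine Finset.sum_congr rfl (fun a _ => ?_)
    simp only [Polynomial.eval_mul, Polynomial.eval_pow, Polynomial.eval_add, Polynomial.eval_C,
      Polynomial.eval_X]
  have h5 := tg_coeff_sum A (fun a => lin e a) (fun a => lin φ a)
    (fun a => lin ψ a ^ l) (i + j) j (by omega)
  rw [h4, Polynomial.coeff_zero] at h5
  have h6 := (mul_eq_zero.mp h5.symm).resolve_left
    (tg_choose_ne_zero (p := p) (i + j) j (by omega) (by omega))
  rw [← h6]
  refine Finset.sum_congr rfl (fun a _ => ?_)
  rw [Nat.add_sub_cancel]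

/-- the geometric form of the tight case. -/
theorem tight_geom [IsAlgClosed K] (_hp5 : 5 ≤ p) (A : Finset (Fin 3 → ZMod p)) (hA : A.card = p)
    (u : Fin 3 → ZMod p) (hu : IsPM A u) (t : ℕ) (hp : p + 1 = 3 * t) (ht : 4 ≤ t)
    (φ ψ : Fin 3 → K) (hli : LinearIndependent K ![cst K u, φ, ψ])
    (hP : ∀ m, 1 ≤ m → m < t → PS K A m = 0)
    (hφ : (pol (fn A u φ)).natDegree = t) (hψ : (pol (fn A u ψ)).natDegree = 2 * t - 1) :
    ∃ L : MvPolynomial (Fin 3) K, L.IsHomogeneous 1 ∧ L ≠ 0 ∧ L ∣ PS K A t := by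
  classical
  have : Infinite K := IsAlgClosed.instInfinite
  have hchar : CharP K p := charP_of_injective_algebraMap (algebraMap (ZMod p) K).injective p
  have hcardA : ((A.card : ℕ) : K) = 0 := by
    rw [hA]; exact CharP.cast_eq_zero K p
  obtain ⟨l1, l2, l3, m1, m2, m3, m4, hl1, hm1, hT⟩ := tight (fn A u φ) (fn A u ψ) t hp ht (by
    intro i j l hijl
    rw [← sum_lin_eq A hA u hu]
    rcases Nat.eq_zero_or_pos (i + j + l) with h0 | h0
    · have hi : i = 0 := by omega
      have hj : j = 0 := by omega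
      have hl : l = 0 := by omega
      subst hi hj hl
      simpa using hcardA
    · exact tg_mixed A (i + j + l) (by omega) (hP _ h0 hijl) _ _ _ i j l rfl) hφ hψ
  obtain ⟨v1, hv1⟩ : ∃ v1 : Fin 3 → K, v1 = l1 • φ + l2 • cst K u := ⟨_, rfl⟩
  obtain ⟨v2, hv2⟩ : ∃ v2 : Fin 3 → K, v2 = m1 • ψ + m2 • φ + m3 • cst K u := ⟨_, rfl⟩
  have hlin : LinearIndependent K ![v1, v2] := by
    rw [LinearIndependent.pair_iff]
    intro s r hsr
    rw [Fintype.linearIndependent_iff] at hli
    have h1 := hli ![s * l2 + r * m3, s * l1 + r * m2, r * m1] (by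
      rw [Fin.sum_univ_three]
      simp only [Matrix.cons_val_zero, Matrix.cons_val_one, Matrix.cons_val]
      rw [← hsr, hv1, hv2]
      module)
    have h2 := h1 2
    have h3 := h1 1
    simp only [Matrix.cons_val_one, Matrix.cons_val] at h2 h3
    have hr : r = 0 := (mul_eq_zero.mp h2).resolve_right hm1
    rw [hr, zero_mul, add_zero] at h3
    exact ⟨(mul_eq_zero.mp h3).resolve_right hl1, hr⟩
  refine G5 (PS K A t) t (PS_hom A t) v1 v2 hlin ?_
  intro β γ
  rw [eval_PS]
  -- the sum with constants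
  have hconst : ∀ c : K, ∑ a ∈ A, (lin (β • v1 + γ • v2) a + c) ^ t
      = ∑ a ∈ A, lin (β • v1 + γ • v2) a ^ t := by
    intro c
    have h1 : ∀ a ∈ A, (lin (β • v1 + γ • v2) a + c) ^ t
        = ∑ j ∈ Finset.range (t + 1), lin (β • v1 + γ • v2) a ^ j * c ^ (t - j) * (t.choose j : K) :=
      fun a _ => add_pow _ _ _
    rw [Finset.sum_congr rfl h1, Finset.sum_comm, Finset.sum_range_succ]
    have h2 : ∑ j ∈ Finset.range t, ∑ a ∈ A,
        lin (β • v1 + γ • v2) a ^ j * c ^ (t - j) * (t.choose j : K) = 0 := by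
      apply Finset.sum_eq_zero
      intro j hj
      rw [← Finset.sum_mul, ← Finset.sum_mul]
      have h3 : ∑ a ∈ A, lin (β • v1 + γ • v2) a ^ j = 0 := by
        rcases Nat.eq_zero_or_pos j with h0 | h0
        · subst h0; simpa using hcardA
        · rw [← eval_PS, hP j h0 (Finset.mem_range.mp hj), map_zero]
      rw [h3, zero_mul, zero_mul]
    rw [h2, zero_add]
    refine Finset.sum_congr rfl (fun a _ => ?_)
    simp
  rw [← hconst (β * l3 + γ * m4), sum_pt A hA u hu]
  have h5 : ∀ x : ZMod p, (lin (β • v1 + γ • v2) (pt A u x) + (β * l3 + γ * m4)) ^ t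
      = ∑ j ∈ Finset.range (t + 1), (β ^ j * γ ^ (t - j) * (t.choose j : K)) *
        ((l1 * fn A u φ x + l2 * algebraMap (ZMod p) K x + l3) ^ j *
        (m1 * fn A u ψ x + m2 * fn A u φ x + m3 * algebraMap (ZMod p) K x + m4) ^ (t - j)) := by
    intro x
    have h6 : lin (β • v1 + γ • v2) (pt A u x) + (β * l3 + γ * m4)
        = β * (l1 * fn A u φ x + l2 * algebraMap (ZMod p) K x + l3)
          + γ * (m1 * fn A u ψ x + m2 * fn A u φ x + m3 * algebraMap (ZMod p) K x + m4) := by
      rw [hv1, hv2]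
      simp only [lin_add, lin_smul, lin_cst_pt A hA u hu, fn]
      ring
    rw [h6, add_pow]
    refine Finset.sum_congr rfl (fun j _ => ?_)
    rw [mul_pow, mul_pow]; ring
  rw [Finset.sum_congr rfl (fun x _ => h5 x), Finset.sum_comm]
  apply Finset.sum_eq_zero
  intro j hj
  rw [← Finset.mul_sum, hT j (t - j) (by have := Finset.mem_range.mp hj; omega), mul_zero]

end Pool.Agent.Redei3
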