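import Pool.Agent.Work.MP_e263ba_co.Plane
import Pool.Agent.Work.MP_e263ba_co.LocalGeom
import Pool.Agent.Work.MP_e263ba_co.TightGeom
import Pool.Agent.Work.MP_e263ba_co.CoreIneq

/-! JOB G: the geometric core `GC`. -/

set_option autoImplicit false
set_option linter.unusedSectionVars false

namespace Pool.Agent.Redei3

open Finset MvPolynomial

section

variable {K : Type*} [Field K]

theorem deg_pos_of_van {Z : Finset (Fin 3 → K)} (hne : Z.Nonempty) (T : MvPolynomial (Fin 3) K)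
    (t : ℕ) (hT : T.IsHomogeneous t) (hT0 : T ≠ 0) (hvan : ∀ u ∈ Z, eval u T = 0) : 1 ≤ t := by
  by_contra hcon
  have ht : t = 0 := by omega
  subst ht
  have hC : T = C (coeff 0 T) := by
    have := (totalDegree_zero_iff_isHomogeneous (p := T)).mpr hT
    exact totalDegree_eq_zero_iff_eq_C.mp this
  obtain ⟨u, hu⟩ := hne
  have h1 := hvan u hu
  rw [hC, eval_C] at h1
  apply hT0
  rw [hC, h1, C_0]

theorem hom_dvd_le (T P : MvPolynomial (Fin 3) K) (t m n : ℕ) (hT : T.IsHomogeneous t)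
    (hT0 : T ≠ 0) (hP : P.IsHomogeneous m) (hP0 : P ≠ 0) (h : T ^ n ∣ P) : n * t ≤ m := by
  obtain ⟨Q, hQ⟩ := h
  have hQ0 : Q ≠ 0 := by rintro rfl; apply hP0; rw [hQ, mul_zero]
  have h1 : P.totalDegree = m := hP.totalDegree hP0
  have h2 : (T ^ n).totalDegree = t * n := (hT.pow n).totalDegree (pow_ne_zero _ hT0)
  rw [hQ, totalDegree_mul_of_isDomain (pow_ne_zero _ hT0) hQ0, h2] at h1
  rw [mul_comm]; omega

/-- a second tangent vector. -/
theorem exists_tangent (z n : Fin 3 → K) (hz : z ≠ 0) :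
    ∃ φ : Fin 3 → K, ∑ j, φ j * n j = 0 ∧ LinearIndependent K ![z, φ] := by
  classical
  let f : (Fin 3 → K) →ₗ[K] K := ∑ j : Fin 3, (n j) • LinearMap.proj j
  have hf : ∀ w : Fin 3 → K, f w = ∑ j, w j * n j := by
    intro w
    simp [f, mul_comm]
  have h1 := LinearMap.finrank_range_add_finrank_ker f
  have h2 : Module.finrank K (Fin 3 → K) = 3 := by simp
  have h3 : Module.finrank K (LinearMap.range f) ≤ 1 := by
    have := Submodule.finrank_le (LinearMap.range f)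
    simpa using this
  have h4 : 2 ≤ Module.finrank K (LinearMap.ker f) := by omega
  have h5 : ∃ φ ∈ LinearMap.ker f, φ ∉ Submodule.span K {z} := by
    by_contra hcon
    push Not at hcon
    have h6 : LinearMap.ker f ≤ Submodule.span K {z} := hcon
    have h7 := Submodule.finrank_mono h6
    rw [finrank_span_singleton hz] at h7
    omega
  obtain ⟨φ, hφ, hφz⟩ := h5
  refine ⟨φ, ?_, ?_⟩
  · rw [← hf]; exact hφ
  · rw [LinearIndependent.pair_iff]
    intro s t hst
    by_cases ht : t = 0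
    · subst ht
      rw [zero_smul, add_zero] at hst
      exact ⟨(smul_eq_zero.mp hst).resolve_right hz, rfl⟩
    · exfalso
      apply hφz
      rw [Submodule.mem_span_singleton]
      refine ⟨-(t⁻¹ * s), ?_⟩
      have : φ = t⁻¹ • (t • φ) := by rw [smul_smul, inv_mul_cancel₀ ht, one_smul]
      rw [this, show t • φ = -(s • z) from by
        rw [eq_neg_iff_add_eq_zero, add_comm]; exact hst]
      rw [smul_neg, smul_smul, neg_smul]

theorem linInd3 (z φ ψ n : Fin 3 → K) (hzφ : LinearIndependent K ![z, φ])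
    (hz : ∑ j, z j * n j = 0) (hφ : ∑ j, φ j * n j = 0) (hψ : ∑ j, ψ j * n j ≠ 0) :
    LinearIndependent K ![z, φ, ψ] := by
  rw [LinearIndependent.pair_iff] at hzφ
  rw [Fintype.linearIndependent_iff]
  intro g hg
  simp only [Fin.sum_univ_three, Matrix.cons_val_zero, Matrix.cons_val_one,
    Matrix.cons_val] at hg
  have h2 : g 2 = 0 := by
    have h3 : ∑ j, (g 0 • z + g 1 • φ + g 2 • ψ) j * n j = 0 := by
      rw [hg]; simp
    have h4 : ∑ j, (g 0 • z + g 1 • φ + g 2 • ψ) j * n j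
        = g 0 * (∑ j, z j * n j) + g 1 * (∑ j, φ j * n j) + g 2 * (∑ j, ψ j * n j) := by
      simp only [Pi.add_apply, Pi.smul_apply, smul_eq_mul, add_mul, Finset.sum_add_distrib,
        Finset.mul_sum, mul_assoc]
    rw [h4, hz, hφ, mul_zero, mul_zero, zero_add, zero_add] at h3
    exact (mul_eq_zero.mp h3).resolve_right hψ
  rw [h2, zero_smul, add_zero] at hg
  have h5 := hzφ (g 0) (g 1) hg
  intro i
  fin_cases i
  · exact h5.1
  · exact h5.2
  · exact h2

end

/-- Conclusions of the local analysis (over an algebraically closed field). -/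
theorem core_local {p : ℕ} [Fact p.Prime] {K : Type*} [Field K] [Algebra (ZMod p) K]
    [IsAlgClosed K] (hp5 : 5 ≤ p) (A : Finset (Fin 3 → ZMod p)) (hA : A.card = p)
    (hnc : NonCop A) (Z : Finset (Fin 3 → K)) (hZ : Pts Z) (hne : Z.Nonempty)
    (hrat : ∀ z ∈ Z, ∃ u : Fin 3 → ZMod p, IsPM A u ∧ z = cst K u)
    (c : (Fin 3 → K) → K) (hc : ∀ z ∈ Z, c z ≠ 0) (k r : ℕ) (hkr : k + r + 1 = p)
    (hr1 : 1 ≤ r) (hr2 : 2 * r + 1 ≤ p) (hcode : Code Z c k)
    (T : MvPolynomial (Fin 3) K) (t : ℕ) (hT : MinForm Z T t) :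
    2 * t + 1 ≤ p ∧ 2 ≤ t ∧ 2 ≤ r ∧ p + 7 ≤ 3 * (t + r) ∧ (t = 2 → NoLin T) ∧
      (r = 2 → p + 1 = 3 * t ∧ t < 4) := by
  classical
  have hprime : p.Prime := Fact.out
  have hodd : p % 2 = 1 := by
    rcases hprime.eq_two_or_odd with h | h
    · omega
    · exact h
  have : CharP K p := charP_of_injective_algebraMap (algebraMap (ZMod p) K).injective p
  have : Infinite K := IsAlgClosed.instInfinite
  -- a point
  obtain ⟨z0, hz0⟩ := hne
  obtain ⟨u0, hu0, hzu0⟩ := hrat z0 hz0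
  have hne : Z.Nonempty := ⟨z0, hz0⟩
  -- P_m vanishes on Z
  have hPvan : ∀ m, m < p - 1 → ∀ z ∈ Z, eval z (PS K A m) = 0 := by
    intro m hm z hz
    obtain ⟨u, hu, rfl⟩ := hrat z hz
    exact PS_van A hA u hu m hm
  obtain ⟨m0, hm01, hm02, hm03⟩ := A0 (K := K) hp5 A hA hnc u0 hu0
  have htm0 : t ≤ m0 := hT.min _ m0 (PS_hom A m0) hm03 (hPvan m0 (by omega))
  have h2t : 2 * t + 1 ≤ p := by omega
  have ht1 : 1 ≤ t := deg_pos_of_van hne T t hT.hom hT.ne hT.van
  -- Case L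
  have caseL : 2 * (t + r) ≥ p + 5 → 2 * t + 1 ≤ p ∧ 2 ≤ t ∧ 2 ≤ r ∧ p + 7 ≤ 3 * (t + r) ∧
      (t = 2 → NoLin T) ∧ (r = 2 → p + 1 = 3 * t ∧ t < 4) := by
    intro h
    refine ⟨h2t, by omega, by omega, by omega, ?_, ?_⟩
    · intro h2; omega
    · intro h2; omega
  by_cases hNL : NoLin T
  swap
  · -- a linear factor
    apply caseL
    unfold NoLin at hNL
    push Not at hNL
    obtain ⟨L, hL1, hL0, hLT⟩ := hNL
    have h1 := G4 hZ hne hc hcode hT L hL1 hLT (by omega)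
    obtain ⟨e, heL, he0⟩ := eq_linForm L hL1
    have h2 := A1 hp5 A hA hnc (Z.filter (fun u => eval u L = 0))
      ⟨fun u hu => hZ.1 u (Finset.mem_filter.mp hu).1,
        fun u hu v hv => hZ.2 u (Finset.mem_filter.mp hu).1 v (Finset.mem_filter.mp hv).1⟩
      (fun z hz => hrat z (Finset.mem_filter.mp hz).1) e (he0 hL0) (by
        intro z hz
        have h3 := (Finset.mem_filter.mp hz).2
        rw [heL] at h3
        simpa [linForm] using h3)
    omega
  -- t ≥ 2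
  have ht2 : 2 ≤ t := by
    by_contra hcon
    have ht : t = 1 := by omega
    exact hNL T (ht ▸ hT.hom) hT.ne dvd_rfl
  -- K0
  obtain ⟨K0, hK0⟩ : ∃ K0, K0 = k + 2 - t := ⟨_, rfl⟩
  rcases Nat.lt_or_ge (2 * K0) (p - 1) with hK0s | hK0l
  · apply caseL; omega
  have hK0p : K0 ≤ p - 2 := by omega
  have hdivT : ∀ m, 1 ≤ m → m ≤ K0 → T ∣ PS K A m := by
    intro m hm1 hmK
    exact G1 hZ hne hc hcode hT (PS K A m) m (PS_hom A m) (hPvan m (by omega)) (by omega)
  -- the exponent `a`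
  have hex : ∃ n, ∃ m, 1 ≤ m ∧ m ≤ K0 ∧ ¬ T ^ n ∣ PS K A m := by
    refine ⟨m0 + 1, m0, hm01, by omega, ?_⟩
    intro hdvd
    have := hom_dvd_le T (PS K A m0) t m0 (m0 + 1) hT.hom hT.ne (PS_hom A m0) hm03 hdvd
    nlinarith
  obtain ⟨n, hn, hnmin⟩ : ∃ n, (∃ m, 1 ≤ m ∧ m ≤ K0 ∧ ¬ T ^ n ∣ PS K A m) ∧
      ∀ n' < n, ∀ m, 1 ≤ m → m ≤ K0 → T ^ n' ∣ PS K A m := by
    refine ⟨Nat.find hex, Nat.find_spec hex, ?_⟩
    intro n' hn' m hm1 hmK
    have := Nat.find_min hex hn'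
    push Not at this
    exact this m hm1 hmK
  have hn2 : 2 ≤ n := by
    by_contra hcon
    obtain ⟨m, hm1, hmK, hmn⟩ := hn
    have : n = 0 ∨ n = 1 := by omega
    rcases this with h | h
    · subst h; apply hmn; rw [pow_zero]; exact one_dvd _
    · subst h; apply hmn; rw [pow_one]; exact hdivT m hm1 hmK
  obtain ⟨a, rfl⟩ : ∃ a, n = a + 1 := ⟨n - 1, by omega⟩
  have ha1 : 1 ≤ a := by omega
  have hdiv : ∀ m, 1 ≤ m → m ≤ K0 → T ^ a ∣ PS K A m := fun m h1 h2 => hnmin a (by omega) m h1 h2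
  -- m*
  obtain ⟨mS, ⟨hmS1, hmSK, hmSn⟩, hmSmin⟩ : ∃ mS, (1 ≤ mS ∧ mS ≤ K0 ∧ ¬ T ^ (a + 1) ∣ PS K A mS) ∧
      ∀ m, 1 ≤ m → m < mS → T ^ (a + 1) ∣ PS K A m := by
    refine ⟨Nat.find hn, Nat.find_spec hn, ?_⟩
    intro m hm1 hm
    by_contra hcon
    have h1 := Nat.find_spec hn
    exact Nat.find_min hn hm ⟨hm1, by omega, hcon⟩
  have hPm0 : PS K A mS ≠ 0 := by
    intro h; apply hmSn; rw [h]; exact dvd_zero _
  obtain ⟨G, hG⟩ := hdiv mS hmS1 hmSK
  have hTG : ¬ T ∣ G := by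
    intro h
    apply hmSn
    rw [hG, pow_succ]
    exact mul_dvd_mul_left _ h
  have hG0 : G ≠ 0 := by rintro rfl; exact hTG (dvd_zero _)
  have hTa0 : T ^ a ≠ 0 := pow_ne_zero _ hT.ne
  obtain ⟨a', g, ha', hGg, hag⟩ := hom_of_mul (T ^ a) G mS (by rw [← hG]; exact PS_hom A mS)
    (by rw [← hG]; exact hPm0)
  have ha't : a' = t * a := ha'.inj_right (hT.hom.pow a) hTa0
  have hag : t * a + g = mS := by rw [← ha't]; exact hag
  have hta : t ≤ t * a := Nat.le_mul_of_pos_right t (by omega)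
  -- good point
  obtain ⟨z, hz, ⟨j0, hj0⟩, hGz⟩ := exists_good_point (q := p) hZ hne hc hcode hT (by omega) G g hGg
    (by omega) hTG
  obtain ⟨u, hu, hzu⟩ := hrat z hz
  subst hzu
  have hz0' : cst K u ≠ 0 := hZ.1 _ hz
  have hTz : eval (cst K u) T = 0 := hT.van _ hz
  -- Euler
  have heuler : ∑ j, cst K u j * eval (cst K u) (pderiv j T) = 0 := by
    have h1 := hT.hom.sum_X_mul_pderiv
    have h2 := congrArg (eval (cst K u)) h1
    rw [map_sum, map_nsmul, hTz, smul_zero] at h2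
    simpa using h2
  obtain ⟨φ, hφn, hφli⟩ := exists_tangent (cst K u) (fun j => eval (cst K u) (pderiv j T)) hz0'
  obtain ⟨ψ, hψn⟩ : ∃ ψ : Fin 3 → K, ∑ j, ψ j * eval (cst K u) (pderiv j T) ≠ 0 := by
    refine ⟨Pi.single j0 1, ?_⟩
    rw [Finset.sum_eq_single j0]
    · simpa using hj0
    · intro b _ hb; simp [hb]
    · intro h; exact absurd (Finset.mem_univ _) h
  obtain ⟨δ, hδ⟩ : ∃ δ, K0 + δ = p - 1 := ⟨p - 1 - K0, by omega⟩
  obtain ⟨hd2, hdδ, hdm, hdp, hda⟩ := local_geom hp5 A hA hnc u hu T t hT.hom ht1 hNL hTz φ ψ hφn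
    hφli hψn a mS K0 δ hδ (by omega) ha1 G hG hGz hmS1 hmSK hdiv hmSmin
  obtain ⟨d, hd⟩ : ∃ d, (pol (fn A u φ)).natDegree = d := ⟨_, rfl⟩
  rw [hd] at hd2 hdδ hdm hdp hda
  have hδ' : δ + 2 = t + r := by omega
  -- a t ≤ mS ≤ d + a - 1 ≤ δ + a - 1
  have hat : t * a + 1 ≤ δ + a := by omega
  have hr2' : 2 ≤ r := by
    obtain ⟨a1, rfl⟩ : ∃ a1, a = a1 + 1 := ⟨a - 1, by omega⟩
    obtain ⟨t1, rfl⟩ : ∃ t1, t = t1 + 1 := ⟨t - 1, by omega⟩
    nlinarith [Nat.zero_le (a1 * t1)]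
  have haδ : a + 1 ≤ δ := by
    obtain ⟨a1, rfl⟩ : ∃ a1, a = a1 + 1 := ⟨a - 1, by omega⟩
    obtain ⟨t1, rfl⟩ : ∃ t1, t = t1 + 2 := ⟨t - 2, by omega⟩
    nlinarith [Nat.zero_le (a1 * t1)]
  have h3δ : p + 1 ≤ 3 * δ := by
    rcases Nat.lt_or_ge a 2 with ha2 | ha2
    · have : a = 1 := by omega
      subst this
      omega
    · rcases hda ha2 with h | h
      · omega
      · omega
  refine ⟨h2t, ht2, hr2', by omega, fun _ => hNL, ?_⟩
  -- r = 2
  intro hr
  subst hr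
  have hδt : δ = t := by omega
  subst hδt
  have haeq : a = 1 := by
    by_contra hcon
    obtain ⟨a1, rfl⟩ : ∃ a1, a = a1 + 2 := ⟨a - 2, by omega⟩
    nlinarith [Nat.zero_le (a1 * δ)]
  subst haeq
  have hmt : mS = δ := by omega
  have hdt : d = δ := by omega
  have hg0 : g = 0 := by omega
  subst hmt
  rw [hdt] at hd
  -- P_m = 0 for m < t
  have hP0 : ∀ m, 1 ≤ m → m < mS → PS K A m = 0 := by
    intro m hm1 hm
    by_contra hcon
    have := hom_dvd_le T (PS K A m) mS m 1 hT.hom hT.ne (PS_hom A m) hcon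
      (by rw [pow_one]; exact hdivT m hm1 (by omega))
    omega
  have hchoose : ∀ m j, m < p → j ≤ m → ((m.choose j : ℕ) : K) ≠ 0 := by
    intro m j hm hj h
    rw [CharP.cast_eq_zero_iff K p] at h
    have h1 : ¬ p ∣ m.factorial := by
      rw [hprime.dvd_factorial]; omega
    apply h1
    rw [← Nat.choose_mul_factorial_mul_factorial hj]
    exact Dvd.dvd.mul_right (Dvd.dvd.mul_right h _) _
  have hsum0 : ∀ m j w, 1 ≤ m → m < mS → j ≤ m →
      ∑ x : ZMod p, (algebraMap (ZMod p) K x) ^ (m - j) * fn A u w x ^ j = 0 := by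
    intro m j w hm1 hm hj
    have h1 := coeff_restr_PS A m j (cst K u) w
    rw [hP0 m hm1 hm, map_zero, Polynomial.coeff_zero, sum_lin_eq₂ A hA u hu] at h1
    exact (mul_eq_zero.mp h1.symm).resolve_left (hchoose m j (by omega) hj)
  -- 3 t ≤ p + 1
  have h3t : 3 * mS ≤ p + 1 := by
    by_contra hcon
    have h1 := hsum0 (p + 1 - 2 * mS) 2 φ (by omega) (by omega) (by omega)
    have h2 : pol (fn A u φ ^ 2) = pol (fn A u φ) ^ 2 := pol_pow _ 2 (by rw [hd]; omega)
    have h3 : (pol (fn A u φ ^ 2)).natDegree = 2 * mS := by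
      rw [h2, Polynomial.natDegree_pow, hd]
    have h4 := moment_eq_neg_lc (fn A u φ ^ 2) (p + 1 - 2 * mS - 2) (by rw [h3]; omega)
    have h5 : (pol (fn A u φ ^ 2)).leadingCoeff = 0 := by
      rw [← neg_eq_zero, ← h4]
      simpa using h1
    rw [Polynomial.leadingCoeff_eq_zero] at h5
    rw [h5, Polynomial.natDegree_zero] at h3
    omega
  have hp3t : p + 1 = 3 * mS := by omega
  refine ⟨hp3t, ?_⟩
  by_contra ht4
  have ht4 : 4 ≤ mS := by omega
  -- deg ψ = 2t - 1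
  have hψle : (pol (fn A u ψ)).natDegree ≤ 2 * mS - 1 := by
    have h1 := natDegree_pol_le_of_moments (fn A u ψ) (mS - 1) (by omega) (by
      intro i hi
      have h2 := hsum0 (i + 1) 1 ψ (by omega) (by omega) (by omega)
      simpa using h2)
    omega
  have hψne : ∑ x : ZMod p, (algebraMap (ZMod p) K x) ^ (mS - 1) * fn A u ψ x ≠ 0 := by
    intro h0
    have h1 := coeff_restr_PS A mS 1 (cst K u) ψ
    rw [sum_lin_eq₂ A hA u hu] at h1
    simp only [pow_one] at h1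
    rw [h0, mul_zero, hG, pow_one, map_mul, Polynomial.mul_coeff_one] at h1
    rw [restr_coeff_zero, hTz, zero_mul, zero_add] at h1
    have h2 : (restr (cst K u) ψ T).coeff 1 * (restr (cst K u) ψ G).coeff 0 = 0 := h1
    rw [restr_coeff_one, restr_coeff_zero] at h2
    rcases mul_eq_zero.mp h2 with h3 | h3
    · exact hψn h3
    · exact hGz h3
  have hψdeg : (pol (fn A u ψ)).natDegree = 2 * mS - 1 := by
    by_contra hcon
    apply hψne
    apply moment_eq_zero
    omega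
  have hli := linInd3 (cst K u) φ ψ (fun j => eval (cst K u) (pderiv j T)) hφli heuler hφn hψn
  obtain ⟨L, hL1, hL0, hLP⟩ := tight_geom hp5 A hA u hu mS hp3t ht4 φ ψ hli hP0 hd hψdeg
  -- L | T
  have hGC : G = C (coeff 0 G) := by
    have := (totalDegree_zero_iff_isHomogeneous (p := G)).mpr (hg0 ▸ hGg)
    exact totalDegree_eq_zero_iff_eq_C.mp this
  have hGc0 : coeff 0 G ≠ 0 := by
    intro h; apply hG0; rw [hGC, h, C_0]
  apply hNL L hL1 hL0
  rw [hG, pow_one] at hLP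
  have hunit : IsUnit G := by
    rw [hGC]; exact (IsUnit.mk0 _ hGc0).map C
  exact (hunit.dvd_mul_right).mp hLP

/-- transport of codes from `F_p` to `K`. -/
theorem code_transfer {p : ℕ} [Fact p.Prime] {K : Type*} [Field K] [Algebra (ZMod p) K]
    (Z : Finset (Fin 3 → ZMod p)) (c : (Fin 3 → ZMod p) → ZMod p) (k : ℕ) (h : Code Z c k)
    (F : MvPolynomial (Fin 3) K) (hF : F.IsHomogeneous k) :
    ∑ u ∈ Z, algebraMap (ZMod p) K (c u) * eval (cst K u) F = 0 := by
  have h1 : ∀ u : Fin 3 → ZMod p, eval (cst K u) F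
      = ∑ d ∈ F.support, F.coeff d * algebraMap (ZMod p) K (eval u (monomial d (1 : ZMod p))) := by
    intro u
    rw [eval_eq']
    refine Finset.sum_congr rfl (fun d _ => ?_)
    congr 1
    rw [eval_monomial, one_mul, Finsupp.prod_fintype _ _ (fun i => pow_zero _), map_prod]
    refine Finset.prod_congr rfl (fun i _ => ?_)
    rw [map_pow]; rfl
  simp only [h1, Finset.mul_sum]
  rw [Finset.sum_comm]
  apply Finset.sum_eq_zero
  intro d hd
  have hdk : d.degree = k := by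
    by_contra hcon
    exact (mem_support_iff.mp hd) (hF.coeff_eq_zero hcon)
  have h2 := h (monomial d 1) (isHomogeneous_monomial 1 hdk)
  have h3 := congrArg (algebraMap (ZMod p) K) h2
  rw [map_sum, map_zero] at h3
  calc ∑ u ∈ Z, algebraMap (ZMod p) K (c u) *
        (F.coeff d * algebraMap (ZMod p) K (eval u (monomial d (1 : ZMod p))))
      = F.coeff d * ∑ u ∈ Z, algebraMap (ZMod p) K (c u * eval u (monomial d (1 : ZMod p))) := by
        rw [Finset.mul_sum]
        refine Finset.sum_congr rfl (fun u _ => ?_)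
        rw [map_mul]; ring
    _ = 0 := by rw [h3, mul_zero]

theorem GC {p : ℕ} [Fact p.Prime] (hp5 : 5 ≤ p) (A : Finset (Fin 3 → ZMod p))
    (hA : A.card = p) (hnc : NonCop A) (Z : Finset (Fin 3 → ZMod p)) (hZ : Pts Z)
    (hne : Z.Nonempty) (hPM : ∀ u ∈ Z, IsPM A u) (c : (Fin 3 → ZMod p) → ZMod p)
    (hc : ∀ u ∈ Z, c u ≠ 0) (r : ℕ) (hr1 : 1 ≤ r) (hr2 : 2 * r ≤ p - 1)
    (hcode : Code Z c (p - 1 - r)) : 2 ≤ r ∧ p * (p - 1) < 2 * r * Z.card := by
  classical
  have hprime : p.Prime := Fact.out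
  have hodd : p % 2 = 1 := by
    rcases hprime.eq_two_or_odd with h | h
    · omega
    · exact h
  let K := AlgebraicClosure (ZMod p)
  have hcinj : Function.Injective (cst (p := p) K) := cst_injective
  let ZK : Finset (Fin 3 → K) := Z.image (cst K)
  have hcard : ZK.card = Z.card := Finset.card_image_of_injective _ hcinj
  have hZK : Pts ZK := by
    constructor
    · intro z hz
      obtain ⟨u, hu, rfl⟩ := Finset.mem_image.mp hz
      exact cst_ne_zero (hZ.1 u hu)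
    · intro z hz w hw c' hc'
      obtain ⟨u, hu, rfl⟩ := Finset.mem_image.mp hz
      obtain ⟨v, hv, rfl⟩ := Finset.mem_image.mp hw
      rw [cst_nonprop (hZ.1 u hu) (hZ.2 u hu v hv) c' hc']
  have hneK : ZK.Nonempty := hne.image _
  have hrat : ∀ z ∈ ZK, ∃ u : Fin 3 → ZMod p, IsPM A u ∧ z = cst K u := by
    intro z hz
    obtain ⟨u, hu, rfl⟩ := Finset.mem_image.mp hz
    exact ⟨u, hPM u hu, rfl⟩
  let cK : (Fin 3 → K) → K := fun z => algebraMap (ZMod p) K (c (Function.invFun (cst K) z))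
  have hcK : ∀ u, cK (cst K u) = algebraMap (ZMod p) K (c u) := by
    intro u
    have := Function.leftInverse_invFun hcinj u
    simp only [cK, this]
  have hcK0 : ∀ z ∈ ZK, cK z ≠ 0 := by
    intro z hz
    obtain ⟨u, hu, rfl⟩ := Finset.mem_image.mp hz
    rw [hcK]
    intro h
    apply hc u hu
    exact (algebraMap (ZMod p) K).injective (by rw [h, map_zero])
  have hcodeK : Code ZK cK (p - 1 - r) := by
    intro F hF
    have h1 := code_transfer (K := K) Z c _ hcode F hF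
    rw [Finset.sum_image (fun a _ b _ h => hcinj h)]
    rw [← h1]
    exact Finset.sum_congr rfl (fun u _ => by rw [hcK])
  -- a form vanishing on ZK
  obtain ⟨u0, hu0⟩ := hne
  obtain ⟨m0, hm01, hm02, hm03⟩ := A0 (K := K) hp5 A hA hnc u0 (hPM u0 hu0)
  obtain ⟨T, t, hT, htm⟩ := exists_minForm ZK (PS K A m0) m0 (PS_hom A m0) hm03 (by
    intro z hz
    obtain ⟨u, hu, rfl⟩ := Finset.mem_image.mp hz
    exact PS_van A hA u (hPM u hu) m0 (by omega))
  obtain ⟨g1, g2, g3, g4, g5, g6⟩ := core_local hp5 A hA hnc ZK hZK hneK hrat cK hcK0 (p - 1 - r) r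
    (by omega) hr1 (by omega) hcodeK T t hT
  refine ⟨g3, ?_⟩
  rw [← hcard]
  apply count_ineq p (p - 1 - r) r t ZK.card (by omega) hp5 hodd g1 g2 g3 (by omega) g4 g6
  · intro h
    exact G2 hZK hneK hcK0 hcodeK hT h
  · intro h
    exact G3 hZK hneK hcK0 hcodeK hT h
  · intro h
    have : Infinite K := IsAlgClosed.instInfinite
    exact conic_card ZK hZK (fun z hz => (hrat z hz).imp (fun u hu => hu.2)) T (h ▸ hT.hom)
      hT.van (g5 h)

end Pool.Agent.Redei3
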