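import Mathlib

/-!
Shared definitions for the proof of Rédei's conjecture for `F_p^3` (`MP_e263ba_co`, `S12023`).
-/

set_option autoImplicit false

namespace Pool.Agent.Redei3

open MvPolynomial

/-! ## Plane side (any field `K`) -/

section Plane

variable {K : Type*} [Field K]

/-- `Z` is a finite set of pairwise nonproportional nonzero vectors of `K^3`
(so a finite set of points of the projective plane). -/
def Pts (Z : Finset (Fin 3 → K)) : Prop :=
  (∀ u ∈ Z, u ≠ 0) ∧ ∀ u ∈ Z, ∀ v ∈ Z, ∀ c : K, u = c • v → u = v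

/-- `c` is a code word of degree `k` on `Z`: it is orthogonal to all forms of degree `k`. -/
def Code (Z : Finset (Fin 3 → K)) (c : (Fin 3 → K) → K) (k : ℕ) : Prop :=
  ∀ F : MvPolynomial (Fin 3) K, F.IsHomogeneous k → ∑ u ∈ Z, c u * eval u F = 0

/-- `T` is a nonzero form of degree `t`, vanishing on `Z`, of minimal degree. -/
structure MinForm (Z : Finset (Fin 3 → K)) (T : MvPolynomial (Fin 3) K) (t : ℕ) : Prop where
  hom : T.IsHomogeneous t
  ne : T ≠ 0
  van : ∀ u ∈ Z, eval u T = 0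
  min : ∀ (S : MvPolynomial (Fin 3) K) (s : ℕ), S.IsHomogeneous s → S ≠ 0 →
    (∀ u ∈ Z, eval u S = 0) → t ≤ s

/-- `T` has no linear factor. -/
def NoLin (T : MvPolynomial (Fin 3) K) : Prop :=
  ∀ L : MvPolynomial (Fin 3) K, L.IsHomogeneous 1 → L ≠ 0 → ¬ L ∣ T

/-- the linear form with coefficient vector `e`. -/
noncomputable def linForm (e : Fin 3 → K) : MvPolynomial (Fin 3) K := ∑ i, C (e i) * X i

/-- restriction of a polynomial in three variables to the line `z ↦ u + z w`,
as a polynomial in `z`. -/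
noncomputable def restr (u w : Fin 3 → K) : MvPolynomial (Fin 3) K →ₐ[K] Polynomial K :=
  aeval (fun i => Polynomial.C (u i) + Polynomial.X * Polynomial.C (w i))

end Plane

/-! ## The `A`-side -/

section Aside

variable {p : ℕ}

/-- `a ↦ u·a` is injective on `A` and `u ≠ 0`. -/
def IsPM (A : Finset (Fin 3 → ZMod p)) (u : Fin 3 → ZMod p) : Prop :=
  u ≠ 0 ∧ Set.InjOn (fun a : Fin 3 → ZMod p => ∑ i, u i * a i) (A : Set (Fin 3 → ZMod p))

/-- `A` is contained in no affine plane of `F_p^3`. -/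
def NonCop (A : Finset (Fin 3 → ZMod p)) : Prop :=
  ∀ (v : Fin 3 → ZMod p) (β : ZMod p), (∀ a ∈ A, ∑ i, v i * a i = β) → v = 0

variable (K : Type*) [Field K] [Algebra (ZMod p) K]

/-- a vector of `F_p^3` seen in `K^3`. -/
def cst (u : Fin 3 → ZMod p) : Fin 3 → K := fun i => algebraMap (ZMod p) K (u i)

variable {K}

/-- value of the functional `w ∈ K^3` at `a ∈ F_p^3`. -/
def lin (w : Fin 3 → K) (a : Fin 3 → ZMod p) : K := ∑ i, w i * algebraMap (ZMod p) K (a i)

variable (K)

/-- the form `P_m(U) = ∑_{a ∈ A} (U·a)^m`. -/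
noncomputable def PS (A : Finset (Fin 3 → ZMod p)) (m : ℕ) : MvPolynomial (Fin 3) K :=
  ∑ a ∈ A, (∑ i, C (algebraMap (ZMod p) K (a i)) * X i) ^ m

variable {K}

end Aside

end Pool.Agent.Redei3
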