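import Pool.Agent.Work.MP_e263ba_co.FunDeg

/-!
The bridge between sums over `A` and sums over `F_p` (along a coordinate `u ∈ PM`),
and the forms `P_m`.
-/

set_option autoImplicit false
set_option linter.unusedSectionVars false

namespace Pool.Agent.Redei3

open Finset MvPolynomial

variable {p : ℕ} [Fact p.Prime] {K : Type*} [Field K] [Algebra (ZMod p) K]

theorem lin_add (v w : Fin 3 → K) (a : Fin 3 → ZMod p) : lin (v + w) a = lin v a + lin w a := by
  simp [lin, add_mul, Finset.sum_add_distrib]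

theorem lin_smul (c : K) (w : Fin 3 → K) (a : Fin 3 → ZMod p) : lin (c • w) a = c * lin w a := by
  simp [lin, mul_assoc, Finset.mul_sum]

theorem lin_sub (v w : Fin 3 → K) (a : Fin 3 → ZMod p) : lin (v - w) a = lin v a - lin w a := by
  simp [lin, sub_mul, Finset.sum_sub_distrib]

theorem lin_zero (a : Fin 3 → ZMod p) : lin (0 : Fin 3 → K) a = 0 := by
  simp [lin]

theorem lin_cst (u a : Fin 3 → ZMod p) :
    lin (cst K u) a = algebraMap (ZMod p) K (∑ i, u i * a i) := by
  simp [lin, cst, map_sum, map_mul]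

theorem cst_injective : Function.Injective (cst (p := p) K) := by
  intro u v h
  funext i
  exact (algebraMap (ZMod p) K).injective (congrFun h i)

theorem cst_ne_zero {u : Fin 3 → ZMod p} (hu : u ≠ 0) : cst K u ≠ 0 := by
  intro h
  apply hu
  apply cst_injective (K := K)
  rw [h]; funext i; simp [cst]

theorem cst_smul (c : ZMod p) (u : Fin 3 → ZMod p) :
    cst K (c • u) = algebraMap (ZMod p) K c • cst K u := by
  funext i; simp [cst]

theorem eval_PS (A : Finset (Fin 3 → ZMod p)) (m : ℕ) (w : Fin 3 → K) :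
    eval w (PS K A m) = ∑ a ∈ A, (lin w a) ^ m := by
  simp only [PS, map_sum, map_pow, map_mul, eval_C, eval_X, lin]
  refine Finset.sum_congr rfl (fun a _ => ?_)
  congr 1
  exact Finset.sum_congr rfl (fun i _ => mul_comm _ _)

theorem PS_hom (A : Finset (Fin 3 → ZMod p)) (m : ℕ) : (PS K A m).IsHomogeneous m := by
  unfold PS
  apply MvPolynomial.IsHomogeneous.sum
  intro a _
  have h : (∑ i : Fin 3, C (algebraMap (ZMod p) K (a i)) * X i :
      MvPolynomial (Fin 3) K).IsHomogeneous 1 := by
    apply MvPolynomial.IsHomogeneous.sum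
    intro i _
    have := (MvPolynomial.isHomogeneous_C (Fin 3) (algebraMap (ZMod p) K (a i))).mul
      (MvPolynomial.isHomogeneous_X K i)
    simpa using this
  simpa using h.pow m

/-- restriction of `P_m` to the line `z ↦ u + z w`. -/
theorem restr_PS (A : Finset (Fin 3 → ZMod p)) (m : ℕ) (u w : Fin 3 → K) :
    restr u w (PS K A m)
      = ∑ a ∈ A, (Polynomial.C (lin u a) + Polynomial.X * Polynomial.C (lin w a)) ^ m := by
  simp only [PS, map_sum, map_pow, map_mul, restr, aeval_X, algHom_C]
  refine Finset.sum_congr rfl (fun a _ => ?_)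
  congr 1
  simp only [lin, map_sum, map_mul, Finset.mul_sum, ← Finset.sum_add_distrib]
  refine Finset.sum_congr rfl (fun i _ => ?_)
  have : algebraMap K (Polynomial K) (algebraMap (ZMod p) K (a i))
      = Polynomial.C (algebraMap (ZMod p) K (a i)) := rfl
  rw [this]
  ring

theorem coeff_restr_PS (A : Finset (Fin 3 → ZMod p)) (m j : ℕ) (u w : Fin 3 → K) :
    (restr u w (PS K A m)).coeff j
      = (m.choose j : K) * ∑ a ∈ A, (lin u a) ^ (m - j) * (lin w a) ^ j := by
  rw [restr_PS, Polynomial.finsetSum_coeff, Finset.mul_sum]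
  refine Finset.sum_congr rfl (fun a _ => ?_)
  by_cases hj : j ≤ m
  · rw [add_comm, add_pow, Polynomial.finsetSum_coeff, Finset.sum_eq_single j]
    · have : (Polynomial.X * Polynomial.C (lin w a)) ^ j * Polynomial.C (lin u a) ^ (m - j)
          * ((m.choose j : ℕ) : Polynomial K)
          = Polynomial.C ((lin w a) ^ j * (lin u a) ^ (m - j) * (m.choose j : K))
            * Polynomial.X ^ j := by
        simp only [mul_pow, map_mul, map_pow, map_natCast]; ring
      rw [this, Polynomial.coeff_C_mul_X_pow, if_pos rfl]; ring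
    · intro b _ hb
      have : (Polynomial.X * Polynomial.C (lin w a)) ^ b * Polynomial.C (lin u a) ^ (m - b)
          * ((m.choose b : ℕ) : Polynomial K)
          = Polynomial.C ((lin w a) ^ b * (lin u a) ^ (m - b) * (m.choose b : K))
            * Polynomial.X ^ b := by
        simp only [mul_pow, map_mul, map_pow, map_natCast]; ring
      rw [this, Polynomial.coeff_C_mul_X_pow, if_neg (Ne.symm hb)]
    · intro h; exact absurd (Finset.mem_range.mpr (by omega)) h
  · rw [Nat.choose_eq_zero_of_lt (by omega)]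
    simp only [Nat.cast_zero, zero_mul]
    apply Polynomial.coeff_eq_zero_of_natDegree_lt
    refine lt_of_le_of_lt (Polynomial.natDegree_pow_le) ?_
    have h1 : (Polynomial.C (lin u a) + Polynomial.X * Polynomial.C (lin w a)).natDegree ≤ 1 := by
      refine (Polynomial.natDegree_add_le _ _).trans ?_
      simp only [Polynomial.natDegree_C, zero_le, sup_of_le_right]
      exact (Polynomial.natDegree_mul_le).trans (by simp)
    calc m * _ ≤ m * 1 := Nat.mul_le_mul_left _ h1
      _ < j := by omega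

/-- the inverse of the bijection `a ↦ u·a`, `A → F_p`. -/
noncomputable def pt (A : Finset (Fin 3 → ZMod p)) (u : Fin 3 → ZMod p) (x : ZMod p) :
    Fin 3 → ZMod p :=
  if h : ∃ a ∈ A, ∑ i, u i * a i = x then h.choose else 0

theorem exists_pt (A : Finset (Fin 3 → ZMod p)) (hA : A.card = p) (u : Fin 3 → ZMod p)
    (hu : IsPM A u) (x : ZMod p) : ∃ a ∈ A, ∑ i, u i * a i = x := by
  classical
  have h1 : (A.image (fun a : Fin 3 → ZMod p => ∑ i, u i * a i)).card = p := by
    rw [Finset.card_image_of_injOn hu.2, hA]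
  have h2 : A.image (fun a : Fin 3 → ZMod p => ∑ i, u i * a i) = Finset.univ := by
    apply Finset.eq_univ_of_card
    rw [h1, ZMod.card]
  have h3 : x ∈ A.image (fun a : Fin 3 → ZMod p => ∑ i, u i * a i) := by
    rw [h2]; exact Finset.mem_univ x
  simpa using h3

theorem pt_mem (A : Finset (Fin 3 → ZMod p)) (hA : A.card = p) (u : Fin 3 → ZMod p)
    (hu : IsPM A u) (x : ZMod p) : pt A u x ∈ A := by
  have h := exists_pt A hA u hu x
  unfold pt
  rw [dif_pos h]; exact h.choose_spec.1

theorem pt_dot (A : Finset (Fin 3 → ZMod p)) (hA : A.card = p) (u : Fin 3 → ZMod p)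
    (hu : IsPM A u) (x : ZMod p) : ∑ i, u i * pt A u x i = x := by
  have h := exists_pt A hA u hu x
  unfold pt
  rw [dif_pos h]; exact h.choose_spec.2

theorem sum_pt {M : Type*} [AddCommMonoid M] (A : Finset (Fin 3 → ZMod p)) (hA : A.card = p)
    (u : Fin 3 → ZMod p) (hu : IsPM A u) (G : (Fin 3 → ZMod p) → M) :
    ∑ a ∈ A, G a = ∑ x : ZMod p, G (pt A u x) := by
  classical
  symm
  apply Finset.sum_bij (fun (x : ZMod p) _ => pt A u x)
  · intro x _; exact pt_mem A hA u hu x
  · intro x _ y _ h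
    have h1 := pt_dot A hA u hu x
    rw [h, pt_dot A hA u hu y] at h1
    exact h1.symm
  · intro a ha
    refine ⟨∑ i, u i * a i, Finset.mem_univ _, ?_⟩
    exact hu.2 (pt_mem A hA u hu _) ha (pt_dot A hA u hu _)
  · intro x _; rfl

/-- the functional `w` as a function of the coordinate `x = u·a`. -/
noncomputable def fn (A : Finset (Fin 3 → ZMod p)) (u : Fin 3 → ZMod p) (w : Fin 3 → K) :
    ZMod p → K := fun x => lin w (pt A u x)

theorem lin_cst_pt (A : Finset (Fin 3 → ZMod p)) (hA : A.card = p) (u : Fin 3 → ZMod p)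
    (hu : IsPM A u) (x : ZMod p) : lin (cst K u) (pt A u x) = algebraMap (ZMod p) K x := by
  rw [lin_cst, pt_dot A hA u hu x]

/-- the sums `∑ x^i φ^j ψ^l`. -/
theorem sum_lin_eq (A : Finset (Fin 3 → ZMod p)) (hA : A.card = p) (u : Fin 3 → ZMod p)
    (hu : IsPM A u) (φ ψ : Fin 3 → K) (i j l : ℕ) :
    ∑ a ∈ A, lin (cst K u) a ^ i * lin φ a ^ j * lin ψ a ^ l
      = ∑ x : ZMod p, (algebraMap (ZMod p) K x) ^ i * fn A u φ x ^ j * fn A u ψ x ^ l := by
  rw [sum_pt A hA u hu]
  refine Finset.sum_congr rfl (fun x _ => ?_)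
  rw [lin_cst_pt A hA u hu]; rfl

theorem sum_lin_eq₂ (A : Finset (Fin 3 → ZMod p)) (hA : A.card = p) (u : Fin 3 → ZMod p)
    (hu : IsPM A u) (φ : Fin 3 → K) (i j : ℕ) :
    ∑ a ∈ A, lin (cst K u) a ^ i * lin φ a ^ j
      = ∑ x : ZMod p, (algebraMap (ZMod p) K x) ^ i * fn A u φ x ^ j := by
  rw [sum_pt A hA u hu]
  refine Finset.sum_congr rfl (fun x _ => ?_)
  rw [lin_cst_pt A hA u hu]; rfl

/-- `P_m` vanishes at the points of `PM` for `1 ≤ m ≤ p-2`. -/
theorem PS_van (A : Finset (Fin 3 → ZMod p)) (hA : A.card = p) (u : Fin 3 → ZMod p)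
    (hu : IsPM A u) (m : ℕ) (hm : m < p - 1) : eval (cst K u) (PS K A m) = 0 := by
  rw [eval_PS, sum_pt A hA u hu]
  simp only [lin_cst_pt A hA u hu]
  exact sum_pow_lt m hm

/-- `F_p`-rational nonproportional vectors stay nonproportional over `K`. -/
theorem cst_nonprop {u v : Fin 3 → ZMod p} (hu : u ≠ 0) (h : ∀ c : ZMod p, u = c • v → u = v)
    (c : K) (hc : cst K u = c • cst K v) : u = v := by
  have hp : ∃ i, u i ≠ 0 := by
    by_contra hcon
    push Not at hcon
    exact hu (funext hcon)
  obtain ⟨i, hi⟩ := hp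
  have hi2 : algebraMap (ZMod p) K (u i) = c * algebraMap (ZMod p) K (v i) := congrFun hc i
  have hvi : v i ≠ 0 := by
    intro h0
    rw [h0, map_zero, mul_zero] at hi2
    exact hi ((algebraMap (ZMod p) K).injective (by rw [hi2, map_zero]))
  have hvi' : algebraMap (ZMod p) K (v i) ≠ 0 := by
    intro h0; exact hvi ((algebraMap (ZMod p) K).injective (by rw [h0, map_zero]))
  have hcc : c = algebraMap (ZMod p) K (u i / v i) := by
    rw [map_div₀, hi2]; field_simp
  apply h (u i / v i)
  apply cst_injective (K := K)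
  rw [hc, cst_smul, ← hcc]

end Pool.Agent.Redei3
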