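import Pool.Agent.Work.MP_e263ba_co.Defs

/-!
Functions `F_p → K` and their reduced polynomials (degree `< p`).
-/

set_option autoImplicit false

namespace Pool.Agent.Redei3

open Finset Polynomial

variable {p : ℕ} [Fact p.Prime] {K : Type*} [Field K] [Algebra (ZMod p) K]

theorem sum_pow_lt (i : ℕ) (hi : i < p - 1) :
    ∑ x : ZMod p, (algebraMap (ZMod p) K x) ^ i = 0 := by
  have h := FiniteField.sum_pow_lt_card_sub_one (K := ZMod p) i (by rwa [ZMod.card])
  have h2 := congrArg (algebraMap (ZMod p) K) h
  simpa [map_sum, map_pow] using h2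

theorem sum_pow_pred :
    ∑ x : ZMod p, (algebraMap (ZMod p) K x) ^ (p - 1) = -1 := by
  have hp : p.Prime := Fact.out
  have h : ∑ x : ZMod p, x ^ (p - 1) = -1 := by
    have h1 : ∀ x : ZMod p, x ^ (p - 1) = 1 - (if x = 0 then 1 else 0) := by
      intro x
      by_cases hx : x = 0
      · subst hx
        rw [zero_pow (by have := hp.two_le; omega)]
        simp
      · rw [ZMod.pow_card_sub_one_eq_one hx]
        simp [hx]
    simp only [h1, Finset.sum_sub_distrib, Finset.sum_ite_eq', Finset.mem_univ, if_true]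
    simp [ZMod.card]
  have h2 := congrArg (algebraMap (ZMod p) K) h
  simpa [map_sum, map_pow] using h2

theorem sum_eval_le (F : K[X]) (hF : F.natDegree ≤ p - 1) :
    ∑ x : ZMod p, F.eval (algebraMap (ZMod p) K x) = - F.coeff (p - 1) := by
  have hp : p.Prime := Fact.out
  have h1 : ∀ x : ZMod p, F.eval (algebraMap (ZMod p) K x)
      = ∑ i ∈ Finset.range (p - 1 + 1), F.coeff i * (algebraMap (ZMod p) K x) ^ i := by
    intro x
    rw [Polynomial.eval_eq_sum_range' (n := p - 1 + 1) (by omega)]
  simp only [h1]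
  rw [Finset.sum_comm, Finset.sum_range_succ]
  have h2 : ∑ i ∈ Finset.range (p - 1), ∑ x : ZMod p,
      F.coeff i * (algebraMap (ZMod p) K x) ^ i = 0 := by
    apply Finset.sum_eq_zero
    intro i hi
    rw [← Finset.mul_sum, sum_pow_lt i (Finset.mem_range.mp hi), mul_zero]
  rw [h2, zero_add, ← Finset.mul_sum, sum_pow_pred]
  ring

theorem sum_eval_lt (F : K[X]) (hF : F.natDegree < p - 1) :
    ∑ x : ZMod p, F.eval (algebraMap (ZMod p) K x) = 0 := by
  rw [sum_eval_le F hF.le, Polynomial.coeff_eq_zero_of_natDegree_lt hF, neg_zero]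

theorem algebraMap_zmod_injective : Function.Injective (algebraMap (ZMod p) K) :=
  (algebraMap (ZMod p) K).injective

/-- The polynomial of degree `< p` representing a function on `F_p`. -/
noncomputable def pol (f : ZMod p → K) : K[X] :=
  Lagrange.interpolate Finset.univ (fun x : ZMod p => algebraMap (ZMod p) K x) f

theorem pol_eval (f : ZMod p → K) (x : ZMod p) :
    (pol f).eval (algebraMap (ZMod p) K x) = f x :=
  Lagrange.eval_interpolate_at_node (v := fun x : ZMod p => algebraMap (ZMod p) K x) f
    (algebraMap_zmod_injective.injOn) (Finset.mem_univ x)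

theorem pol_degree_lt (f : ZMod p → K) : (pol f).degree < p := by
  have h := Lagrange.degree_interpolate_lt (s := (Finset.univ : Finset (ZMod p)))
    (v := fun x : ZMod p => algebraMap (ZMod p) K x) f
    (algebraMap_zmod_injective.injOn)
  simpa [pol, ZMod.card] using h

theorem pol_natDegree_lt (f : ZMod p → K) : (pol f).natDegree < p := by
  have hp : p.Prime := Fact.out
  by_cases h0 : pol f = 0
  · rw [h0, Polynomial.natDegree_zero]; exact hp.pos
  · exact (Polynomial.natDegree_lt_iff_degree_lt h0).mpr (pol_degree_lt f)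

theorem pol_natDegree_le (f : ZMod p → K) : (pol f).natDegree ≤ p - 1 := by
  have := pol_natDegree_lt f; omega

theorem eq_of_eval_eq (F G : K[X]) (hF : F.natDegree < p) (hG : G.natDegree < p)
    (h : ∀ x : ZMod p, F.eval (algebraMap (ZMod p) K x) = G.eval (algebraMap (ZMod p) K x)) :
    F = G := by
  have hp : p.Prime := Fact.out
  refine Polynomial.eq_of_degree_sub_lt_of_eval_index_eq (s := (Finset.univ : Finset (ZMod p)))
    (v := fun x : ZMod p => algebraMap (ZMod p) K x) algebraMap_zmod_injective.injOn ?_ ?_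
  · have h1 : (F - G).natDegree < p :=
      lt_of_le_of_lt (Polynomial.natDegree_sub_le F G) (max_lt hF hG)
    have h2 : (F - G).degree < (p : ℕ) := by
      by_cases h0 : F - G = 0
      · rw [h0, Polynomial.degree_zero]; exact WithBot.bot_lt_coe _
      · exact (Polynomial.natDegree_lt_iff_degree_lt h0).mp h1
    simpa [ZMod.card] using h2
  · intro x _; exact h x

theorem pol_eq_of_eval (F : K[X]) (hF : F.natDegree < p) (f : ZMod p → K)
    (h : ∀ x : ZMod p, F.eval (algebraMap (ZMod p) K x) = f x) : pol f = F :=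
  eq_of_eval_eq _ _ (pol_natDegree_lt f) hF (fun x => by rw [pol_eval, h])

theorem sum_eq_neg_coeff (f : ZMod p → K) : ∑ x, f x = - (pol f).coeff (p - 1) := by
  rw [← sum_eval_le (pol f) (pol_natDegree_le f)]
  exact Finset.sum_congr rfl (fun x _ => (pol_eval f x).symm)

theorem pol_ext {f g : ZMod p → K} (h : pol f = pol g) : f = g := by
  funext x; rw [← pol_eval f x, h, pol_eval]

theorem pol_zero : pol (0 : ZMod p → K) = 0 := by
  apply pol_eq_of_eval
  · simp [(Fact.out : p.Prime).pos]
  · intro x; simp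

theorem pol_eq_zero_iff (f : ZMod p → K) : pol f = 0 ↔ f = 0 := by
  constructor
  · intro h; apply pol_ext; rw [h, pol_zero]
  · rintro rfl; exact pol_zero

theorem pol_add (f g : ZMod p → K) : pol (f + g) = pol f + pol g := by
  apply pol_eq_of_eval
  · exact lt_of_le_of_lt (Polynomial.natDegree_add_le _ _)
      (max_lt (pol_natDegree_lt f) (pol_natDegree_lt g))
  · intro x; simp [pol_eval]

theorem pol_sub (f g : ZMod p → K) : pol (f - g) = pol f - pol g := by
  apply pol_eq_of_eval
  · exact lt_of_le_of_lt (Polynomial.natDegree_sub_le _ _)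
      (max_lt (pol_natDegree_lt f) (pol_natDegree_lt g))
  · intro x; simp [pol_eval]

theorem pol_smul (c : K) (f : ZMod p → K) : pol (c • f) = Polynomial.C c * pol f := by
  apply pol_eq_of_eval
  · exact lt_of_le_of_lt (Polynomial.natDegree_C_mul_le _ _) (pol_natDegree_lt f)
  · intro x; simp [pol_eval]

theorem pol_mul (f g : ZMod p → K) (h : (pol f).natDegree + (pol g).natDegree < p) :
    pol (f * g) = pol f * pol g := by
  apply pol_eq_of_eval
  · exact lt_of_le_of_lt Polynomial.natDegree_mul_le h
  · intro x; simp [pol_eval]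

theorem pol_pow (f : ZMod p → K) (j : ℕ) (h : j * (pol f).natDegree < p) :
    pol (f ^ j) = pol f ^ j := by
  apply pol_eq_of_eval
  · exact lt_of_le_of_lt Polynomial.natDegree_pow_le h
  · intro x; simp [pol_eval]

/-- moments against `x^i` when `i + deg f ≤ p - 1`. -/
theorem moment_eq_neg_coeff (f : ZMod p → K) (i : ℕ) (h : i + (pol f).natDegree ≤ p - 1) :
    ∑ x : ZMod p, (algebraMap (ZMod p) K x) ^ i * f x = - (pol f).coeff (p - 1 - i) := by
  have h1 : ∀ x : ZMod p, (algebraMap (ZMod p) K x) ^ i * f x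
      = (Polynomial.X ^ i * pol f).eval (algebraMap (ZMod p) K x) := by
    intro x; simp [pol_eval]
  simp only [h1]
  rw [sum_eval_le _ ((Polynomial.natDegree_mul_le).trans (by
    rw [Polynomial.natDegree_X_pow]; exact h))]
  rw [Polynomial.coeff_X_pow_mul', if_pos (by omega)]

theorem moment_eq_zero (f : ZMod p → K) (i : ℕ) (h : i + (pol f).natDegree < p - 1) :
    ∑ x : ZMod p, (algebraMap (ZMod p) K x) ^ i * f x = 0 := by
  rw [moment_eq_neg_coeff f i h.le, Polynomial.coeff_eq_zero_of_natDegree_lt (by omega), neg_zero]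

theorem moment_eq_neg_lc (f : ZMod p → K) (i : ℕ) (h : i + (pol f).natDegree = p - 1) :
    ∑ x : ZMod p, (algebraMap (ZMod p) K x) ^ i * f x = - (pol f).leadingCoeff := by
  rw [moment_eq_neg_coeff f i h.le, Polynomial.leadingCoeff]
  congr 2; omega

/-- if the first `N` moments of `f` vanish then `deg f ≤ p - 1 - N`. -/
theorem natDegree_pol_le_of_moments (f : ZMod p → K) (N : ℕ) (hN : N ≤ p - 1)
    (h : ∀ i < N, ∑ x : ZMod p, (algebraMap (ZMod p) K x) ^ i * f x = 0) :
    (pol f).natDegree ≤ p - 1 - N := by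
  by_contra hcon
  push Not at hcon
  have hlt := pol_natDegree_lt f
  have h1 := h (p - 1 - (pol f).natDegree) (by omega)
  rw [moment_eq_neg_lc f _ (by omega)] at h1
  have h2 : pol f = 0 := Polynomial.leadingCoeff_eq_zero.mp (neg_eq_zero.mp h1)
  rw [h2, Polynomial.natDegree_zero] at hcon
  omega

end Pool.Agent.Redei3
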