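import Mathlib

/-! JOB L: the lacunary lemma. -/

set_option autoImplicit false

namespace Pool.Agent.Redei3

open Finset Polynomial

variable {p : ℕ} [Fact p.Prime]

/-- `(X^p - X)/(X - s)` -/
noncomputable def lacN (s : ZMod p) : (ZMod p)[X] :=
  (∑ i ∈ Finset.range p, X ^ i * (C s) ^ (p - 1 - i)) - 1

theorem lacN_mul (s : ZMod p) : lacN s * (X - C s) = X ^ p - X := by
  unfold lacN
  rw [sub_mul, geom_sum₂_mul, one_mul, ← C_pow, ZMod.pow_card]
  ring

theorem lacN_coeff (s : ZMod p) (i : ℕ) :
    (lacN s).coeff i = (if i < p then s ^ (p - 1 - i) else 0) - (if i = 0 then 1 else 0) := by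
  unfold lacN
  rw [coeff_sub, coeff_one, finsetSum_coeff]
  congr 1
  have h1 : ∀ j ∈ Finset.range p, (X ^ j * C s ^ (p - 1 - j) : (ZMod p)[X]).coeff i =
      if i = j then s ^ (p - 1 - j) else 0 := by
    intro j _
    rw [← C_pow, mul_comm, coeff_C_mul, coeff_X_pow]
    split_ifs <;> simp
  rw [Finset.sum_congr rfl h1, Finset.sum_ite_eq]
  simp

theorem lacN_eval (s t : ZMod p) : (lacN s).eval t = if s = t then -1 else 0 := by
  split_ifs with h
  · subst h
    unfold lacN
    rw [eval_sub, eval_finsetSum, eval_one]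
    have h1 : ∀ i ∈ Finset.range p, (X ^ i * C s ^ (p - 1 - i) : (ZMod p)[X]).eval s
        = s ^ (p - 1) := by
      intro i hi
      rw [Finset.mem_range] at hi
      simp only [eval_mul, eval_pow, eval_X, eval_C]
      rw [← pow_add]
      congr 1
      omega
    rw [Finset.sum_congr rfl h1, Finset.sum_const, Finset.card_range, nsmul_eq_mul]
    simp
  · have h1 := congrArg (eval t) (lacN_mul s)
    simp only [eval_mul, eval_sub, eval_X, eval_C, eval_pow, ZMod.pow_card, sub_self] at h1
    exact (mul_eq_zero.mp h1).resolve_right (sub_ne_zero.mpr (fun h' => h h'.symm))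

/-- `M = ∑ μ_j X^{p-1-j}` -/
noncomputable def lacM (m : ZMod p → ℕ) : (ZMod p)[X] := ∑ s, C (m s : ZMod p) * lacN s

theorem lacM_eval (m : ZMod p → ℕ) (t : ZMod p) : (lacM m).eval t = -(m t : ZMod p) := by
  unfold lacM
  rw [eval_finsetSum]
  simp only [eval_mul, eval_C, lacN_eval]
  rw [Finset.sum_eq_single t]
  · simp
  · intro s _ hs
    rw [if_neg hs, mul_zero]
  · intro h
    exact absurd (Finset.mem_univ t) h

theorem lacM_coeff (m : ZMod p → ℕ) (hsum : ∑ s, m s = p) (i : ℕ) (hi : i < p) :
    (lacM m).coeff i = ∑ s : ZMod p, s ^ (p - 1 - i) * (m s : ZMod p) := by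
  unfold lacM
  rw [finsetSum_coeff]
  simp only [coeff_C_mul, lacN_coeff, if_pos hi, mul_sub, Finset.sum_sub_distrib]
  have h1 : ∑ s : ZMod p, (m s : ZMod p) * (if i = 0 then 1 else 0) = 0 := by
    rw [← Finset.sum_mul, ← Nat.cast_sum, hsum, ZMod.natCast_self, zero_mul]
  rw [h1, sub_zero]
  exact Finset.sum_congr rfl (fun s _ => mul_comm _ _)

theorem lacM_coeff_ge (m : ZMod p → ℕ) (i : ℕ) (hi : p ≤ i) : (lacM m).coeff i = 0 := by
  have hp := (Fact.out : p.Prime).pos
  unfold lacM
  rw [finsetSum_coeff]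
  apply Finset.sum_eq_zero
  intro s _
  rw [coeff_C_mul, lacN_coeff, if_neg (by omega), if_neg (by omega)]
  simp

theorem sum_pow_zero (m : ZMod p → ℕ) (hsum : ∑ s, m s = p) :
    ∑ s : ZMod p, s ^ 0 * (m s : ZMod p) = 0 := by
  simp only [pow_zero, one_mul]
  rw [← Nat.cast_sum, hsum, ZMod.natCast_self]

theorem lacL1 (m : ZMod p → ℕ) (hsum : ∑ s, m s = p)
    (h : ∀ i, 1 ≤ i → i ≤ p - 2 → ∑ s : ZMod p, s ^ i * (m s : ZMod p) = 0) :
    (∀ s, m s = 1) ∨ ∃ s0, ∀ s, m s = if s = s0 then p else 0 := by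
  classical
  have hp2 := (Fact.out : p.Prime).two_le
  have hM : lacM m = C ((lacM m).coeff 0) := by
    ext i
    rw [coeff_C]
    split_ifs with hi
    · rw [hi]
    · rcases Nat.lt_or_ge i p with hip | hip
      · rw [lacM_coeff m hsum i hip]
        rcases Nat.eq_zero_or_pos (p - 1 - i) with h0 | h0
        · rw [h0]; exact sum_pow_zero m hsum
        · exact h _ h0 (by omega)
      · exact lacM_coeff_ge m i hip
  have hconst : ∀ t : ZMod p, (m t : ZMod p) = -((lacM m).coeff 0) := by
    intro t
    have h1 := lacM_eval m t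
    rw [hM, eval_C] at h1
    rw [h1, neg_neg]
  set c : ZMod p := -((lacM m).coeff 0) with hc
  have hmod : ∀ t, m t % p = c.val := by
    intro t
    rw [← hconst t, ZMod.val_natCast]
  have hle : ∀ t, c.val ≤ m t := by
    intro t
    rw [← hmod t]
    exact Nat.mod_le _ _
  have hsumle : p * c.val ≤ p := by
    calc p * c.val = ∑ _t : ZMod p, c.val := by
          rw [Finset.sum_const, Finset.card_univ, ZMod.card, smul_eq_mul]
      _ ≤ ∑ t, m t := Finset.sum_le_sum (fun t _ => hle t)
      _ = p := hsum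
  have hc1 : c.val ≤ 1 := by
    by_contra hcon
    push Not at hcon
    nlinarith
  rcases Nat.lt_or_ge c.val 1 with h0 | h0
  · right
    have hc0 : c.val = 0 := by omega
    have hdvd : ∀ t, p ∣ m t := fun t => Nat.dvd_of_mod_eq_zero (by rw [hmod t, hc0])
    obtain ⟨s0, hs0⟩ : ∃ s0, m s0 ≠ 0 := by
      by_contra hcon
      push Not at hcon
      rw [Finset.sum_eq_zero (fun s _ => hcon s)] at hsum
      omega
    have hge : p ≤ m s0 := Nat.le_of_dvd (Nat.pos_of_ne_zero hs0) (hdvd s0)
    have hsplit := Finset.add_sum_erase Finset.univ m (Finset.mem_univ s0)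
    rw [hsum] at hsplit
    have hz : ∑ x ∈ Finset.univ.erase s0, m x = 0 := by omega
    refine ⟨s0, fun s => ?_⟩
    split_ifs with hs
    · rw [hs]; omega
    · exact (Finset.sum_eq_zero_iff.mp hz) s (Finset.mem_erase.mpr ⟨hs, Finset.mem_univ s⟩)
  · left
    have hc1' : c.val = 1 := by omega
    have hge1 : ∀ t, 1 ≤ m t := fun t => hc1' ▸ hle t
    have hsum2 : ∑ t : ZMod p, (m t - 1) = 0 := by
      have h2 : ∑ t : ZMod p, ((m t - 1) + 1) = p :=
        (Finset.sum_congr rfl (fun t _ => Nat.sub_add_cancel (hge1 t))).trans hsum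
      rw [Finset.sum_add_distrib, Finset.sum_const, Finset.card_univ, ZMod.card, smul_eq_mul,
        mul_one] at h2
      omega
    intro s
    have h3 := (Finset.sum_eq_zero_iff.mp hsum2) s (Finset.mem_univ s)
    have h4 := hge1 s
    omega

theorem lac_derivative (m : ZMod p → ℕ) :
    (X ^ p - X) * derivative (∏ s, (X - C s) ^ m s) = (∏ s, (X - C s) ^ m s) * lacM m := by
  classical
  rw [derivative_prod_finset, Finset.mul_sum, lacM, Finset.mul_sum]
  apply Finset.sum_congr rfl
  intro s _
  rw [derivative_X_sub_C_pow, ← lacN_mul s]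
  rw [← Finset.mul_prod_erase Finset.univ (fun t => (X - C t) ^ m t) (Finset.mem_univ s)]
  rcases Nat.eq_zero_or_pos (m s) with h0 | h0
  · rw [h0]; simp
  · obtain ⟨k, hk⟩ : ∃ k, m s = k + 1 := ⟨m s - 1, by omega⟩
    rw [hk, Nat.add_sub_cancel, pow_succ]
    rw [map_natCast C]
    ring

theorem lacL2 (m : ZMod p → ℕ) (hsum : ∑ s, m s = p) (r : ℕ) (hr1 : 1 ≤ r) (hr2 : r ≤ p - 2)
    (h : ∀ i, 1 ≤ i → i < r → ∑ s : ZMod p, s ^ i * (m s : ZMod p) = 0)
    (hr : ∑ s : ZMod p, s ^ r * (m s : ZMod p) ≠ 0) :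
    2 * r ≤ p - 1 ∧ 2 * r ≤ ∑ s, m s * (m s - 1) := by
  classical
  have hp2 := (Fact.out : p.Prime).two_le
  -- degree of M
  have hMr : (lacM m).coeff (p - 1 - r) ≠ 0 := by
    rw [lacM_coeff m hsum _ (by omega)]
    have : p - 1 - (p - 1 - r) = r := by omega
    rw [this]
    exact hr
  have hM0 : lacM m ≠ 0 := by
    intro h0
    rw [h0] at hMr
    simp at hMr
  have hMdeg : (lacM m).natDegree = p - 1 - r := by
    apply le_antisymm
    · rw [natDegree_le_iff_coeff_eq_zero]
      intro i hi
      rcases Nat.lt_or_ge i p with hip | hip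
      · rw [lacM_coeff m hsum i hip]
        rcases Nat.eq_zero_or_pos (p - 1 - i) with h0 | h0
        · rw [h0]; exact sum_pow_zero m hsum
        · exact h _ h0 (by omega)
      · exact lacM_coeff_ge m i hip
    · exact le_natDegree_of_ne_zero hMr
  -- the empty fibres
  set Z := Finset.univ.filter (fun s : ZMod p => m s = 0) with hZ
  have hZle : Z.card ≤ p - 1 - r := by
    rw [← hMdeg]
    apply card_le_degree_of_subset_roots
    intro s hs
    rw [Finset.mem_val, hZ, Finset.mem_filter] at hs
    rw [mem_roots hM0, IsRoot.def, lacM_eval, hs.2]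
    simp
  -- the polynomial Φ
  set Φ : (ZMod p)[X] := ∏ s, (X - C s) ^ m s with hΦ
  have hΦm : Φ.Monic := monic_prod_of_monic _ _ (fun s _ => (monic_X_sub_C s).pow _)
  have hΦd : Φ.natDegree = p := by
    rw [hΦ, natDegree_prod_of_monic _ _ (fun s _ => (monic_X_sub_C s).pow _)]
    simp only [natDegree_pow, natDegree_X_sub_C, mul_one]
    exact hsum
  set S : (ZMod p)[X] := X ^ p - X with hS
  have hSd : S.natDegree = p := FiniteField.X_pow_card_sub_X_natDegree_eq (ZMod p) (by omega)
  have hSm : S.Monic := by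
    apply monic_X_pow_sub
    rw [degree_X]
    exact_mod_cast (by omega : 1 < p)
  have hder := lac_derivative m
  rw [← hΦ, ← hS] at hder
  have hΦ'0 : derivative Φ ≠ 0 := by
    intro h0
    rw [h0, mul_zero] at hder
    rcases mul_eq_zero.mp hder.symm with h1 | h1
    · exact hΦm.ne_zero h1
    · exact hM0 h1
  have hΦ'd : (derivative Φ).natDegree = p - 1 - r := by
    have h1 := congrArg natDegree hder
    rw [natDegree_mul hSm.ne_zero hΦ'0, natDegree_mul hΦm.ne_zero hM0, hSd, hΦd, hMdeg] at h1
    omega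
  have hS' : derivative S = -1 := by
    rw [hS, derivative_sub, derivative_X_pow, derivative_X]
    simp
  set D := Φ - S with hD
  have hD' : derivative D = derivative Φ + 1 := by
    rw [hD, derivative_sub, hS']
    ring
  have hD'd : (derivative D).natDegree = p - 1 - r := by
    rw [hD', natDegree_add_eq_left_of_natDegree_lt]
    · exact hΦ'd
    · rw [hΦ'd, natDegree_one]
      omega
  have hD0 : D ≠ 0 := by
    intro h0
    rw [h0] at hD'd
    simp at hD'd
    omega
  have hDlt : D.natDegree < p := by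
    have h1 : D.degree < Φ.degree := by
      apply degree_sub_lt_left
      · rw [degree_eq_natDegree hΦm.ne_zero, degree_eq_natDegree hSm.ne_zero, hΦd, hSd]
      · exact hΦm.ne_zero
      · rw [hΦm.leadingCoeff, hSm.leadingCoeff]
    have h2 := natDegree_lt_natDegree hD0 h1
    rwa [hΦd] at h2
  have hDd : D.natDegree ≤ p - r := by
    by_contra hcon
    push Not at hcon
    have h1 : (derivative D).coeff (D.natDegree - 1) ≠ 0 := by
      rw [coeff_derivative]
      have h2 : D.natDegree - 1 + 1 = D.natDegree := by omega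
      rw [h2]
      apply mul_ne_zero
      · rw [coeff_natDegree]
        exact leadingCoeff_ne_zero.mpr hD0
      · have h3 : (((D.natDegree - 1 : ℕ) : ZMod p) + 1) = ((D.natDegree : ℕ) : ZMod p) := by
          rw [← Nat.cast_add_one, h2]
        rw [h3, Ne, ZMod.natCast_eq_zero_iff]
        intro h4
        have := Nat.le_of_dvd (by omega) h4
        omega
    have h5 := le_natDegree_of_ne_zero h1
    omega
  -- the nonempty fibres
  set W := Finset.univ.filter (fun s : ZMod p => m s ≠ 0) with hW
  have hWle : W.card ≤ D.natDegree := by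
    apply card_le_degree_of_subset_roots
    intro s hs
    rw [Finset.mem_val, hW, Finset.mem_filter] at hs
    rw [mem_roots hD0, IsRoot.def, hD, eval_sub]
    have h1 : eval s Φ = 0 := by
      rw [hΦ, eval_prod]
      apply Finset.prod_eq_zero (Finset.mem_univ s)
      simp [hs.2]
    have h2 : eval s S = 0 := by
      rw [hS]
      simp [ZMod.pow_card]
    rw [h1, h2, sub_zero]
  have hcard : Z.card + W.card = p := by
    have := Finset.card_filter_add_card_filter_not (s := (Finset.univ : Finset (ZMod p)))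
      (fun s : ZMod p => m s = 0)
    rw [Finset.card_univ, ZMod.card] at this
    exact this
  refine ⟨by omega, ?_⟩
  -- the energy
  have h1 : ∑ s : ZMod p, (m s - 1) = Z.card := by
    have h2 : ∑ s : ZMod p, ((m s - 1) + 1) = ∑ s : ZMod p, (m s + if m s = 0 then 1 else 0) := by
      apply Finset.sum_congr rfl
      intro s _
      split_ifs with h0
      · rw [h0]
      · omega
    rw [Finset.sum_add_distrib, Finset.sum_add_distrib, hsum, Finset.sum_const, Finset.card_univ,
      ZMod.card, smul_eq_mul, mul_one, ← Finset.card_filter, ← hZ] at h2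
    omega
  calc 2 * r ≤ 2 * Z.card := by omega
    _ = ∑ s : ZMod p, 2 * (m s - 1) := by rw [← Finset.mul_sum, h1]
    _ ≤ ∑ s, m s * (m s - 1) := by
      apply Finset.sum_le_sum
      intro s _
      rcases Nat.lt_or_ge (m s) 2 with h0 | h0
      · have : m s - 1 = 0 := by omega
        rw [this]
        simp
      · exact Nat.mul_le_mul_right _ h0

end Pool.Agent.Redei3
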