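import Pool.Agent.Work.MP_e263ba_co.PlaneEvA

/-! divisibility by linear forms over `F_p` (low degree). -/

set_option autoImplicit false
set_option linter.unusedSectionVars false

namespace Pool.Agent.Redei3

open Finset MvPolynomial

section

variable {K : Type*} [Field K]

theorem coeff_linForm (e : Fin 3 → K) (i : Fin 3) :
    coeff (Finsupp.single i 1) (linForm e) = e i := by
  classical
  unfold linForm
  rw [coeff_sum, Finset.sum_eq_single i]
  · rw [coeff_C_mul, coeff_X, if_pos rfl, mul_one]
  · intro j _ hj
    rw [coeff_C_mul, coeff_X, if_neg, mul_zero]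
    intro h
    exact hj (Finsupp.single_left_injective one_ne_zero h)
  · intro h; exact absurd (Finset.mem_univ _) h

theorem linForm_ne_zero {e : Fin 3 → K} (he : e ≠ 0) : linForm e ≠ 0 := by
  intro h
  apply he
  funext i
  rw [← coeff_linForm e i, h, coeff_zero]; rfl

theorem linForm_irreducible {e : Fin 3 → K} (he : e ≠ 0) : Irreducible (linForm e) := by
  have h0 := linForm_ne_zero he
  have h1 : (linForm e).totalDegree = 1 := (linForm_hom e).totalDegree h0
  constructor
  · intro hu
    rw [MvPolynomial.isUnit_iff_totalDegree_of_isReduced] at hu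
    omega
  · intro a b hab
    have ha : a ≠ 0 := by rintro rfl; apply h0; rw [hab, zero_mul]
    have hb : b ≠ 0 := by rintro rfl; apply h0; rw [hab, mul_zero]
    have h2 := totalDegree_mul_of_isDomain ha hb
    rw [← hab, h1] at h2
    have key : ∀ q : MvPolynomial (Fin 3) K, q ≠ 0 → q.totalDegree = 0 → IsUnit q := by
      intro q hq hq0
      rw [totalDegree_eq_zero_iff_eq_C] at hq0
      rw [hq0]
      have : coeff 0 q ≠ 0 := by
        intro h; apply hq; rw [hq0, h, C_0]
      exact (IsUnit.mk0 _ this).map C
    rcases Nat.eq_zero_or_pos a.totalDegree with h3 | h3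
    · left; exact key a ha h3
    · right; exact key b hb (by omega)

theorem linForm_not_dvd {e f : Fin 3 → K} (he : e ≠ 0) (hf : f ≠ 0)
    (hef : ∀ c : K, f ≠ c • e) : ¬ linForm e ∣ linForm f := by
  rintro ⟨q, hq⟩
  have h0 := linForm_ne_zero he
  have hf0 := linForm_ne_zero hf
  have hq0 : q ≠ 0 := by rintro rfl; apply hf0; rw [hq, mul_zero]
  have h2 := totalDegree_mul_of_isDomain h0 hq0
  rw [← hq, (linForm_hom e).totalDegree h0, (linForm_hom f).totalDegree hf0] at h2
  have h3 : q.totalDegree = 0 := by omega
  rw [totalDegree_eq_zero_iff_eq_C] at h3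
  apply hef (coeff 0 q)
  funext i
  rw [← coeff_linForm f i, hq, h3, mul_comm, coeff_C_mul, coeff_linForm]
  simp

end

section

variable {p : ℕ} [Fact p.Prime]

/-- A polynomial of total degree `< p` over `F_p` vanishing on the plane `e·u = 0`
is divisible by the linear form `e`. -/
theorem lin_dvd_of_van (e : Fin 3 → ZMod p) (he : e ≠ 0) (P : MvPolynomial (Fin 3) (ZMod p))
    (hdeg : P.totalDegree < p)
    (hvan : ∀ u : Fin 3 → ZMod p, ∑ i, e i * u i = 0 → eval u P = 0) : linForm e ∣ P := by
  classical
  obtain ⟨j, hj⟩ : ∃ j, e j ≠ 0 := by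
    by_contra hcon
    push Not at hcon
    exact he (funext hcon)
  -- substitution X_j ↦ X_j - L / e_j
  let g : Fin 3 → MvPolynomial (Fin 3) (ZMod p) :=
    fun i => X i - (if i = j then C (e j)⁻¹ * linForm e else 0)
  let φ : MvPolynomial (Fin 3) (ZMod p) →ₐ[ZMod p] MvPolynomial (Fin 3) (ZMod p) := aeval g
  -- P - φ P is divisible by L
  have h1 : ∀ Q : MvPolynomial (Fin 3) (ZMod p), linForm e ∣ Q - φ Q := by
    intro Q
    induction Q using MvPolynomial.induction_on with
    | C a => simp [φ]
    | add f g hf hg =>
      have : f + g - φ (f + g) = (f - φ f) + (g - φ g) := by rw [map_add]; ring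
      rw [this]; exact dvd_add hf hg
    | mul_X f i hf =>
      have : f * X i - φ (f * X i) = (f - φ f) * X i + φ f * (X i - φ (X i)) := by
        rw [map_mul]; ring
      rw [this]
      apply dvd_add (Dvd.dvd.mul_right hf _)
      apply Dvd.dvd.mul_left
      have h2 : X i - φ (X i) = (if i = j then C (e j)⁻¹ * linForm e else 0) := by
        simp [φ, g]
      rw [h2]
      split_ifs
      · exact Dvd.intro_left _ rfl
      · exact dvd_zero _
  -- φ P = 0
  have h2 : φ P = 0 := by
    apply MvPolynomial.eq_zero_of_eval_eq_zero
    · intro v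
      have h3 : eval v (φ P) = eval (fun i => eval v (g i)) P := by
        have : (eval v).comp (φ : MvPolynomial (Fin 3) (ZMod p) →+* _)
            = (eval (fun i => eval v (g i)) : MvPolynomial (Fin 3) (ZMod p) →+* ZMod p) := by
          apply MvPolynomial.ringHom_ext
          · intro r; simp [φ]
          · intro i; simp [φ]
        exact congrArg (fun f => f P) this
      rw [h3]
      apply hvan
      have h4 : ∀ i, eval v (g i) = v i - (if i = j then (e j)⁻¹ * (∑ i, e i * v i) else 0) := by
        intro i
        simp only [g, map_sub, eval_X]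
        split_ifs
        · rw [map_mul, eval_C, eval_linForm]
        · rw [map_zero]
      simp only [h4, mul_sub, Finset.sum_sub_distrib, mul_ite, mul_zero, Finset.sum_ite_eq',
        Finset.mem_univ, if_true]
      rw [← mul_assoc, mul_inv_cancel₀ hj, one_mul, sub_self]
    · apply restrictTotalDegree_le_restrictDegree
      rw [mem_restrictTotalDegree, ZMod.card]
      have h5 : (φ P).totalDegree ≤ P.totalDegree := by
        have hg : ∀ i, (g i).totalDegree ≤ 1 := by
          intro i
          refine (totalDegree_sub _ _).trans ?_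
          apply max_le
          · simp
          · split_ifs
            · refine (totalDegree_mul _ _).trans ?_
              rw [totalDegree_C, zero_add]
              exact (linForm_hom e).totalDegree_le
            · simp
        have h6 : φ P = ∑ d ∈ P.support, C (coeff d P) * ∏ i ∈ d.support, g i ^ d i := by
          show aeval g P = _
          rw [aeval_def, eval₂_eq]; rfl
        rw [h6]
        refine (totalDegree_finsetSum _ _).trans ?_
        apply Finset.sup_le
        intro d hd
        refine (totalDegree_mul _ _).trans ?_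
        rw [totalDegree_C, zero_add]
        refine (totalDegree_finsetProd _ _).trans ?_
        calc ∑ i ∈ d.support, (g i ^ d i).totalDegree ≤ ∑ i ∈ d.support, d i := by
              apply Finset.sum_le_sum
              intro i _
              refine (totalDegree_pow _ _).trans ?_
              calc d i * (g i).totalDegree ≤ d i * 1 := Nat.mul_le_mul_left _ (hg i)
                _ = d i := mul_one _
          _ ≤ P.totalDegree := le_totalDegree hd
      omega
  have h3 := h1 P
  rw [h2, sub_zero] at h3
  exact h3

/-- A form of degree `i < p ≤ |E|` vanishing on all planes `e^⊥`, `e ∈ E`, is zero. -/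
theorem eq_zero_of_van_planes (E : Finset (Fin 3 → ZMod p)) (hE : Pts E)
    (P : MvPolynomial (Fin 3) (ZMod p)) (i : ℕ) (hP : P.IsHomogeneous i) (hip : i < p)
    (hiE : i < E.card)
    (hvan : ∀ e ∈ E, ∀ u : Fin 3 → ZMod p, ∑ i, e i * u i = 0 → eval u P = 0) : P = 0 := by
  classical
  by_contra hP0
  have h1 : (∏ e ∈ E, linForm e) ∣ P := by
    apply Finset.prod_dvd_of_isRelPrime
    · intro e he f hf hef
      show IsRelPrime (linForm e) (linForm f)
      rw [(linForm_irreducible (hE.1 e he)).isRelPrime_iff_not_dvd]
      apply linForm_not_dvd (hE.1 e he) (hE.1 f hf)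
      intro c hc
      exact hef (hE.2 f hf e he c hc).symm
    · intro e he
      apply lin_dvd_of_van e (hE.1 e he) P
      · rw [hP.totalDegree hP0]; exact hip
      · exact hvan e he
  obtain ⟨Q, hQ⟩ := h1
  have hL0 : (∏ e ∈ E, linForm e) ≠ 0 := by
    rw [Finset.prod_ne_zero_iff]
    intro e he; exact linForm_ne_zero (hE.1 e he)
  have hQ0 : Q ≠ 0 := by rintro rfl; apply hP0; rw [hQ, mul_zero]
  have h2 : (∏ e ∈ E, linForm e).IsHomogeneous (∑ _e ∈ E, 1) :=
    MvPolynomial.IsHomogeneous.prod E linForm (fun _ => 1) (fun e _ => linForm_hom e)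
  have h3 := totalDegree_mul_of_isDomain hL0 hQ0
  rw [← hQ, hP.totalDegree hP0, h2.totalDegree hL0] at h3
  simp at h3
  omega

end

end Pool.Agent.Redei3
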