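import Pool.Agent.Work.MP_e263ba_co.PlaneG1

/-! G2, G3. -/

set_option autoImplicit false

namespace Pool.Agent.Redei3

open Finset MvPolynomial

variable {K : Type*} [Field K]

/-- two subspaces of `K^Z` orthogonal for `∑ c x y`, `c` nowhere zero -/
theorem orth_finrank {Z : Finset (Fin 3 → K)} {c : (Fin 3 → K) → K} (hc : ∀ u ∈ Z, c u ≠ 0)
    (V1 V2 : Submodule K (Z → K))
    (h : ∀ x ∈ V1, ∀ y ∈ V2, ∑ u : Z, c u.1 * (x u * y u) = 0) :
    Module.finrank K V1 + Module.finrank K V2 ≤ Z.card := by
  classical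
  set Φ : (Z → K) →ₗ[K] Module.Dual K (Z → K) :=
    { toFun := fun x => ∑ u : Z, (c u.1 * x u) • LinearMap.proj u
      map_add' := by
        intro x y
        ext y'
        simp [mul_add, add_mul, Finset.sum_add_distrib]
      map_smul' := by
        intro a x
        ext y'
        simp only [LinearMap.coe_comp, Function.comp_apply, LinearMap.coe_single,
          RingHom.id_apply, LinearMap.smul_apply, LinearMap.coe_sum, Finset.sum_apply,
          LinearMap.coe_proj, Function.eval, Pi.smul_apply, smul_eq_mul, Finset.mul_sum]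
        apply Finset.sum_congr rfl
        intro i _
        ring } with hΦ
  have hΦa : ∀ x y, Φ x y = ∑ u : Z, c u.1 * (x u * y u) := by
    intro x y
    simp [hΦ, mul_assoc]
  have hinj : Function.Injective Φ := by
    rw [← LinearMap.ker_eq_bot, LinearMap.ker_eq_bot']
    intro x hx
    ext u
    have h1 := hΦa x (Pi.single u 1)
    rw [hx, LinearMap.zero_apply] at h1
    have h2 : ∑ v : Z, c v.1 * (x v * (Pi.single u (1 : K) : Z → K) v) = c u.1 * x u := by
      rw [Finset.sum_eq_single u]
      · simp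
      · intro v _ hvu
        simp [Pi.single_eq_of_ne hvu]
      · simp
    rw [h2] at h1
    exact (mul_eq_zero.mp h1.symm).resolve_left (hc u.1 u.2)
  have hle : V1.map Φ ≤ V2.dualAnnihilator := by
    rintro f ⟨x, hx, rfl⟩
    rw [Submodule.mem_dualAnnihilator]
    intro y hy
    rw [hΦa]
    exact h x hx y hy
  have h1 : Module.finrank K (V1.map Φ) = Module.finrank K V1 :=
    (Submodule.equivMapOfInjective _ hinj _).symm.finrank_eq
  have h2 := Submodule.finrank_mono hle
  have h3 := Subspace.finrank_add_finrank_dualAnnihilator_eq V2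
  rw [Module.finrank_fintype_fun_eq_card, Fintype.card_coe] at h3
  omega

/-- rank-nullity for evaluation on forms of degree `n` -/
theorem finrank_map_ev (Z : Finset (Fin 3 → K)) (n : ℕ)
    (W : Submodule K (MvPolynomial (Fin 3) K)) [Module.Finite K W]
    (hW : ∀ F ∈ homogeneousSubmodule (Fin 3) K n, (∀ u ∈ Z, eval u F = 0) → F ∈ W) :
    Module.finrank K (homogeneousSubmodule (Fin 3) K n) ≤
      Module.finrank K ((homogeneousSubmodule (Fin 3) K n).map (evZ Z)) + Module.finrank K W := by
  classical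
  have := finite_hom (K := K) n
  set E : homogeneousSubmodule (Fin 3) K n →ₗ[K] (Z → K) :=
    (evZ Z).domRestrict (homogeneousSubmodule (Fin 3) K n) with hE
  have h1 := LinearMap.finrank_range_add_finrank_ker E
  have h2 : LinearMap.range E = (homogeneousSubmodule (Fin 3) K n).map (evZ Z) := by
    rw [hE, LinearMap.range_domRestrict]
  have h3 : (LinearMap.ker E).map (homogeneousSubmodule (Fin 3) K n).subtype ≤ W := by
    rintro F ⟨G, hG, rfl⟩
    apply hW _ G.2
    intro u hu
    have hG' : E G = 0 := hG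
    have := congrFun hG' ⟨u, hu⟩
    simpa [hE] using this
  have h4 : Module.finrank K (LinearMap.ker E) =
      Module.finrank K ((LinearMap.ker E).map (homogeneousSubmodule (Fin 3) K n).subtype) :=
    (Submodule.equivMapOfInjective _ (Submodule.subtype_injective _) _).finrank_eq
  have h5 := Submodule.finrank_mono h3
  rw [← h2]
  omega

theorem code_dims {Z : Finset (Fin 3 → K)} {c : (Fin 3 → K) → K} (hc : ∀ u ∈ Z, c u ≠ 0)
    {k a b : ℕ} (hcode : Code Z c k) (hab : a + b = k) :
    Module.finrank K ((homogeneousSubmodule (Fin 3) K a).map (evZ Z)) +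
      Module.finrank K ((homogeneousSubmodule (Fin 3) K b).map (evZ Z)) ≤ Z.card := by
  apply orth_finrank hc
  rintro x ⟨F, hF, rfl⟩ y ⟨G, hG, rfl⟩
  have h1 := hcode (F * G) (hab ▸ IsHomogeneous.mul hF hG)
  rw [← h1, ← Finset.sum_coe_sort Z]
  apply Finset.sum_congr rfl
  intro u _
  simp

theorem MinForm.finrank_lt {Z : Finset (Fin 3 → K)} {T : MvPolynomial (Fin 3) K} {t : ℕ}
    (hT : MinForm Z T t) (n : ℕ) (hn : n < t) :
    (n + 1) * (n + 2) ≤ 2 * Module.finrank K ((homogeneousSubmodule (Fin 3) K n).map (evZ Z)) := by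
  have h1 := finrank_map_ev Z n (⊥ : Submodule K (MvPolynomial (Fin 3) K)) (by
    intro F hF hv
    rw [Submodule.mem_bot]
    by_contra h
    have := hT.min F n hF h hv
    omega)
  rw [finrank_bot, add_zero] at h1
  have h2 := two_finrank (K := K) n
  omega

theorem G3 {Z : Finset (Fin 3 → K)} (hZ : Pts Z) (hne : Z.Nonempty) {c : (Fin 3 → K) → K}
    (hc : ∀ u ∈ Z, c u ≠ 0) {k : ℕ} (hcode : Code Z c k) {T : MvPolynomial (Fin 3) K} {t : ℕ}
    (hT : MinForm Z T t) (h : k + 3 < 2 * t) : (k + 2) * (k + 4) ≤ 4 * Z.card := by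
  have _ := hZ
  have _ := hne
  rcases Nat.even_or_odd' k with ⟨m, rfl | rfl⟩
  · have h1 := hT.finrank_lt m (by omega)
    have h2 := code_dims hc hcode (a := m) (b := m) (by omega)
    nlinarith
  · have h1 := hT.finrank_lt m (by omega)
    have h3 := hT.finrank_lt (m + 1) (by omega)
    have h2 := code_dims hc hcode (a := m) (b := m + 1) (by omega)
    nlinarith

theorem G2 [IsAlgClosed K] {Z : Finset (Fin 3 → K)} (hZ : Pts Z) (hne : Z.Nonempty)
    {c : (Fin 3 → K) → K}
    (hc : ∀ u ∈ Z, c u ≠ 0) {k : ℕ} (hcode : Code Z c k) {T : MvPolynomial (Fin 3) K} {t : ℕ}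
    (hT : MinForm Z T t) (h : 2 * t ≤ k + 3) : t * (k + 3 - t) ≤ Z.card := by
  have ht1 := hT.pos hne
  have h1 := hT.finrank_lt (t - 1) (by omega)
  have h2 := code_dims hc hcode (a := t - 1) (b := k + 1 - t) (by omega)
  obtain ⟨s, rfl⟩ : ∃ s, t = s + 1 := ⟨t - 1, by omega⟩
  simp only [Nat.add_sub_cancel] at h1 h2
  by_cases hb : k + 1 - (s + 1) < s + 1
  · have h3 := hT.finrank_lt (k + 1 - (s + 1)) hb
    obtain ⟨e, he⟩ : ∃ e, k + 1 - (s + 1) = e := ⟨_, rfl⟩
    rw [he] at h2 h3 hb
    have hk : k = s + e := by omega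
    subst hk
    have h4 : s + e + 3 - (s + 1) = e + 2 := by omega
    rw [h4]
    have h5 : s ≤ e + 1 := by omega
    have h6 : e ≤ s := by omega
    rcases Nat.lt_or_ge s (e + 1) with h7 | h7
    · have : s = e := by omega
      subst this
      nlinarith
    · have : s = e + 1 := by omega
      subst this
      nlinarith
  · have hb' : s + 1 ≤ k + 1 - (s + 1) := by omega
    obtain ⟨e, he⟩ : ∃ e, k + 1 - (s + 1) = s + 1 + e := ⟨k + 1 - (s + 1) - (s + 1), by omega⟩
    rw [he] at h2
    have := finite_hom (K := K) e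
    have h3 := finrank_map_ev Z (s + 1 + e)
      ((homogeneousSubmodule (Fin 3) K e).map (LinearMap.mulLeft K T)) (by
        intro F hF hv
        obtain ⟨G, rfl⟩ := G1 hZ hne hc hcode hT F (s + 1 + e) hF hv (by omega)
        by_cases hG : G = 0
        · subst hG
          simp
        · obtain ⟨a, b, ha, hb, hab⟩ := hom_of_mul' hF hT.ne hG
          have h5 : a = s + 1 := ha.inj_right hT.hom hT.ne
          have h6 : b = e := by omega
          subst h6
          exact ⟨G, hb, by simp⟩)
    have h4 := Submodule.finrank_map_le (LinearMap.mulLeft K T)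
      (homogeneousSubmodule (Fin 3) K e)
    have h5 := two_finrank (K := K) e
    have h6 := two_finrank (K := K) (s + 1 + e)
    have hk : k = 2 * s + e + 1 := by omega
    subst hk
    have h7 : 2 * s + e + 1 + 3 - (s + 1) = s + e + 3 := by omega
    rw [h7]
    nlinarith

end Pool.Agent.Redei3
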