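import Pool.Agent.Work.MP_e263ba_co.PlaneG1
import Pool.Agent.Work.MP_e263ba_co.PlaneG2

/-! JOB P3: G1 - G4 and the good point (proved in `PlaneG1`, `PlaneG2`). -/
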