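import Pool.Agent.Work.MP_e263ba_co.Defs

/-! JOB P1a: dimension of the space of forms, factors of forms. -/

set_option autoImplicit false

namespace Pool.Agent.Redei3

open Finset MvPolynomial

variable {K : Type*} [Field K]

/-- dimension of the space of forms of degree `n` -/
theorem finrank_forms (n : ℕ) :
    Module.finrank K (homogeneousSubmodule (Fin 3) K n) = (n + 2).choose 2 := by
  classical
  rw [homogeneousSubmodule_eq_finsupp_supported]
  have e := AddMonoidAlgebra.supportedEquivFinsupp (R := K) (S := K)
    {d : Fin 3 →₀ ℕ | d.degree = n}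
  rw [e.finrank_eq]
  have hset : ({d : Fin 3 →₀ ℕ | d.degree = n}) =
      ((Finset.univ : Finset (Fin 3)).finsuppAntidiag n : Finset (Fin 3 →₀ ℕ)) := by
    ext d
    simp [Finset.mem_finsuppAntidiag, Finsupp.degree_eq_sum]
  rw [hset]
  rw [Module.finrank_finsupp_self]
  simp only [Finset.coe_sort_coe, Fintype.card_coe, Finset.card_finsuppAntidiag_nat_eq_choose,
    Finset.card_univ, Fintype.card_fin]
  have : 3 + n - 1 = n + 2 := by omega
  rw [this, Nat.choose_symm_add]

/-- `dim H_n = C(n+2,2)`. -/
theorem finrank_hom (n : ℕ) :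
    Module.finrank K (homogeneousSubmodule (Fin 3) K n) = (n + 1) * (n + 2) / 2 := by
  rw [finrank_forms, Nat.choose_two_right, mul_comm]
  rfl

theorem finite_hom (n : ℕ) : Module.Finite K (homogeneousSubmodule (Fin 3) K n) :=
  Module.Finite.iff_fg.mpr (homogeneousSubmodule_fg (Fin 3) K n)

/-- the substitution `X i ↦ X i * t`. -/
noncomputable def scaleHom : MvPolynomial (Fin 3) K →ₐ[K] Polynomial (MvPolynomial (Fin 3) K) :=
  aeval (fun i => Polynomial.C (X i) * Polynomial.X)

lemma scaleHom_monomial (d : Fin 3 →₀ ℕ) (a : K) :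
    scaleHom (monomial d a) = Polynomial.monomial d.degree (monomial d a) := by
  unfold scaleHom
  rw [aeval_monomial]
  have h1 : (d.prod fun i k => (Polynomial.C (X i : MvPolynomial (Fin 3) K) * Polynomial.X) ^ k)
      = Polynomial.C (monomial d (1 : K)) * Polynomial.X ^ d.degree := by
    simp only [mul_pow]
    rw [Finsupp.prod_mul, monomial_eq]
    simp only [map_one, one_mul]
    congr 1
    · rw [Finsupp.prod, Finsupp.prod, map_prod]
      simp
    · rw [Finsupp.prod, Finset.prod_pow_eq_pow_sum]
      rfl
  rw [h1]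
  have h2 : (algebraMap K (Polynomial (MvPolynomial (Fin 3) K))) a
      = Polynomial.C (C a) := rfl
  rw [h2, ← mul_assoc, ← map_mul, C_mul_monomial, mul_one, Polynomial.C_mul_X_pow_eq_monomial]

lemma coeff_scaleHom (F : MvPolynomial (Fin 3) K) (n : ℕ) :
    (scaleHom F).coeff n = homogeneousComponent n F := by
  classical
  induction F using MvPolynomial.induction_on' with
  | monomial d a =>
    rw [scaleHom_monomial, Polynomial.coeff_monomial]
    by_cases h : d.degree = n
    · rw [if_pos h]
      have : (monomial d a).IsHomogeneous n := isHomogeneous_monomial a h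
      rw [homogeneousComponent_of_mem this]
      simp
    · rw [if_neg h]
      have : (monomial d a).IsHomogeneous d.degree := isHomogeneous_monomial a rfl
      rw [homogeneousComponent_of_mem this]
      rw [if_neg]
      exact fun h' => h h'.symm
  | add p q hp hq => rw [map_add, Polynomial.coeff_add, hp, hq, map_add]

lemma scaleHom_of_hom {F : MvPolynomial (Fin 3) K} {n : ℕ} (h : F.IsHomogeneous n) :
    scaleHom F = Polynomial.monomial n F := by
  ext1 m
  rw [coeff_scaleHom, Polynomial.coeff_monomial, homogeneousComponent_of_mem h]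
  simp only [eq_comm]

/-- factors of a nonzero homogeneous polynomial are homogeneous -/
theorem hom_of_mul' {F G : MvPolynomial (Fin 3) K} {n : ℕ} (h : (F * G).IsHomogeneous n)
    (hF : F ≠ 0) (hG : G ≠ 0) : ∃ a b, F.IsHomogeneous a ∧ G.IsHomogeneous b ∧ a + b = n := by
  classical
  have hsum : ∀ P : MvPolynomial (Fin 3) K, (∀ i, (scaleHom P).coeff i = 0) → P = 0 := by
    intro P hP
    rw [← sum_homogeneousComponent P]
    apply Finset.sum_eq_zero
    intro i _
    rw [← coeff_scaleHom]; exact hP i
  have hne : ∀ P : MvPolynomial (Fin 3) K, P ≠ 0 → scaleHom P ≠ 0 := by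
    intro P hP h0
    apply hP
    apply hsum
    intro i; rw [h0]; simp
  have key : ∀ P : MvPolynomial (Fin 3) K, P ≠ 0 →
      (scaleHom P).natTrailingDegree = (scaleHom P).natDegree →
      P.IsHomogeneous (scaleHom P).natDegree := by
    intro P hP hPP
    have : P = homogeneousComponent (scaleHom P).natDegree P := by
      have h2 : P - homogeneousComponent (scaleHom P).natDegree P = 0 := by
        apply hsum
        intro i
        rw [coeff_scaleHom, map_sub, homogeneousComponent_of_mem
          (homogeneousComponent_isHomogeneous (scaleHom P).natDegree P)]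
        split_ifs with hi
        · rw [hi, sub_self]
        · rw [sub_zero, ← coeff_scaleHom]
          rcases lt_or_gt_of_ne hi with h | h
          · apply Polynomial.coeff_eq_zero_of_lt_natTrailingDegree
            rw [hPP]; exact h
          · exact Polynomial.coeff_eq_zero_of_natDegree_lt h
      exact sub_eq_zero.mp h2
    rw [this]
    have h3 := homogeneousComponent_isHomogeneous (scaleHom P).natDegree P
    rw [← this] at h3 ⊢
    exact h3
  have hFG : F * G ≠ 0 := mul_ne_zero hF hG
  have h1 : scaleHom F * scaleHom G = Polynomial.monomial n (F * G) := by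
    rw [← map_mul, scaleHom_of_hom h]
  have h2 : (scaleHom F).natDegree + (scaleHom G).natDegree = n := by
    rw [← Polynomial.natDegree_mul (hne F hF) (hne G hG), h1, Polynomial.natDegree_monomial,
      if_neg hFG]
  have h3 : (scaleHom F).natTrailingDegree + (scaleHom G).natTrailingDegree = n := by
    rw [← Polynomial.natTrailingDegree_mul (hne F hF) (hne G hG), h1,
      Polynomial.natTrailingDegree_monomial hFG]
  have h4 := Polynomial.natTrailingDegree_le_natDegree (scaleHom F)
  have h5 := Polynomial.natTrailingDegree_le_natDegree (scaleHom G)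
  exact ⟨_, _, key F hF (by omega), key G hG (by omega), h2⟩

/-- factors of a nonzero form are forms. -/
theorem hom_of_mul (F G : MvPolynomial (Fin 3) K) (n : ℕ) (h : (F * G).IsHomogeneous n)
    (hne : F * G ≠ 0) : ∃ a b, F.IsHomogeneous a ∧ G.IsHomogeneous b ∧ a + b = n :=
  hom_of_mul' h (left_ne_zero_of_mul hne) (right_ne_zero_of_mul hne)

theorem hom_of_dvd {F G : MvPolynomial (Fin 3) K} {n : ℕ} (h : G.IsHomogeneous n) (hG : G ≠ 0)
    (hd : F ∣ G) : ∃ a b H, F.IsHomogeneous a ∧ H.IsHomogeneous b ∧ a + b = n ∧ G = F * H := by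
  obtain ⟨H, rfl⟩ := hd
  obtain ⟨a, b, h1, h2, h3⟩ := hom_of_mul' h (left_ne_zero_of_mul hG) (right_ne_zero_of_mul hG)
  exact ⟨a, b, H, h1, h2, h3, rfl⟩

/-- a form of degree `n` scales. -/
theorem eval_smul_hom (F : MvPolynomial (Fin 3) K) (n : ℕ) (h : F.IsHomogeneous n)
    (c : K) (u : Fin 3 → K) : eval (c • u) F = c ^ n * eval u F := by
  rw [eval_eq, eval_eq, Finset.mul_sum]
  apply Finset.sum_congr rfl
  intro d hd
  have hdeg : ∑ i ∈ d.support, d i = n := (h.degree_eq_sum_deg_support hd).symm
  simp only [Pi.smul_apply, smul_eq_mul, mul_pow]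
  rw [Finset.prod_mul_distrib, Finset.prod_pow_eq_pow_sum, hdeg]
  ring

end Pool.Agent.Redei3
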