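import Pool.Agent.Work.MP_e263ba_co.CI

/-! squarefreeness of minimal forms, G1. -/

set_option autoImplicit false

namespace Pool.Agent.Redei3

open Finset MvPolynomial

variable {K : Type*} [Field K]

theorem exists_irreducible_not_dvd {R : Type*} [CommRing R] [IsDomain R]
    [UniqueFactorizationMonoid R] {T S : R} (hsq : Squarefree T) (hT0 : T ≠ 0) (h : ¬ T ∣ S) :
    ∃ q, Irreducible q ∧ q ∣ T ∧ ¬ q ∣ S := by
  obtain ⟨a, b, c, hab, ha, hb⟩ := UniqueFactorizationMonoid.exists_reduced_factors T hT0 S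
  have ha0 : a ≠ 0 := by rintro rfl; exact hT0 (by rw [← ha, mul_zero])
  have hau : ¬ IsUnit a := by
    intro hu
    apply h
    rw [← ha, ← hb]
    exact mul_dvd_mul_left c hu.dvd
  obtain ⟨q, hq, hqa⟩ := WfDvdMonoid.exists_irreducible_factor hau ha0
  refine ⟨q, hq, hqa.trans ⟨c, by rw [← ha, mul_comm]⟩, ?_⟩
  intro hqS
  rw [← hb] at hqS
  rcases hq.prime.dvd_or_dvd hqS with h1 | h1
  · apply hq.not_isUnit
    apply hsq
    rw [← ha]
    exact mul_dvd_mul h1 hqa
  · exact hq.not_isUnit (hab hqa h1)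

/-- a nonzero form of degree `0` is a unit -/
theorem isUnit_of_hom_zero {F : MvPolynomial (Fin 3) K} (h : F.IsHomogeneous 0) (h0 : F ≠ 0) :
    IsUnit F := by
  rw [← totalDegree_zero_iff_isHomogeneous, totalDegree_eq_zero_iff_eq_C] at h
  rw [h]
  rw [h] at h0
  exact (isUnit_iff_ne_zero.mpr (fun h1 => h0 (by rw [h1, map_zero]))).map C

theorem MinForm.pos {Z : Finset (Fin 3 → K)} {T : MvPolynomial (Fin 3) K} {t : ℕ}
    (hT : MinForm Z T t) (hne : Z.Nonempty) : 1 ≤ t := by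
  by_contra h
  have h0 : t = 0 := by omega
  subst h0
  obtain ⟨u, hu⟩ := hne
  have h1 := isUnit_of_hom_zero hT.hom hT.ne
  have h2 := (h1.map (eval u)).ne_zero
  exact h2 (hT.van u hu)

theorem MinForm.squarefree {Z : Finset (Fin 3 → K)} {T : MvPolynomial (Fin 3) K} {t : ℕ}
    (hT : MinForm Z T t) : Squarefree T := by
  intro x hx
  obtain ⟨Q, hQ⟩ := hx
  have hxd : x ∣ T := ⟨x * Q, by rw [hQ, mul_assoc]⟩
  obtain ⟨a, b, H, ha, hb, hab, hTH⟩ := hom_of_dvd hT.hom hT.ne hxd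
  have hx0 : x ≠ 0 := by rintro rfl; exact hT.ne (by rw [hTH, zero_mul])
  have hH0 : H ≠ 0 := by rintro rfl; exact hT.ne (by rw [hTH, mul_zero])
  have hHxQ : H = x * Q := by
    apply mul_left_cancel₀ hx0
    rw [← hTH, hQ, mul_assoc]
  have hvan : ∀ u ∈ Z, eval u H = 0 := by
    intro u hu
    have := hT.van u hu
    rw [hQ, map_mul, map_mul] at this
    rw [hHxQ, map_mul]
    rcases mul_eq_zero.mp this with h | h
    · rcases mul_eq_zero.mp h with h | h <;> rw [h, zero_mul]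
    · rw [h, mul_zero]
  have := hT.min H b hb hH0 hvan
  have ha0 : a = 0 := by omega
  subst ha0
  exact isUnit_of_hom_zero ha hx0

theorem G1 [IsAlgClosed K] {Z : Finset (Fin 3 → K)} (hZ : Pts Z) (hne : Z.Nonempty)
    {c : (Fin 3 → K) → K}
    (hc : ∀ u ∈ Z, c u ≠ 0) {k : ℕ} (hcode : Code Z c k) {T : MvPolynomial (Fin 3) K} {t : ℕ}
    (hT : MinForm Z T t) (S : MvPolynomial (Fin 3) K) (s : ℕ) (hS : S.IsHomogeneous s)
    (hvan : ∀ u ∈ Z, eval u S = 0) (hdeg : s + t ≤ k + 2) : T ∣ S := by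
  by_contra hTS
  have hS0 : S ≠ 0 := by rintro rfl; exact hTS (dvd_zero _)
  obtain ⟨q, hq, hqT, hqS⟩ := exists_irreducible_not_dvd hT.squarefree hT.ne hTS
  obtain ⟨a, b, Q, ha, hb, hab, hTQ⟩ := hom_of_dvd hT.hom hT.ne hqT
  have hQ0 : Q ≠ 0 := by rintro rfl; exact hT.ne (by rw [hTQ, mul_zero])
  have ha1 : 1 ≤ a := by
    by_contra h
    have h0 : a = 0 := by omega
    subst h0
    exact hq.not_isUnit (isUnit_of_hom_zero ha hq.ne_zero)
  have hs1 : 1 ≤ s := by
    by_contra h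
    have h0 : s = 0 := by omega
    subst h0
    obtain ⟨u, hu⟩ := hne
    have h1 := isUnit_of_hom_zero hS hS0
    exact (h1.map (eval u)).ne_zero (hvan u hu)
  have hcode2 : Code Z (fun u => c u * eval u Q) (k - b) := hcode.mul hb (by omega)
  have hzero := CI q S a s (k - b) ha hS hq.ne_zero hS0
    (hq.isRelPrime_iff_not_dvd.mpr hqS) ha1 hs1 (by omega) Z hZ _ (by
      intro u hu h
      refine ⟨?_, hvan u hu⟩
      have h1 := hT.van u hu
      rw [hTQ, map_mul] at h1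
      exact (mul_eq_zero.mp h1).resolve_right (right_ne_zero_of_mul h)) hcode2
  have := hT.min Q b hb hQ0 (fun u hu => (mul_eq_zero.mp (hzero u hu)).resolve_left (hc u hu))
  omega

open Classical in
theorem G4 {Z : Finset (Fin 3 → K)} (hZ : Pts Z) (hne : Z.Nonempty) {c : (Fin 3 → K) → K}
    (hc : ∀ u ∈ Z, c u ≠ 0) {k : ℕ} (hcode : Code Z c k) {T : MvPolynomial (Fin 3) K} {t : ℕ}
    (hT : MinForm Z T t) (L : MvPolynomial (Fin 3) K) (hL : L.IsHomogeneous 1) (hLT : L ∣ T)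
    (htk : t ≤ k + 1) : k + 3 - t ≤ (Z.filter (fun u => eval u L = 0)).card := by
  have _ := hne
  obtain ⟨a, b, Q, ha, hb, hab, hTLQ⟩ := hom_of_dvd hT.hom hT.ne hLT
  have hL0 : L ≠ 0 := by rintro rfl; rw [zero_mul] at hTLQ; exact hT.ne hTLQ
  have hQ0 : Q ≠ 0 := by rintro rfl; rw [mul_zero] at hTLQ; exact hT.ne hTLQ
  have ha1 : a = 1 := ha.inj_right hL hL0
  subst ha1
  have hQZ : ∃ u ∈ Z, eval u Q ≠ 0 := by
    by_contra hcon
    push Not at hcon
    have := hT.min Q b hb hQ0 hcon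
    omega
  set W := Z.filter (fun u => eval u Q ≠ 0) with hW
  have hWZ : W ⊆ Z := Finset.filter_subset _ _
  have hcode1 : Code Z (fun u => c u * eval u Q) (k - b) := hcode.mul hb (by omega)
  have hcode2 : Code W (fun u => c u * eval u Q) (k - b) := by
    apply hcode1.support W hWZ
    intro u hu huW
    have : eval u Q = 0 := by
      by_contra h
      exact huW (Finset.mem_filter.mpr ⟨hu, h⟩)
    simp only [this, mul_zero]
  have h1 : k - b + 2 ≤ W.card := by
    apply G0 W (hZ.mono hWZ) _ _ _ _ hcode2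
    · obtain ⟨u, hu, hu2⟩ := hQZ
      exact ⟨u, Finset.mem_filter.mpr ⟨hu, hu2⟩⟩
    · intro u hu
      exact mul_ne_zero (hc u (hWZ hu)) (Finset.mem_filter.mp hu).2
  have h2 : W ⊆ Z.filter (fun u => eval u L = 0) := by
    intro u hu
    rw [hW, Finset.mem_filter] at hu
    rw [Finset.mem_filter]
    refine ⟨hu.1, ?_⟩
    have := hT.van u hu.1
    rw [hTLQ, map_mul] at this
    rcases mul_eq_zero.mp this with h | h
    · exact h
    · exact absurd h hu.2
  have h3 := Finset.card_le_card h2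
  omega

theorem exists_good_point [IsAlgClosed K] {q : ℕ} [CharP K q] {Z : Finset (Fin 3 → K)}
    (hZ : Pts Z)
    (hne : Z.Nonempty) {c : (Fin 3 → K) → K}
    (hc : ∀ u ∈ Z, c u ≠ 0) {k : ℕ} (hcode : Code Z c k) {T : MvPolynomial (Fin 3) K} {t : ℕ}
    (hT : MinForm Z T t) (htq : t < q) (G : MvPolynomial (Fin 3) K) (g : ℕ)
    (hG : G.IsHomogeneous g) (hdeg : (t - 1) + g + t ≤ k + 2) (hTG : ¬ T ∣ G) :
    ∃ u ∈ Z, (∃ j, eval u (pderiv j T) ≠ 0) ∧ eval u G ≠ 0 := by
  by_contra hcon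
  push Not at hcon
  have hdvd : ∀ j, T ∣ pderiv j T * G := by
    intro j
    apply G1 hZ hne hc hcode hT (pderiv j T * G) ((t - 1) + g) (hT.hom.pderiv.mul hG) _ hdeg
    intro u hu
    rw [map_mul]
    by_cases h : eval u (pderiv j T) = 0
    · rw [h, zero_mul]
    · rw [hcon u hu ⟨j, h⟩, mul_zero]
  obtain ⟨π, hπ, hπT, hπG⟩ := exists_irreducible_not_dvd hT.squarefree hT.ne hTG
  obtain ⟨a, b, Q, ha, hb, hab, hTQ⟩ := hom_of_dvd hT.hom hT.ne hπT
  have hπQ : ¬ π ∣ Q := by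
    intro h
    apply hπ.not_isUnit
    apply hT.squarefree
    rw [hTQ]
    exact mul_dvd_mul_left π h
  have hder : ∀ j, pderiv j π = 0 := by
    intro j
    have h1 : π ∣ pderiv j T * G := hπT.trans (hdvd j)
    have h2 : π ∣ pderiv j T := (hπ.prime.dvd_or_dvd h1).resolve_right hπG
    rw [hTQ, (pderiv j).leibniz, smul_eq_mul, smul_eq_mul] at h2
    have h3 : π ∣ Q * pderiv j π := (dvd_add_right (Dvd.intro _ rfl)).mp h2
    have h4 : π ∣ pderiv j π := (hπ.prime.dvd_or_dvd h3).resolve_left hπQ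
    by_contra hne0
    obtain ⟨a', b', H, ha', hb', hab', hH⟩ := hom_of_dvd ha.pderiv hne0 h4
    have : a' = a := ha'.inj_right ha hπ.ne_zero
    have ha1 : 1 ≤ a := by
      by_contra h
      have h0 : a = 0 := by omega
      subst h0
      exact hπ.not_isUnit (isUnit_of_hom_zero ha hπ.ne_zero)
    omega
  have heuler := ha.sum_X_mul_pderiv
  simp only [hder, mul_zero, Finset.sum_const_zero] at heuler
  have ha1 : 1 ≤ a := by
    by_contra h
    have h0 : a = 0 := by omega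
    subst h0
    exact hπ.not_isUnit (isUnit_of_hom_zero ha hπ.ne_zero)
  have h5 : (a : K) ≠ 0 := by
    rw [Ne, CharP.cast_eq_zero_iff K q a]
    intro h
    have := Nat.le_of_dvd (by omega) h
    omega
  have h6 : (a • π : MvPolynomial (Fin 3) K) = C (a : K) * π := by
    rw [nsmul_eq_mul]
    simp
  rw [h6] at heuler
  rcases mul_eq_zero.mp heuler.symm with h | h
  · rw [C_eq_zero] at h
    exact h5 h
  · exact hπ.ne_zero h

end Pool.Agent.Redei3
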