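import Pool.Agent.Work.MP_e263ba_co.FunDeg

/-! JOB B3: the tight case `r = 2`, function level. -/

set_option autoImplicit false
set_option linter.unusedSectionVars false

namespace Pool.Agent.Redei3

open Finset Polynomial

variable {p : ℕ} [Fact p.Prime] {K : Type*} [Field K] [Algebra (ZMod p) K]

namespace TightAux

/-- the coordinate function. -/
noncomputable def xi : ZMod p → K := fun x => algebraMap (ZMod p) K x

/-- span of the monomials of degree `≤ e`. -/
noncomputable def W (φ ψ : ZMod p → K) (e : ℕ) : Submodule K (ZMod p → K) :=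
  Submodule.span K {g | ∃ i j l : ℕ, i + j + l ≤ e ∧ g = xi ^ i * φ ^ j * ψ ^ l}

variable {φ ψ : ZMod p → K}

theorem W_mono {e e' : ℕ} (h : e ≤ e') {f : ZMod p → K} (hf : f ∈ W φ ψ e) : f ∈ W φ ψ e' := by
  refine Submodule.span_mono ?_ hf
  rintro g ⟨i, j, l, hijl, rfl⟩
  exact ⟨i, j, l, by omega, rfl⟩

theorem W_mul {e e' : ℕ} {f g : ZMod p → K} (hf : f ∈ W φ ψ e) (hg : g ∈ W φ ψ e') :
    f * g ∈ W φ ψ (e + e') := by
  have h := Submodule.mul_mem_mul hf hg
  rw [W, W, Submodule.span_mul_span] at h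
  refine Submodule.span_mono ?_ h
  rintro _ ⟨a, ⟨i, j, l, h1, rfl⟩, b, ⟨i', j', l', h2, rfl⟩, rfl⟩
  exact ⟨i + i', j + j', l + l', by omega, by simp only [pow_add]; ring⟩

theorem W_mul' {e e' n : ℕ} (hn : e + e' ≤ n) {f g : ZMod p → K} (hf : f ∈ W φ ψ e)
    (hg : g ∈ W φ ψ e') : f * g ∈ W φ ψ n :=
  W_mono hn (W_mul hf hg)

theorem W_mon (i j l e : ℕ) (h : i + j + l ≤ e) : (xi ^ i * φ ^ j * ψ ^ l : ZMod p → K) ∈ W φ ψ e :=
  Submodule.subset_span ⟨i, j, l, h, rfl⟩

theorem W_one (e : ℕ) : (1 : ZMod p → K) ∈ W φ ψ e := by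
  simpa using W_mon (φ := φ) (ψ := ψ) 0 0 0 e (by omega)

theorem W_xi : (xi : ZMod p → K) ∈ W φ ψ 1 := by
  simpa using W_mon (φ := φ) (ψ := ψ) 1 0 0 1 (by omega)

theorem W_phi : φ ∈ W φ ψ 1 := by
  simpa using W_mon (φ := φ) (ψ := ψ) 0 1 0 1 (by omega)

theorem W_psi : ψ ∈ W φ ψ 1 := by
  simpa using W_mon (φ := φ) (ψ := ψ) 0 0 1 1 (by omega)

theorem W_pow {e : ℕ} {f : ZMod p → K} (hf : f ∈ W φ ψ e) (n : ℕ) : f ^ n ∈ W φ ψ (e * n) := by
  induction n with
  | zero => simpa using W_one 0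
  | succ n ih =>
    rw [pow_succ]
    have := W_mul ih hf
    rwa [show e * n + e = e * (n + 1) by ring] at this

theorem W_sum {t : ℕ} (hM : ∀ i j l, i + j + l < t →
      ∑ x : ZMod p, (algebraMap (ZMod p) K x) ^ i * φ x ^ j * ψ x ^ l = 0)
    {e : ℕ} (he : e < t) {f : ZMod p → K} (hf : f ∈ W φ ψ e) : ∑ x, f x = 0 := by
  refine Submodule.span_induction ?_ ?_ ?_ ?_ hf
  · rintro g ⟨i, j, l, hijl, rfl⟩
    have := hM i j l (by omega)
    simpa [xi] using this
  · simp
  · intro f g _ _ hf hg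
    simp only [Pi.add_apply, Finset.sum_add_distrib, hf, hg, add_zero]
  · intro c f _ hf
    simp only [Pi.smul_apply, smul_eq_mul, ← Finset.mul_sum, hf, mul_zero]

theorem sum_mul_eq (F G : K[X]) (h : F.natDegree + G.natDegree = p - 1) :
    ∑ x : ZMod p, F.eval (algebraMap (ZMod p) K x) * G.eval (algebraMap (ZMod p) K x)
      = - (F.leadingCoeff * G.leadingCoeff) := by
  have h1 : ∀ x : ZMod p, F.eval (algebraMap (ZMod p) K x) * G.eval (algebraMap (ZMod p) K x)
      = (F * G).eval (algebraMap (ZMod p) K x) := fun x => by rw [eval_mul]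
  simp only [h1]
  rw [sum_eval_le _ (natDegree_mul_le.trans h.le), ← h, coeff_mul_degree_add_degree]

/-- the possible degrees of the elements of `W_2`. -/
theorem deg_W2 {t : ℕ} (hp : p + 1 = 3 * t) (ht : 4 ≤ t)
    (hM : ∀ i j l, i + j + l < t →
      ∑ x : ZMod p, (algebraMap (ZMod p) K x) ^ i * φ x ^ j * ψ x ^ l = 0)
    (hφ : (pol φ).natDegree = t) (hψ : (pol ψ).natDegree = 2 * t - 1)
    (f : ZMod p → K) (hf : f ∈ W φ ψ 2) :
    (pol f).natDegree = 0 ∨ (pol f).natDegree = 1 ∨ (pol f).natDegree = 2 ∨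
      (pol f).natDegree = t ∨ (pol f).natDegree = t + 1 ∨ (pol f).natDegree = 2 * t - 1 ∨
      (pol f).natDegree = 2 * t := by
  obtain ⟨D, hD⟩ : ∃ D, (pol f).natDegree = D := ⟨_, rfl⟩
  rw [hD]
  by_contra hcon
  push Not at hcon
  obtain ⟨h0, h1, h2, h3, h4, h5, h6⟩ := hcon
  have hDp := pol_natDegree_le f
  rw [hD] at hDp
  have hf0 : (pol f).leadingCoeff ≠ 0 := by
    intro h
    rw [leadingCoeff_eq_zero] at h
    rw [h, natDegree_zero] at hD
    omega
  have key : ∀ (G : K[X]) (g : ZMod p → K) (e : ℕ), e + 2 < t → g ∈ W φ ψ e →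
      (∀ x, G.eval (algebraMap (ZMod p) K x) = g x) → G ≠ 0 → G.natDegree + D = p - 1 →
      False := by
    intro G g e he hg hGg hG0 hGD
    have h7 := sum_mul_eq G (pol f) (by rw [hD]; exact hGD)
    have h8 : ∑ x : ZMod p, (g * f) x = 0 := W_sum hM (by omega) (W_mul hg hf)
    rw [Finset.sum_congr rfl (g := fun x => (g * f) x) (by
      intro x _; rw [hGg, pol_eval]; rfl), h8] at h7
    have h9 := neg_eq_zero.mp h7.symm
    rcases mul_eq_zero.mp h9 with h | h
    · exact hG0 (leadingCoeff_eq_zero.mp h)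
    · exact hf0 h
  have hφ0 : pol φ ≠ 0 := by intro h; rw [h, natDegree_zero] at hφ; omega
  have hψ0 : pol ψ ≠ 0 := by intro h; rw [h, natDegree_zero] at hψ; omega
  have hxi : ∀ i : ℕ, (xi ^ i : ZMod p → K) ∈ W φ ψ i := by
    intro i; simpa using W_mon (φ := φ) (ψ := ψ) i 0 0 i (by omega)
  have hcase : (2 * t + 1 ≤ D) ∨ (t + 2 ≤ D ∧ D ≤ 2 * t - 2) ∨ (3 ≤ D ∧ D ≤ t - 1) := by omega
  rcases hcase with h | ⟨h, h'⟩ | ⟨h, h'⟩
  · apply key (X ^ (3 * t - 2 - D)) (xi ^ (3 * t - 2 - D)) (3 * t - 2 - D) (by omega) (hxi _)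
    · intro x; simp [xi]
    · exact pow_ne_zero _ X_ne_zero
    · rw [natDegree_X_pow]; omega
  · apply key (X ^ (2 * t - 2 - D) * pol φ) (xi ^ (2 * t - 2 - D) * φ) (2 * t - 2 - D + 1)
      (by omega) (W_mul (hxi _) W_phi)
    · intro x; simp [xi, pol_eval]
    · exact mul_ne_zero (pow_ne_zero _ X_ne_zero) hφ0
    · rw [natDegree_mul (pow_ne_zero _ X_ne_zero) hφ0, natDegree_X_pow, hφ]; omega
  · apply key (X ^ (t - 1 - D) * pol ψ) (xi ^ (t - 1 - D) * ψ) (t - 1 - D + 1)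
      (by omega) (W_mul (hxi _) W_psi)
    · intro x; simp [xi, pol_eval]
    · exact mul_ne_zero (pow_ne_zero _ X_ne_zero) hψ0
    · rw [natDegree_mul (pow_ne_zero _ X_ne_zero) hψ0, natDegree_X_pow, hψ]; omega

/-- the seven functions. -/
noncomputable def v7 (φ ψ : ZMod p → K) : Fin 7 → (ZMod p → K) :=
  ![1, xi, xi ^ 2, φ, xi * φ, ψ, xi * ψ]

theorem pol_xi (hp : 2 ≤ p) : pol (xi : ZMod p → K) = X := by
  apply pol_eq_of_eval
  · rw [natDegree_X]; omega
  · intro x; simp [xi]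

theorem pol_one (hp : 2 ≤ p) : pol (1 : ZMod p → K) = 1 := by
  apply pol_eq_of_eval
  · rw [natDegree_one]; omega
  · intro x; simp

theorem mem_S7 {t : ℕ} (hp : p + 1 = 3 * t) (ht : 4 ≤ t)
    (hM : ∀ i j l, i + j + l < t →
      ∑ x : ZMod p, (algebraMap (ZMod p) K x) ^ i * φ x ^ j * ψ x ^ l = 0)
    (hφ : (pol φ).natDegree = t) (hψ : (pol ψ).natDegree = 2 * t - 1)
    (f : ZMod p → K) (hf : f ∈ W φ ψ 2) : f ∈ Submodule.span K (Set.range (v7 φ ψ)) := by
  have hv : ∀ i g, v7 φ ψ i = g → g ∈ Submodule.span K (Set.range (v7 φ ψ)) :=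
    fun i g h => Submodule.subset_span ⟨i, h⟩
  have hv0 : (1 : ZMod p → K) ∈ Submodule.span K (Set.range (v7 φ ψ)) := hv 0 _ rfl
  have hv1 : (xi : ZMod p → K) ∈ Submodule.span K (Set.range (v7 φ ψ)) := hv 1 _ rfl
  have hv2 : (xi ^ 2 : ZMod p → K) ∈ Submodule.span K (Set.range (v7 φ ψ)) := hv 2 _ rfl
  have hv3 : φ ∈ Submodule.span K (Set.range (v7 φ ψ)) := hv 3 _ rfl
  have hv4 : xi * φ ∈ Submodule.span K (Set.range (v7 φ ψ)) := hv 4 _ rfl
  have hv5 : ψ ∈ Submodule.span K (Set.range (v7 φ ψ)) := hv 5 _ rfl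
  have hv6 : xi * ψ ∈ Submodule.span K (Set.range (v7 φ ψ)) := hv 6 _ rfl
  have hw1 : (xi : ZMod p → K) ∈ W φ ψ 2 := W_mono (by omega) W_xi
  have hw2 : (xi ^ 2 : ZMod p → K) ∈ W φ ψ 2 := by
    simpa using W_mon (φ := φ) (ψ := ψ) 2 0 0 2 (by omega)
  have hw3 : φ ∈ W φ ψ 2 := W_mono (by omega) W_phi
  have hw4 : xi * φ ∈ W φ ψ 2 := by
    simpa using W_mon (φ := φ) (ψ := ψ) 1 1 0 2 (by omega)
  have hw5 : ψ ∈ W φ ψ 2 := W_mono (by omega) W_psi
  have hw6 : xi * ψ ∈ W φ ψ 2 := by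
    simpa using W_mon (φ := φ) (ψ := ψ) 1 0 1 2 (by omega)
  have hφ0 : pol φ ≠ 0 := by intro h; rw [h, natDegree_zero] at hφ; omega
  have hψ0 : pol ψ ≠ 0 := by intro h; rw [h, natDegree_zero] at hψ; omega
  have hpx : pol (xi : ZMod p → K) = X := pol_xi (by omega)
  have hp1 : pol (1 : ZMod p → K) = 1 := pol_one (by omega)
  have hpx2 : pol (xi ^ 2 : ZMod p → K) = X ^ 2 := by
    rw [pol_pow _ 2 (by rw [hpx, natDegree_X]; omega), hpx]
  have hpxφ : pol (xi * φ) = X * pol φ := by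
    rw [pol_mul _ _ (by rw [hpx, natDegree_X, hφ]; omega), hpx]
  have hpxψ : pol (xi * ψ) = X * pol ψ := by
    rw [pol_mul _ _ (by rw [hpx, natDegree_X, hψ]; omega), hpx]
  -- reduction
  have main : ∀ D : ℕ, ∀ f : ZMod p → K, f ∈ W φ ψ 2 → (pol f).natDegree ≤ D →
      f ∈ Submodule.span K (Set.range (v7 φ ψ)) := by
    intro D
    induction D using Nat.strong_induction_on with
    | _ D ih =>
      intro f hf hfD
      have step : ∀ g : ZMod p → K, g ∈ Submodule.span K (Set.range (v7 φ ψ)) → g ∈ W φ ψ 2 →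
          pol g ≠ 0 → (pol g).natDegree = (pol f).natDegree → 1 ≤ (pol f).natDegree →
          f ∈ Submodule.span K (Set.range (v7 φ ψ)) := by
        intro g hg hgW hg0 hgf hf1
        have hf0 : pol f ≠ 0 := by intro h; rw [h, natDegree_zero] at hf1; omega
        obtain ⟨c, hc⟩ : ∃ c, c = (pol f).leadingCoeff / (pol g).leadingCoeff := ⟨_, rfl⟩
        have hglc : (pol g).leadingCoeff ≠ 0 := by rwa [Ne, leadingCoeff_eq_zero]
        have hflc : (pol f).leadingCoeff ≠ 0 := by rwa [Ne, leadingCoeff_eq_zero]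
        have hc0 : c ≠ 0 := by rw [hc]; exact div_ne_zero hflc hglc
        have h1 : (pol (f - c • g)).degree < (pol f).degree := by
          rw [pol_sub, pol_smul]
          apply degree_sub_lt_left
          · rw [degree_C_mul hc0, degree_eq_natDegree hf0, degree_eq_natDegree hg0, hgf]
          · exact hf0
          · rw [leadingCoeff_mul, leadingCoeff_C, hc]
            field_simp
        have h2 : (pol (f - c • g)).natDegree < (pol f).natDegree := by
          by_cases h0 : pol (f - c • g) = 0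
          · rw [h0, natDegree_zero]; omega
          · exact natDegree_lt_natDegree h0 h1
        have h3 := ih (pol (f - c • g)).natDegree (by omega) (f - c • g)
          (Submodule.sub_mem _ hf (Submodule.smul_mem _ c hgW)) le_rfl
        have h4 : f = (f - c • g) + c • g := by rw [sub_add_cancel]
        rw [h4]
        exact Submodule.add_mem _ h3 (Submodule.smul_mem _ c hg)
      rcases deg_W2 hp ht hM hφ hψ f hf with h | h | h | h | h | h | h
      · -- constant
        have h1 : pol f = C ((pol f).coeff 0) := eq_C_of_natDegree_eq_zero h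
        have h2 : f = ((pol f).coeff 0) • (1 : ZMod p → K) := by
          apply pol_ext
          rw [pol_smul, hp1, mul_one]; exact h1
        rw [h2]
        exact Submodule.smul_mem _ _ hv0
      · exact step xi hv1 hw1 (by rw [hpx]; exact X_ne_zero)
          (by rw [hpx, natDegree_X, h]) (by omega)
      · exact step (xi ^ 2) hv2 hw2 (by rw [hpx2]; exact pow_ne_zero _ X_ne_zero)
          (by rw [hpx2, natDegree_X_pow, h]) (by omega)
      · exact step φ hv3 hw3 hφ0 (by rw [hφ, h]) (by omega)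
      · exact step (xi * φ) hv4 hw4
          (by rw [hpxφ]; exact mul_ne_zero X_ne_zero hφ0)
          (by rw [hpxφ, natDegree_mul X_ne_zero hφ0, natDegree_X, hφ, h]; omega) (by omega)
      · exact step ψ hv5 hw5 hψ0 (by rw [hψ, h]) (by omega)
      · exact step (xi * ψ) hv6 hw6
          (by rw [hpxψ]; exact mul_ne_zero X_ne_zero hψ0)
          (by rw [hpxψ, natDegree_mul X_ne_zero hψ0, natDegree_X, hψ, h]; omega) (by omega)
  exact main _ f hf le_rfl

theorem exists_coeffs {t : ℕ} (hp : p + 1 = 3 * t) (ht : 4 ≤ t)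
    (hM : ∀ i j l, i + j + l < t →
      ∑ x : ZMod p, (algebraMap (ZMod p) K x) ^ i * φ x ^ j * ψ x ^ l = 0)
    (hφ : (pol φ).natDegree = t) (hψ : (pol ψ).natDegree = 2 * t - 1)
    (f : ZMod p → K) (hf : f ∈ W φ ψ 2) :
    ∃ c0 c1 c2 c3 c4 c5 c6 : K, pol f = C c0 + C c1 * X + C c2 * X ^ 2 + (C c3 + C c4 * X) * pol φ
      + (C c5 + C c6 * X) * pol ψ := by
  have h := mem_S7 hp ht hM hφ hψ f hf
  rw [Submodule.mem_span_range_iff_exists_fun] at h
  obtain ⟨c, hc⟩ := h
  refine ⟨c 0, c 1, c 2, c 3, c 4, c 5, c 6, ?_⟩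
  apply pol_eq_of_eval
  · have h1 : (C (c 0) + C (c 1) * X + C (c 2) * X ^ 2 : K[X]).natDegree ≤ 2 := by compute_degree
    have h2 : (C (c 3) + C (c 4) * X : K[X]).natDegree ≤ 1 := by compute_degree
    have h3 : (C (c 5) + C (c 6) * X : K[X]).natDegree ≤ 1 := by compute_degree
    have h4 : ((C (c 3) + C (c 4) * X) * pol φ).natDegree ≤ 1 + t :=
      natDegree_mul_le.trans (by rw [hφ]; omega)
    have h5 : ((C (c 5) + C (c 6) * X) * pol ψ).natDegree ≤ 1 + (2 * t - 1) :=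
      natDegree_mul_le.trans (by rw [hψ]; omega)
    refine lt_of_le_of_lt (natDegree_add_le _ _) (max_lt ?_ (by omega))
    exact lt_of_le_of_lt (natDegree_add_le _ _) (max_lt (by omega) (by omega))
  · intro x
    rw [← hc]
    simp only [Finset.sum_apply, Pi.smul_apply, smul_eq_mul, Fin.sum_univ_seven, v7]
    simp only [eval_add, eval_mul, eval_C, eval_X, eval_pow, pol_eval]
    simp [xi]
    ring

theorem natDegree_lin (a b : K) : (C a + C b * X : K[X]).natDegree ≤ 1 := by compute_degree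

theorem natDegree_quad (a b c : K) : (C a + C b * X + C c * X ^ 2 : K[X]).natDegree ≤ 2 := by
  compute_degree

/-- cube step: a polynomial `P` of degree `t ≥ 3` with `P^3 - c y^{3t}` of degree `≤ t+2`
is `a y^t`. -/
theorem cube_step (t : ℕ) (ht : 4 ≤ t) (h3 : (3 : K) ≠ 0) (P y : K[X]) (c : K)
    (hP : P.natDegree = t) (hy : y.Monic) (hy1 : y.natDegree = 1) (R : K[X])
    (hR : R.natDegree ≤ t + 2) (h : P ^ 3 = C c * y ^ (3 * t) + R) :
    P = C P.leadingCoeff * y ^ t := by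
  have hP0 : P ≠ 0 := by rintro rfl; rw [natDegree_zero] at hP; omega
  have hlc : P.leadingCoeff ≠ 0 := leadingCoeff_ne_zero.mpr hP0
  obtain ⟨a, ha⟩ : ∃ a, P.leadingCoeff = a := ⟨_, rfl⟩
  rw [ha] at hlc ⊢
  have hyt : (y ^ t).natDegree = t := by rw [hy.natDegree_pow, hy1, mul_one]
  have hy3t : (y ^ (3 * t)).natDegree = 3 * t := by rw [hy.natDegree_pow, hy1, mul_one]
  have hcoeffP : P.coeff t = a := by rw [← hP]; exact ha
  -- a^3 = c
  have hac : a ^ 3 = c := by
    have h1 := congrArg (fun q => q.coeff (3 * t)) h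
    simp only [coeff_add, coeff_C_mul] at h1
    have h2 : R.coeff (3 * t) = 0 := coeff_eq_zero_of_natDegree_lt (by omega)
    have h3' : (y ^ (3 * t)).coeff (3 * t) = 1 := by
      have := (hy.pow (3 * t)).coeff_natDegree
      rwa [hy3t] at this
    have h4 : (P ^ 3).coeff (3 * t) = a ^ 3 := by
      rw [mul_comm 3 t, ← hP, mul_comm, coeff_pow_mul_natDegree, ha]
    rw [h2, h3', h4] at h1
    rw [h1]; ring
  by_contra hne
  have hsub : P - C a * y ^ t ≠ 0 := sub_ne_zero.mpr hne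
  have hfac : (P - C a * y ^ t) * (P ^ 2 + P * (C a * y ^ t) + (C a * y ^ t) ^ 2) = R := by
    have h5 : (P - C a * y ^ t) * (P ^ 2 + P * (C a * y ^ t) + (C a * y ^ t) ^ 2)
        = P ^ 3 - (C a * y ^ t) ^ 3 := by ring
    rw [h5, h, ← hac, mul_pow, ← pow_mul, C_pow]
    ring
  -- second factor has degree 2t
  have hdeg2 : (P ^ 2 + P * (C a * y ^ t) + (C a * y ^ t) ^ 2).coeff (2 * t) = 3 * a ^ 2 := by
    have hYc : (C a * y ^ t).coeff t = a := by
      rw [coeff_C_mul]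
      have := (hy.pow t).coeff_natDegree
      rw [hyt] at this
      rw [this, mul_one]
    have hYd : (C a * y ^ t).natDegree ≤ t := (natDegree_C_mul_le _ _).trans hyt.le
    have e1 : (P ^ 2).coeff (2 * t) = a * a := by
      rw [pow_two, two_mul, coeff_mul_add_eq_of_natDegree_le hP.le hP.le, hcoeffP]
    have e2 : (P * (C a * y ^ t)).coeff (2 * t) = a * a := by
      rw [two_mul, coeff_mul_add_eq_of_natDegree_le hP.le hYd, hcoeffP, hYc]
    have e3 : ((C a * y ^ t) ^ 2).coeff (2 * t) = a * a := by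
      rw [pow_two, two_mul, coeff_mul_add_eq_of_natDegree_le hYd hYd, hYc]
    rw [coeff_add, coeff_add, e1, e2, e3]; ring
  have hne2 : (P ^ 2 + P * (C a * y ^ t) + (C a * y ^ t) ^ 2) ≠ 0 := by
    intro h0
    rw [h0, coeff_zero] at hdeg2
    exact mul_ne_zero h3 (pow_ne_zero 2 hlc) hdeg2.symm
  have hd2 : 2 * t ≤ (P ^ 2 + P * (C a * y ^ t) + (C a * y ^ t) ^ 2).natDegree := by
    apply le_natDegree_of_ne_zero
    rw [hdeg2]
    exact mul_ne_zero h3 (pow_ne_zero 2 hlc)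
  have h6 := natDegree_mul hsub hne2
  rw [hfac] at h6
  omega

end TightAux

end Pool.Agent.Redei3
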