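import Pool.Agent.Work.MP_e263ba_co.TightA

/-! JOB B3: the tight case `r = 2`: the cubic relation. -/

set_option autoImplicit false
set_option linter.unusedSectionVars false

namespace Pool.Agent.Redei3

open Finset Polynomial

namespace TightAux

theorem cubic_alg {R : Type*} [CommRing R] (F G A1 A2 B1 B2 D1 Y κX : R)
    (hFF : F * F = A2 + A1 * F + Y * G) (hFG : F * G = κX + (B2 + B1 * F + D1 * G)) :
    F ^ 3 = Y * κX + (A1 + D1) * F ^ 2 + (Y * B1 - D1 * A1 + A2) * F + (Y * B2 - D1 * A2) := by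
  linear_combination (F - D1) * hFF + Y * hFG

theorem cubic_shift {R : Type*} [CommRing R] (F P q q1 W E1 E0 : R) (hq : 3 * q = q1)
    (hP : F = P + q) (h : F ^ 3 = W + q1 * F ^ 2 + E1 * F + E0) :
    P ^ 3 = W + ((E1 + 3 * q ^ 2) * P + (E1 * q + E0 + 2 * q ^ 3)) := by
  subst hq
  subst hP
  linear_combination h

variable {K : Type*} [Field K]

theorem deg_E1 (c6 : K) (y A1 A2 B1 D1 : K[X]) (hy : y.natDegree ≤ 1) (hA1 : A1.natDegree ≤ 1)
    (hA2 : A2.natDegree ≤ 2) (hB1 : B1.natDegree ≤ 1) (hD1 : D1.natDegree ≤ 1) :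
    (C c6 * y * B1 - D1 * A1 + A2).natDegree ≤ 2 := by
  refine (natDegree_add_le _ _).trans (max_le ?_ hA2)
  refine (natDegree_sub_le _ _).trans (max_le ?_ ?_)
  · refine natDegree_mul_le.trans ?_
    have := (natDegree_C_mul_le c6 y)
    omega
  · exact natDegree_mul_le.trans (by omega)

theorem deg_E0 (c6 : K) (y A2 B2 D1 : K[X]) (hy : y.natDegree ≤ 1)
    (hA2 : A2.natDegree ≤ 2) (hB2 : B2.natDegree ≤ 2) (hD1 : D1.natDegree ≤ 1) :
    (C c6 * y * B2 - D1 * A2).natDegree ≤ 3 := by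
  refine (natDegree_sub_le _ _).trans (max_le ?_ ?_)
  · refine natDegree_mul_le.trans ?_
    have := (natDegree_C_mul_le c6 y)
    omega
  · exact natDegree_mul_le.trans (by omega)

theorem deg_R (t : ℕ) (ht : 4 ≤ t) (E1 E0 q P S : K[X]) (hE1 : E1.natDegree ≤ 2)
    (hE0 : E0.natDegree ≤ 3) (hq : q.natDegree ≤ 1) (hP : P.natDegree = t)
    (hS : S.natDegree ≤ 2) :
    ((E1 + 3 * q ^ 2) * P + (E1 * q + E0 + 2 * q ^ 3) - S).natDegree ≤ t + 2 := by
  have h3c : (3 : K[X]) = C 3 := (map_ofNat (C : K →+* K[X]) 3).symm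
  have h2c : (2 : K[X]) = C 2 := (map_ofNat (C : K →+* K[X]) 2).symm
  have h1 : (E1 + 3 * q ^ 2).natDegree ≤ 2 := by
    refine (natDegree_add_le _ _).trans (max_le hE1 ?_)
    rw [h3c]
    exact (natDegree_C_mul_le _ _).trans (natDegree_pow_le.trans (by omega))
  have h2 : (E1 * q + E0 + 2 * q ^ 3).natDegree ≤ 3 := by
    refine (natDegree_add_le _ _).trans (max_le ?_ ?_)
    · refine (natDegree_add_le _ _).trans (max_le ?_ hE0)
      exact natDegree_mul_le.trans (by omega)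
    · rw [h2c]
      exact (natDegree_C_mul_le _ _).trans (natDegree_pow_le.trans (by omega))
  refine (natDegree_sub_le _ _).trans (max_le ?_ (by omega))
  refine (natDegree_add_le _ _).trans (max_le ?_ (by omega))
  exact natDegree_mul_le.trans (by omega)

/-- the solution of the cubic relation. -/
theorem cubic_solution (p t : ℕ) [CharP K p] (hpp : p.Prime) (hp : p + 1 = 3 * t) (ht : 4 ≤ t)
    (F G y A1 A2 B1 B2 D1 : K[X]) (c6 κ s0 : K)
    (hF : F.natDegree = t) (hy : y = X + C s0)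
    (hA1 : A1.natDegree ≤ 1) (hA2 : A2.natDegree ≤ 2) (hB1 : B1.natDegree ≤ 1)
    (hB2 : B2.natDegree ≤ 2) (hD1 : D1.natDegree ≤ 1)
    (hFF : F * F = A2 + A1 * F + C c6 * y * G)
    (hFG : F * G = C κ * (X ^ p - X) + (B2 + B1 * F + D1 * G)) :
    ∃ (a : K) (q : K[X]), a ≠ 0 ∧ q.natDegree ≤ 1 ∧ F = C a * y ^ t + q := by
  have h3K : (3 : K) ≠ 0 := by
    have h3 : ((3 : ℕ) : K) ≠ 0 := by
      rw [Ne, CharP.cast_eq_zero_iff K p]
      intro h
      have := Nat.le_of_dvd (by norm_num) h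
      omega
    exact_mod_cast h3
  have hF0 : F ≠ 0 := by rintro rfl; rw [natDegree_zero] at hF; omega
  have hymonic : y.Monic := by rw [hy]; exact monic_X_add_C s0
  have hydeg : y.natDegree = 1 := by rw [hy]; exact natDegree_X_add_C s0
  have hX : (X : K[X]) = y - C s0 := by rw [hy]; ring
  have hcub := cubic_alg F G A1 A2 B1 B2 D1 (C c6 * y) (C κ * (X ^ p - X)) hFF hFG
  obtain ⟨q, hq⟩ : ∃ q : K[X], q = C (3 : K)⁻¹ * (A1 + D1) := ⟨_, rfl⟩
  have hqd : q.natDegree ≤ 1 := by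
    rw [hq]
    exact (natDegree_C_mul_le _ _).trans ((natDegree_add_le _ _).trans (max_le hA1 hD1))
  have hq3 : 3 * q = A1 + D1 := by
    have h3c : (3 : K[X]) = C 3 := (map_ofNat (C : K →+* K[X]) 3).symm
    rw [hq, h3c, ← mul_assoc, ← C_mul, mul_inv_cancel₀ h3K, C_1, one_mul]
  obtain ⟨P, hP⟩ : ∃ P : K[X], P = F - q := ⟨_, rfl⟩
  have hFP : F = P + q := by rw [hP]; ring
  have hPdeg : P.natDegree = t := by
    rw [hP, natDegree_sub_eq_left_of_natDegree_lt (by omega), hF]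
  have hPlc : P.leadingCoeff = F.leadingCoeff := by
    rw [leadingCoeff, hPdeg, hP, coeff_sub, coeff_eq_zero_of_natDegree_lt (p := q) (by omega),
      sub_zero, leadingCoeff, hF]
  have h1 := cubic_shift F P q (A1 + D1) _ _ _ hq3 hFP hcub
  have hXp : (X : K[X]) ^ p = y ^ p - C (s0 ^ p) := by
    have : Fact p.Prime := ⟨hpp⟩
    rw [hX, sub_pow_char, C_pow]
  have hy3t : y ^ (3 * t) = y * y ^ p := by rw [← hp, pow_succ, mul_comm]
  have h2 : P ^ 3 = C (c6 * κ) * y ^ (3 * t) +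
      (((C c6 * y * B1 - D1 * A1 + A2) + 3 * q ^ 2) * P +
        ((C c6 * y * B1 - D1 * A1 + A2) * q + (C c6 * y * B2 - D1 * A2) + 2 * q ^ 3) -
        C (c6 * κ) * (y * (C (s0 ^ p) + X))) := by
    rw [h1, hXp, hy3t, C_mul]
    ring
  have hSd : (C (c6 * κ) * (y * (C (s0 ^ p) + X))).natDegree ≤ 2 := by
    refine (natDegree_C_mul_le _ _).trans (natDegree_mul_le.trans ?_)
    have h3 : (C (s0 ^ p) + X : K[X]).natDegree ≤ 1 := by
      refine (natDegree_add_le _ _).trans (max_le ?_ natDegree_X_le)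
      rw [natDegree_C]; omega
    omega
  have hRd := deg_R t ht _ _ q P _ (deg_E1 c6 y A1 A2 B1 D1 hydeg.le hA1 hA2 hB1 hD1)
    (deg_E0 c6 y A2 B2 D1 hydeg.le hA2 hB2 hD1) hqd hPdeg hSd
  have hPy := cube_step t ht h3K P y (c6 * κ) hPdeg hymonic hydeg _ hRd h2
  refine ⟨P.leadingCoeff, q, ?_, hqd, ?_⟩
  · rw [hPlc]; exact leadingCoeff_ne_zero.mpr hF0
  · rw [← hPy]; exact hFP

end TightAux

end Pool.Agent.Redei3
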