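import Pool.Agent.Work.MP_e263ba_co.TightB

/-! JOB B3: the tight case `r = 2`: function level endgame. -/

set_option autoImplicit false
set_option linter.unusedSectionVars false
set_option maxHeartbeats 400000

namespace Pool.Agent.Redei3

open Finset Polynomial

variable {p : ℕ} [Fact p.Prime] {K : Type*} [Field K] [Algebra (ZMod p) K]

namespace TightAux

variable {φ ψ : ZMod p → K}

theorem exists_FF {t : ℕ} (hp : p + 1 = 3 * t) (ht : 4 ≤ t)
    (hM : ∀ i j l, i + j + l < t →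
      ∑ x : ZMod p, (algebraMap (ZMod p) K x) ^ i * φ x ^ j * ψ x ^ l = 0)
    (hφ : (pol φ).natDegree = t) (hψ : (pol ψ).natDegree = 2 * t - 1) :
    ∃ c0 c1 c2 c3 c4 c5 c6 : K, c6 ≠ 0 ∧
      pol φ * pol φ = C c0 + C c1 * X + C c2 * X ^ 2 + (C c3 + C c4 * X) * pol φ
      + (C c5 + C c6 * X) * pol ψ := by
  have hφ0 : pol φ ≠ 0 := by intro h; rw [h, natDegree_zero] at hφ; omega
  obtain ⟨c0, c1, c2, c3, c4, c5, c6, h⟩ := exists_coeffs hp ht hM hφ hψ (φ * φ)
    (W_mul' (e := 1) (e' := 1) (by omega) W_phi W_phi)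
  rw [pol_mul φ φ (by rw [hφ]; omega)] at h
  refine ⟨c0, c1, c2, c3, c4, c5, c6, ?_, h⟩
  rintro rfl
  have h1 : (pol φ * pol φ).natDegree = 2 * t := by rw [natDegree_mul hφ0 hφ0, hφ]; ring
  have h2 : (pol φ * pol φ).natDegree ≤ 2 * t - 1 := by
    rw [h]
    refine (natDegree_add_le _ _).trans (max_le ?_ ?_)
    · refine (natDegree_add_le _ _).trans (max_le ?_ ?_)
      · exact (natDegree_quad c0 c1 c2).trans (by omega)
      · exact natDegree_mul_le.trans (by rw [hφ]; have := natDegree_lin c3 c4; omega)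
    · rw [C_0, zero_mul, add_zero]
      exact (natDegree_C_mul_le _ _).trans hψ.le
  omega

theorem exists_FG {t : ℕ} (hp : p + 1 = 3 * t) (ht : 4 ≤ t)
    (hM : ∀ i j l, i + j + l < t →
      ∑ x : ZMod p, (algebraMap (ZMod p) K x) ^ i * φ x ^ j * ψ x ^ l = 0)
    (hφ : (pol φ).natDegree = t) (hψ : (pol ψ).natDegree = 2 * t - 1) :
    ∃ d0 d1 d2 d3 d4 d5 d6 κ : K,
      pol φ * pol ψ = C κ * (X ^ p - X) + (C d0 + C d1 * X + C d2 * X ^ 2
        + (C d3 + C d4 * X) * pol φ + (C d5 + C d6 * X) * pol ψ) := by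
  have hφ0 : pol φ ≠ 0 := by intro h; rw [h, natDegree_zero] at hφ; omega
  have hψ0 : pol ψ ≠ 0 := by intro h; rw [h, natDegree_zero] at hψ; omega
  obtain ⟨d0, d1, d2, d3, d4, d5, d6, h⟩ := exists_coeffs hp ht hM hφ hψ (φ * ψ)
    (W_mul' (e := 1) (e' := 1) (by omega) W_phi W_psi)
  obtain ⟨κ, hκ⟩ : ∃ κ, κ = (pol φ).leadingCoeff * (pol ψ).leadingCoeff := ⟨_, rfl⟩
  refine ⟨d0, d1, d2, d3, d4, d5, d6, κ, ?_⟩
  rw [← h]
  have h1 : pol (φ * ψ) = pol φ * pol ψ - C κ * (X ^ p - X) := by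
    apply pol_eq_of_eval
    · have h2 : (pol φ * pol ψ).natDegree = p := by rw [natDegree_mul hφ0 hψ0, hφ, hψ]; omega
      have h4 : (pol φ * pol ψ - C κ * X ^ p).natDegree ≤ p := by
        refine (natDegree_sub_le _ _).trans (max_le h2.le ?_)
        exact (natDegree_C_mul_le _ _).trans (by rw [natDegree_X_pow])
      have h6 : (pol φ * pol ψ - C κ * X ^ p).coeff p = 0 := by
        rw [coeff_sub, coeff_C_mul, coeff_X_pow, if_pos rfl, mul_one, hκ]
        have h7 : (pol φ * pol ψ).coeff p = (pol φ).leadingCoeff * (pol ψ).leadingCoeff := by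
          rw [← leadingCoeff_mul, leadingCoeff, h2]
        rw [h7, sub_self]
      have h3 : (pol φ * pol ψ - C κ * X ^ p).natDegree < p := by
        rcases Nat.lt_or_ge (pol φ * pol ψ - C κ * X ^ p).natDegree p with h | h
        · exact h
        · exfalso
          have h5 : (pol φ * pol ψ - C κ * X ^ p).natDegree = p := le_antisymm h4 h
          have h7 : (pol φ * pol ψ - C κ * X ^ p) = 0 := by
            rw [← leadingCoeff_eq_zero, leadingCoeff, h5, h6]
          rw [h7, natDegree_zero] at h5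
          omega
      have h8 : pol φ * pol ψ - C κ * (X ^ p - X) = (pol φ * pol ψ - C κ * X ^ p) + C κ * X := by
        ring
      rw [h8]
      refine lt_of_le_of_lt (natDegree_add_le _ _) (max_lt h3 ?_)
      exact lt_of_le_of_lt ((natDegree_C_mul_le _ _).trans natDegree_X_le) (by omega)
    · intro x
      rw [eval_sub, eval_mul, eval_mul, eval_C, eval_sub, eval_pow, eval_X, ← map_pow,
        ZMod.pow_card, sub_self, mul_zero, sub_zero, pol_eval, pol_eval]
      rfl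
  rw [h1]; ring

/-- the function `y = x + s0`. -/
noncomputable def yf (s0 : K) : ZMod p → K := fun x => algebraMap (ZMod p) K x + s0

theorem yf_mem (s0 : K) : (yf s0 : ZMod p → K) ∈ W φ ψ 1 := by
  have h : (yf s0 : ZMod p → K) = xi + s0 • (1 : ZMod p → K) := by
    funext x; simp [yf, xi]
  rw [h]
  exact Submodule.add_mem _ W_xi (Submodule.smul_mem _ _ (W_one 1))

theorem yf_pow_p (s0 : K) (x : ZMod p) : yf s0 x ^ p = yf s0 x + (s0 ^ p - s0) := by
  have : CharP K p := charP_of_injective_algebraMap (algebraMap (ZMod p) K).injective p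
  unfold yf
  rw [add_pow_char, ← map_pow, ZMod.pow_card]
  ring

theorem yf_notin {t : ℕ} (hp : p + 1 = 3 * t) (ht : 4 ≤ t)
    (hM : ∀ i j l, i + j + l < t →
      ∑ x : ZMod p, (algebraMap (ZMod p) K x) ^ i * φ x ^ j * ψ x ^ l = 0)
    (hφ : (pol φ).natDegree = t) (hψ : (pol ψ).natDegree = 2 * t - 1) (s0 : K) :
    (yf s0 : ZMod p → K) ^ (t - 1) ∉ W φ ψ 2 := by
  intro h
  have h1 : pol ((yf s0 : ZMod p → K) ^ (t - 1)) = (X + C s0) ^ (t - 1) := by
    apply pol_eq_of_eval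
    · rw [(monic_X_add_C s0).natDegree_pow, natDegree_X_add_C]; omega
    · intro x; simp [yf]
  have h2 : (pol ((yf s0 : ZMod p → K) ^ (t - 1))).natDegree = t - 1 := by
    rw [h1, (monic_X_add_C s0).natDegree_pow, natDegree_X_add_C, mul_one]
  have h3 := deg_W2 hp ht hM hφ hψ _ h
  rw [h2] at h3
  omega

/-- the endgame. -/
theorem endgame {t : ℕ} (hp : p + 1 = 3 * t) (ht : 4 ≤ t)
    (hM : ∀ i j l, i + j + l < t →
      ∑ x : ZMod p, (algebraMap (ZMod p) K x) ^ i * φ x ^ j * ψ x ^ l = 0)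
    (hφ : (pol φ).natDegree = t) (hψ : (pol ψ).natDegree = 2 * t - 1) (s0 θ : K)
    (P Q : ZMod p → K) (hP : P ∈ W φ ψ 1) (hQ : Q ∈ W φ ψ 1)
    (hPy : ∀ x, P x = yf s0 x ^ t) (hQy : ∀ x, Q x = yf s0 x ^ (2 * t - 1) + θ * yf s0 x ^ (t - 1))
    (j l : ℕ) (hjl : j + l = t) : ∑ x, P x ^ j * Q x ^ l = 0 := by
  obtain ⟨η, hη⟩ : ∃ η : K, η = s0 ^ p - s0 := ⟨_, rfl⟩
  have hyp : ∀ x : ZMod p, yf s0 x ^ p = yf s0 x + η := by
    intro x; rw [yf_pow_p, hη]
  have hy3 : ∀ x : ZMod p, yf s0 x ^ t * yf s0 x ^ (2 * t - 1) = yf s0 x + η := by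
    intro x
    rw [← pow_add, show t + (2 * t - 1) = p by omega, hyp]
  have hnot := yf_notin hp ht hM hφ hψ s0
  -- θ = 0
  have hθ : θ = 0 := by
    by_contra hθ0
    apply hnot
    have h1 : (θ ^ 2) • (yf s0 : ZMod p → K) ^ (t - 1)
        = yf s0 + η • (1 : ZMod p → K) - P * Q + θ • Q := by
      funext x
      simp only [Pi.smul_apply, Pi.pow_apply, Pi.add_apply, Pi.sub_apply, Pi.mul_apply,
        Pi.one_apply, smul_eq_mul, mul_one]
      rw [hPy, hQy, mul_add, hy3]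
      have h2 : yf s0 x ^ t * (θ * yf s0 x ^ (t - 1)) = θ * yf s0 x ^ (2 * t - 1) := by
        rw [show 2 * t - 1 = t + (t - 1) by omega, pow_add]; ring
      rw [h2]; ring
    have h2 : (θ ^ 2) • (yf s0 : ZMod p → K) ^ (t - 1) ∈ W φ ψ 2 := by
      rw [h1]
      refine Submodule.add_mem _ (Submodule.sub_mem _ (Submodule.add_mem _ ?_ ?_) ?_) ?_
      · exact W_mono (by omega) (yf_mem s0)
      · exact Submodule.smul_mem _ _ (W_one 2)
      · exact W_mul' (by omega) hP hQ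
      · exact Submodule.smul_mem _ _ (W_mono (by omega) hQ)
    have h3 := Submodule.smul_mem (W φ ψ 2) (θ ^ 2)⁻¹ h2
    rwa [smul_smul, inv_mul_cancel₀ (pow_ne_zero 2 hθ0), one_smul] at h3
  have hQy' : ∀ x, Q x = yf s0 x ^ (2 * t - 1) := by
    intro x; rw [hQy, hθ, zero_mul, add_zero]
  have hQQ : ∀ x, Q x * Q x = P x + η * yf s0 x ^ (t - 1) := by
    intro x
    rw [hQy', hPy, ← pow_add, show 2 * t - 1 + (2 * t - 1) = p + (t - 1) by omega, pow_add, hyp,
      add_mul, ← pow_succ', show t - 1 + 1 = t by omega]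
  have hη0 : η = 0 := by
    by_contra hη0
    apply hnot
    have h1 : η • (yf s0 : ZMod p → K) ^ (t - 1) = Q * Q - P := by
      funext x
      simp only [Pi.smul_apply, Pi.pow_apply, Pi.sub_apply, Pi.mul_apply, smul_eq_mul]
      rw [hQQ]; ring
    have h2 : η • (yf s0 : ZMod p → K) ^ (t - 1) ∈ W φ ψ 2 := by
      rw [h1]
      exact Submodule.sub_mem _ (W_mul' (by omega) hQ hQ) (W_mono (by omega) hP)
    have h3 := Submodule.smul_mem (W φ ψ 2) η⁻¹ h2
    rwa [smul_smul, inv_mul_cancel₀ hη0, one_smul] at h3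
  have hQQ' : Q * Q = P := by
    funext x; rw [Pi.mul_apply, hQQ, hη0, zero_mul, add_zero]
  have hPQ : P * Q = yf s0 := by
    funext x; rw [Pi.mul_apply, hPy, hQy', hy3, hη0, add_zero]
  have hPP : P * P = yf s0 * Q := by
    funext x
    rw [Pi.mul_apply, Pi.mul_apply, hPy, hQy', ← pow_add, ← pow_succ']
    congr 1; omega
  have hsum : ∀ f : ZMod p → K, f ∈ W φ ψ (t - 1) → ∑ x, f x = 0 :=
    fun f hf => W_sum hM (by omega) hf
  have hgoal : ∑ x, P x ^ j * Q x ^ l = ∑ x, (P ^ j * Q ^ l) x := by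
    refine Finset.sum_congr rfl (fun x _ => ?_); simp
  rw [hgoal]
  apply hsum
  have hl : l = 0 ∨ l = 1 ∨ 2 ≤ l := by omega
  rcases hl with hl | hl | hl
  · subst hl
    have h1 : P ^ j * Q ^ 0 = P ^ (t - 3) * yf s0 ^ 2 := by
      have h2 : P ^ j = P ^ (t - 3) * (P * P * P) := by
        rw [show j = (t - 3) + 3 by omega, pow_add]; ring
      rw [pow_zero, mul_one, h2, hPP]
      have h3 : yf s0 * Q * P = yf s0 * (P * Q) := by ring
      rw [h3, hPQ, pow_two]
    rw [h1]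
    exact W_mul' (by omega) (W_pow hP (t - 3)) (W_pow (yf_mem (φ := φ) (ψ := ψ) s0) 2)
  · subst hl
    have h1 : P ^ j * Q ^ 1 = P ^ (j - 1) * yf s0 := by
      rw [pow_one, show j = (j - 1) + 1 by omega, pow_succ, mul_assoc, hPQ,
        Nat.add_sub_cancel]
    rw [h1]
    exact W_mul' (by omega) (W_pow hP (j - 1)) (yf_mem (φ := φ) (ψ := ψ) s0)
  · have h1 : P ^ j * Q ^ l = P ^ (j + 1) * Q ^ (l - 2) := by
      have h2 : Q ^ l = Q ^ (l - 2) * (Q * Q) := by
        rw [← pow_two, ← pow_add]; congr 1; omega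
      rw [h2, hQQ', pow_succ]; ring
    rw [h1]
    exact W_mul' (by omega) (W_pow hP (j + 1)) (W_pow hQ (l - 2))

/-- division by `y`. -/
theorem div_step (t : ℕ) (ht : 4 ≤ t) (F G y A1 A2 q : K[X]) (a c6 s0 : K)
    (hy : y = X + C s0) (hA1 : A1.natDegree ≤ 1) (hA2 : A2.natDegree ≤ 2)
    (hq : q.natDegree ≤ 1) (hF : F = C a * y ^ t + q)
    (hFF : F * F = A2 + A1 * F + C c6 * y * G) :
    ∃ l0 l1 e0 e1 : K, C c6 * G = C (a ^ 2) * y ^ (2 * t - 1) + C (a * l0) * y ^ (t - 1)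
      + C (a * l1) * y ^ t + (C e0 + C e1 * X) := by
  have hymonic : y.Monic := by rw [hy]; exact monic_X_add_C s0
  have hy0 : y ≠ 0 := hymonic.ne_zero
  have hydeg : y.natDegree = 1 := by rw [hy]; exact natDegree_X_add_C s0
  -- E = y E'
  have h1 : C c6 * y * G = C (a ^ 2) * y ^ (2 * t) + C a * (2 * q - A1) * y ^ t
      + (q ^ 2 - A2 - A1 * q) := by
    have h2 : C c6 * y * G = F * F - A2 - A1 * F := by rw [hFF]; ring
    rw [h2, hF, C_pow, show 2 * t = t * 2 by ring, pow_mul]; ring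
  have h2 : y ∣ q ^ 2 - A2 - A1 * q := by
    have h3 : q ^ 2 - A2 - A1 * q = y * (C c6 * G - C (a ^ 2) * y ^ (2 * t - 1)
        - C a * (2 * q - A1) * y ^ (t - 1)) := by
      have h4 : y * y ^ (2 * t - 1) = y ^ (2 * t) := by
        rw [← pow_succ']; congr 1; omega
      have h5 : y * y ^ (t - 1) = y ^ t := by
        rw [← pow_succ']; congr 1; omega
      calc q ^ 2 - A2 - A1 * q = C c6 * y * G - C (a ^ 2) * y ^ (2 * t)
            - C a * (2 * q - A1) * y ^ t := by rw [h1]; ring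
        _ = C c6 * y * G - C (a ^ 2) * (y * y ^ (2 * t - 1))
            - C a * (2 * q - A1) * (y * y ^ (t - 1)) := by rw [h4, h5]
        _ = _ := by ring
    exact ⟨_, h3⟩
  obtain ⟨E', hE'⟩ := h2
  have hEd : (q ^ 2 - A2 - A1 * q).natDegree ≤ 2 := by
    refine (natDegree_sub_le _ _).trans (max_le ?_ ?_)
    · refine (natDegree_sub_le _ _).trans (max_le ?_ hA2)
      exact natDegree_pow_le.trans (by omega)
    · exact natDegree_mul_le.trans (by omega)
  have hE'd : E'.natDegree ≤ 1 := by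
    by_cases h0 : E' = 0
    · rw [h0, natDegree_zero]; omega
    · rw [hE', natDegree_mul hy0 h0, hydeg] at hEd
      omega
  obtain ⟨e1, e0, he⟩ := exists_eq_X_add_C_of_natDegree_le_one hE'd
  -- L = 2q - A1 = l0 + l1 y
  have h2c : (2 : K[X]) = C 2 := (map_ofNat (C : K →+* K[X]) 2).symm
  have hLd : (2 * q - A1).natDegree ≤ 1 := by
    refine (natDegree_sub_le _ _).trans (max_le ?_ hA1)
    rw [h2c]; exact (natDegree_C_mul_le _ _).trans hq
  obtain ⟨l1, l0', hl⟩ := exists_eq_X_add_C_of_natDegree_le_one hLd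
  refine ⟨l0' - l1 * s0, l1, e0, e1, ?_⟩
  have hX : (X : K[X]) = y - C s0 := by rw [hy]; ring
  have hl' : 2 * q - A1 = C (l0' - l1 * s0) + C l1 * y := by
    rw [hl, hy, C_sub, C_mul]; ring
  apply mul_left_cancel₀ hy0
  have h4 : y * y ^ (2 * t - 1) = y ^ (2 * t) := by
    rw [← pow_succ']; congr 1; omega
  have h5 : y * y ^ (t - 1) = y ^ t := by
    rw [← pow_succ']; congr 1; omega
  calc y * (C c6 * G) = C c6 * y * G := by ring
    _ = C (a ^ 2) * y ^ (2 * t) + C a * (2 * q - A1) * y ^ t + y * E' := by rw [h1, hE']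
    _ = C (a ^ 2) * (y * y ^ (2 * t - 1)) + C a * (C (l0' - l1 * s0) + C l1 * y) * y ^ t
        + y * (C e1 * X + C e0) := by rw [h4, hl', he]
    _ = C (a ^ 2) * (y * y ^ (2 * t - 1)) + C a * C (l0' - l1 * s0) * (y * y ^ (t - 1))
        + C a * C l1 * y * y ^ t + y * (C e1 * X + C e0) := by rw [h5]; ring
    _ = _ := by rw [C_mul, C_mul]; ring

end TightAux

end Pool.Agent.Redei3
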