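import Pool.Agent.Work.MP_e263ba_co.Defs

/-! definitions for the tiling side. -/

set_option autoImplicit false

namespace Pool.Agent.Redei3

open Finset MvPolynomial

variable {p : ℕ}

/-- number of `b ∈ B` with `u·b = s`. -/
def cnt (B : Finset (Fin 3 → ZMod p)) (u : Fin 3 → ZMod p) (s : ZMod p) : ℕ :=
  (B.filter (fun b => ∑ i, u i * b i = s)).card

/-- tiling of `F_p^3`. -/
def Tiles (A B : Finset (Fin 3 → ZMod p)) : Prop :=
  ∀ g : Fin 3 → ZMod p, ∃! ab : (Fin 3 → ZMod p) × (Fin 3 → ZMod p),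
    ab.1 ∈ A ∧ ab.2 ∈ B ∧ ab.1 + ab.2 = g

variable [Fact p.Prime]

/-- the `j`-th moment of `m_u = cnt B u / p`. -/
def mom (B : Finset (Fin 3 → ZMod p)) (j : ℕ) (u : Fin 3 → ZMod p) : ZMod p :=
  ∑ s : ZMod p, s ^ j * ((cnt B u s / p : ℕ) : ZMod p)

end Pool.Agent.Redei3
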