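import Pool.Agent.Work.MP_e263ba_co.TilingDefs

/-! JOB T1: the dichotomy (characters). -/

set_option autoImplicit false

namespace Pool.Agent.Redei3

open Finset MvPolynomial

variable {p : ℕ} [Fact p.Prime]

/-- a vanishing rational combination of the powers of a primitive `p`-th root of unity is constant. -/
theorem const_of_root_sum (ζ : ℂ) (hζ : IsPrimitiveRoot ζ p) (f : ℕ → ℚ)
    (h : ∑ i ∈ Finset.range p, (f i : ℂ) * ζ ^ i = 0) : ∀ i, i < p → f i = f (p - 1) := by
  classical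
  have hp : 2 ≤ p := (Fact.out : p.Prime).two_le
  let P : Polynomial ℚ := ∑ i ∈ Finset.range (p - 1), Polynomial.C (f i - f (p - 1)) * Polynomial.X ^ i
  have hroot : Polynomial.aeval ζ P = 0 := by
    have h1 : Polynomial.aeval ζ P = ∑ i ∈ Finset.range (p - 1), ((f i : ℂ) - (f (p - 1) : ℂ)) * ζ ^ i := by
      simp only [P, map_sum, map_mul, map_pow, Polynomial.aeval_X, Polynomial.aeval_C]
      refine Finset.sum_congr rfl fun i _ => ?_
      simp
    have h2 : ∑ i ∈ Finset.range p, ((f i : ℂ) - (f (p - 1) : ℂ)) * ζ ^ i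
        = ∑ i ∈ Finset.range (p - 1), ((f i : ℂ) - (f (p - 1) : ℂ)) * ζ ^ i := by
      obtain ⟨q, hq⟩ : ∃ q, p = q + 1 := ⟨p - 1, by omega⟩
      have hq' : p - 1 = q := by omega
      rw [hq', hq, Finset.sum_range_succ]
      simp
    rw [h1, ← h2]
    simp only [sub_mul, Finset.sum_sub_distrib, h, ← Finset.mul_sum]
    rw [hζ.geom_sum_eq_zero (by omega)]
    simp
  have hP : P = 0 := by
    by_contra hne
    have h1 := Polynomial.natDegree_le_natDegree (minpoly.degree_le_of_ne_zero ℚ ζ hne hroot)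
    rw [← Polynomial.cyclotomic_eq_minpoly_rat hζ (by omega), Polynomial.natDegree_cyclotomic,
      Nat.totient_prime Fact.out] at h1
    have h2 : P.natDegree ≤ p - 2 := by
      refine Polynomial.natDegree_sum_le_of_forall_le _ _ fun i hi => ?_
      refine (Polynomial.natDegree_C_mul_X_pow_le _ _).trans ?_
      have := Finset.mem_range.1 hi
      omega
    omega
  intro i hi
  by_cases h3 : i = p - 1
  · rw [h3]
  · have h4 := congrArg (fun Q => Polynomial.coeff Q i) hP
    simp only [P, Polynomial.finsetSum_coeff, Polynomial.coeff_C_mul_X_pow, Polynomial.coeff_zero] at h4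
    rw [Finset.sum_ite_eq, if_pos (Finset.mem_range.2 (by omega))] at h4
    exact sub_eq_zero.1 h4

theorem char_sum_eq (ζ : ℂ) (hζ : ζ ^ p = 1) (B : Finset (Fin 3 → ZMod p)) (u : Fin 3 → ZMod p) :
    ∑ b ∈ B, AddChar.zmodChar p hζ (∑ i, u i * b i)
      = ∑ i ∈ Finset.range p, (((cnt B u (i : ZMod p) : ℕ) : ℚ) : ℂ) * ζ ^ i := by
  classical
  have h1 : ∑ b ∈ B, AddChar.zmodChar p hζ (∑ i, u i * b i)
      = ∑ s : ZMod p, (((cnt B u s : ℕ) : ℚ) : ℂ) * ζ ^ s.val := by
    rw [← Finset.sum_fiberwise_of_maps_to (s := B) (t := Finset.univ) (g := fun x => ∑ i, u i * x i)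
      (fun _ _ => Finset.mem_univ _)]
    refine Finset.sum_congr rfl fun s _ => ?_
    rw [Finset.sum_congr rfl (g := fun _ => ζ ^ s.val)]
    · rw [Finset.sum_const, nsmul_eq_mul]
      simp [cnt]
    · intro x hx
      rw [(Finset.mem_filter.1 hx).2, AddChar.zmodChar_apply]
  rw [h1]
  refine Finset.sum_bij' (fun s _ => s.val) (fun i _ => (i : ZMod p)) ?_ ?_ ?_ ?_ ?_
  · intro s _
    exact Finset.mem_range.2 (ZMod.val_lt s)
  · intro i _
    exact Finset.mem_univ _
  · intro s _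
    simp
  · intro i hi
    exact ZMod.val_cast_of_lt (Finset.mem_range.1 hi)
  · intro s _
    simp

theorem cnt_const (ζ : ℂ) (hζ : IsPrimitiveRoot ζ p) (B : Finset (Fin 3 → ZMod p)) (u : Fin 3 → ZMod p)
    (h : ∑ b ∈ B, AddChar.zmodChar p hζ.pow_eq_one (∑ i, u i * b i) = 0) (s : ZMod p) :
    p * cnt B u s = B.card := by
  classical
  rw [char_sum_eq] at h
  have h1 := const_of_root_sum ζ hζ (fun i => ((cnt B u (i : ZMod p) : ℕ) : ℚ)) h
  have h2 : ∀ t : ZMod p, cnt B u t = cnt B u ((p - 1 : ℕ) : ZMod p) := by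
    intro t
    have h3 := h1 t.val (ZMod.val_lt t)
    simp only [ZMod.natCast_val, ZMod.cast_id', id_eq, Nat.cast_inj] at h3
    exact h3
  have h4 : ∑ t : ZMod p, cnt B u t = B.card :=
    (Finset.card_eq_sum_card_fiberwise (f := fun b : Fin 3 → ZMod p => ∑ i, u i * b i)
      (fun _ _ => Finset.mem_univ _)).symm
  rw [Finset.sum_congr rfl (g := fun _ => cnt B u s) (fun t _ => by rw [h2 t, h2 s]),
    Finset.sum_const, Finset.card_univ, ZMod.card, smul_eq_mul] at h4
  exact h4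

/-- T1 (dichotomy). -/
theorem dichotomy (A B : Finset (Fin 3 → ZMod p)) (hA : A.card = p) (hB : B.card = p ^ 2)
    (hAB : Tiles A B) (u : Fin 3 → ZMod p) (hu0 : u ≠ 0) (hu : ¬ IsPM A u) (s : ZMod p) :
    cnt B u s = p := by
  classical
  have hp : 2 ≤ p := (Fact.out : p.Prime).two_le
  have hζ := Complex.isPrimitiveRoot_exp p (by omega)
  set ζ : ℂ := Complex.exp (2 * Real.pi * Complex.I / p) with hζdef
  set ψ := AddChar.zmodChar p hζ.pow_eq_one with hψ
  -- the full sum is zero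
  have h0 : ∑ g : Fin 3 → ZMod p, ψ (∑ i, u i * g i) = 0 := by
    obtain ⟨k, hk⟩ := Function.ne_iff.1 hu0
    have hk' : u k ≠ 0 := hk
    have h1 := Equiv.sum_comp (Equiv.addRight (Pi.single k (u k)⁻¹ : Fin 3 → ZMod p))
      (fun g : Fin 3 → ZMod p => ψ (∑ i, u i * g i))
    have h2 : ∀ g : Fin 3 → ZMod p, ψ (∑ i, u i * (Equiv.addRight (Pi.single k (u k)⁻¹ : Fin 3 → ZMod p)) g i)
        = ψ (∑ i, u i * g i) * ζ := by
      intro g
      have h3 : ∑ i, u i * (Equiv.addRight (Pi.single k (u k)⁻¹ : Fin 3 → ZMod p)) g i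
          = (∑ i, u i * g i) + 1 := by
        simp only [Equiv.coe_addRight, Pi.add_apply, mul_add, Finset.sum_add_distrib]
        congr 1
        rw [Finset.sum_eq_single k]
        · rw [Pi.single_eq_same, mul_inv_cancel₀ hk']
        · intro b _ hb
          rw [Pi.single_eq_of_ne hb, mul_zero]
        · intro h
          exact absurd (Finset.mem_univ k) h
      rw [h3, AddChar.map_add_eq_mul]
      congr 1
      rw [hψ, AddChar.zmodChar_apply]
      have : Fact (1 < p) := ⟨by omega⟩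
      rw [ZMod.val_one, pow_one]
    rw [Finset.sum_congr rfl (fun g _ => h2 g), ← Finset.sum_mul] at h1
    have h4 : (∑ g : Fin 3 → ZMod p, ψ (∑ i, u i * g i)) * (ζ - 1) = 0 := by
      rw [mul_sub, h1]
      ring
    rcases mul_eq_zero.1 h4 with h5 | h5
    · exact h5
    · exact absurd (sub_eq_zero.1 h5) (hζ.ne_one (by omega))
  -- product structure
  have h6 : (∑ a ∈ A, ψ (∑ i, u i * a i)) * (∑ b ∈ B, ψ (∑ i, u i * b i)) = 0 := by
    rw [← h0, Finset.sum_mul_sum, ← Finset.sum_product']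
    refine Finset.sum_bij (fun ab _ => ab.1 + ab.2) ?_ ?_ ?_ ?_
    · intro _ _
      exact Finset.mem_univ _
    · rintro ⟨a, b⟩ hab ⟨a', b'⟩ hab' h
      rw [Finset.mem_product] at hab hab'
      obtain ⟨x, _, hx⟩ := hAB (a + b)
      have h7 := hx (a, b) ⟨hab.1, hab.2, rfl⟩
      have h8 := hx (a', b') ⟨hab'.1, hab'.2, h.symm⟩
      rw [h7, h8]
    · intro g _
      obtain ⟨⟨a, b⟩, ⟨ha, hb, hg⟩, _⟩ := hAB g
      exact ⟨(a, b), Finset.mem_product.2 ⟨ha, hb⟩, hg⟩
    · rintro ⟨a, b⟩ _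
      rw [← AddChar.map_add_eq_mul]
      congr 1
      rw [← Finset.sum_add_distrib]
      refine Finset.sum_congr rfl fun i _ => ?_
      simp [mul_add]
  rcases mul_eq_zero.1 h6 with h7 | h7
  · exfalso
    apply hu
    have h8 : ∀ t, cnt A u t = 1 := by
      intro t
      have h9 := cnt_const ζ hζ A u h7 t
      rw [hA] at h9
      exact Nat.eq_of_mul_eq_mul_left (by omega) (h9.trans (mul_one p).symm)
    refine ⟨hu0, ?_⟩
    intro a ha a' ha' haa
    have h9 := h8 (∑ i, u i * a i)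
    rw [cnt, Finset.card_eq_one] at h9
    obtain ⟨c, hc⟩ := h9
    have h10 : a ∈ A.filter (fun b => ∑ i, u i * b i = ∑ i, u i * a i) :=
      Finset.mem_filter.2 ⟨ha, rfl⟩
    have h11 : a' ∈ A.filter (fun b => ∑ i, u i * b i = ∑ i, u i * a i) :=
      Finset.mem_filter.2 ⟨ha', haa.symm⟩
    rw [hc, Finset.mem_singleton] at h10 h11
    rw [h10, h11]
  · have h9 := cnt_const ζ hζ B u h7 s
    rw [hB, sq] at h9
    exact Nat.eq_of_mul_eq_mul_left (by omega) h9

end Pool.Agent.Redei3
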