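import Pool.Agent.Work.MP_e263ba_co.TilingInt
import Pool.Agent.Work.MP_e263ba_co.Lacunary

/-! JOB T4: the contradiction. -/

set_option autoImplicit false
set_option linter.unusedSectionVars false

namespace Pool.Agent.Redei3

open Finset MvPolynomial

variable {p : ℕ} [Fact p.Prime]

theorem not_all_cnt (B : Finset (Fin 3 → ZMod p)) (hB : B.card = p ^ 2)
    (h : ∀ u : Fin 3 → ZMod p, u ≠ 0 → ∀ s, cnt B u s = p) : False := by
  classical
  have hp : p.Prime := Fact.out
  have h1 := sum_cnt B hB 0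
  rw [Finset.sum_congr rfl (g := fun _ => p) (by
    intro u hu
    exact h u (Finset.mem_filter.mp hu).2 _),
    Finset.sum_const, card_ne_zero_vec, smul_eq_mul, mul_assoc] at h1
  have h2 := Nat.eq_of_mul_eq_mul_left (by have := hp.two_le; omega) h1
  have h2p := hp.two_le
  split_ifs at h2
  · nlinarith
  · nlinarith

theorem cnt_smul (B : Finset (Fin 3 → ZMod p)) (c : ZMod p) (hc : c ≠ 0)
    (u : Fin 3 → ZMod p) (s : ZMod p) : cnt B (c • u) (c * s) = cnt B u s := by
  unfold cnt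
  congr 1
  apply Finset.filter_congr
  intro b _
  have h1 : ∑ i, (c • u) i * b i = c * ∑ i, u i * b i := by
    rw [Finset.mul_sum]
    exact Finset.sum_congr rfl (fun i _ => by simp [mul_assoc])
  rw [h1]
  exact ⟨fun h => mul_left_cancel₀ hc h, fun h => by rw [h]⟩

theorem sum_smul_reindex {M : Type*} [AddCommMonoid M] (c : ZMod p) (hc : c ≠ 0)
    (f : ZMod p → M) : ∑ s : ZMod p, f s = ∑ s : ZMod p, f (c * s) := by
  symm
  exact Fintype.sum_equiv (Equiv.mulLeft₀ c hc) _ _ (fun s => rfl)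

theorem mom_smul (B : Finset (Fin 3 → ZMod p)) (j : ℕ) (c : ZMod p) (hc : c ≠ 0)
    (u : Fin 3 → ZMod p) : mom B j (c • u) = c ^ j * mom B j u := by
  unfold mom
  rw [sum_smul_reindex c hc, Finset.mul_sum]
  refine Finset.sum_congr rfl (fun s _ => ?_)
  rw [cnt_smul B c hc, mul_pow]
  ring

theorem sum_cnt_fib (B : Finset (Fin 3 → ZMod p)) (u : Fin 3 → ZMod p) :
    ∑ s : ZMod p, cnt B u s = B.card := by
  unfold cnt
  exact (Finset.card_eq_sum_card_fiberwise (fun _ _ => Finset.mem_univ _)).symm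

/-- T4: the contradiction. -/
theorem no_full_tiling (hp5 : 5 ≤ p) (A B : Finset (Fin 3 → ZMod p)) (hA : A.card = p)
    (hB : B.card = p ^ 2) (hAB : Tiles A B) (hncA : NonCop A) (hncB : NonCop B) : False := by
  classical
  have hp : p.Prime := Fact.out
  have hp0 : 0 < p := hp.pos
  have hdvd : ∀ u : Fin 3 → ZMod p, u ≠ 0 → ∀ s, p ∣ cnt B u s :=
    fun u hu s => cnt_dvd hp5 A B hA hB hAB hncA u hu s
  obtain ⟨R, hR, hRrep, hRsum⟩ := exists_reps (p := p)
  let m : (Fin 3 → ZMod p) → ZMod p → ℕ := fun u s => cnt B u s / p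
  have hm : ∀ u, u ≠ 0 → ∀ s, p * m u s = cnt B u s :=
    fun u hu s => Nat.mul_div_cancel' (hdvd u hu s)
  have hmsum : ∀ u, u ≠ 0 → ∑ s, m u s = p := by
    intro u hu
    have h1 : p * ∑ s, m u s = p * p := by
      rw [Finset.mul_sum, Finset.sum_congr rfl (fun s _ => hm u hu s), sum_cnt_fib, hB]; ring
    exact Nat.eq_of_mul_eq_mul_left hp0 h1
  -- off PM all moments vanish
  have hoff : ∀ u, u ≠ 0 → ¬ IsPM A u → ∀ j, j < p - 1 → mom B j u = 0 := by
    intro u hu0 hu j hj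
    unfold mom
    have h1 : ∀ s, cnt B u s / p = 1 := by
      intro s
      rw [dichotomy A B hA hB hAB u hu0 hu s, Nat.div_self hp0]
    simp only [h1, Nat.cast_one, mul_one]
    exact FiniteField.sum_pow_lt_card_sub_one (K := ZMod p) j (by rwa [ZMod.card])
  -- some moment is nonzero
  have hex : ∃ j, 1 ≤ j ∧ j ≤ p - 2 ∧ ∃ u, u ≠ 0 ∧ mom B j u ≠ 0 := by
    by_contra hcon
    push Not at hcon
    apply not_all_cnt B hB
    intro u hu s
    rcases lacL1 (m u) (hmsum u hu) (fun i h1 h2 => hcon i h1 h2 u hu) with h | ⟨s0, h⟩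
    · rw [← hm u hu s, h s, mul_one]
    · exfalso
      apply hu
      apply hncB u s0
      intro b hb
      by_contra hbs
      have h1 : cnt B u (∑ i, u i * b i) = 0 := by
        rw [← hm u hu, h, if_neg hbs, mul_zero]
      unfold cnt at h1
      rw [Finset.card_eq_zero] at h1
      have h2 : b ∈ B.filter (fun b' => ∑ i, u i * b' i = ∑ i, u i * b i) :=
        Finset.mem_filter.mpr ⟨hb, rfl⟩
      rw [h1] at h2
      exact absurd h2 (Finset.notMem_empty b)
  obtain ⟨r, ⟨hr1, hr2, u0, hu0, hmu0⟩, hrmin⟩ :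
      ∃ r, (1 ≤ r ∧ r ≤ p - 2 ∧ ∃ u, u ≠ 0 ∧ mom B r u ≠ 0) ∧
        ∀ i, 1 ≤ i → i < r → ∀ u, u ≠ 0 → mom B i u = 0 := by
    refine ⟨Nat.find hex, Nat.find_spec hex, ?_⟩
    intro i hi1 hi u hu
    by_contra hcon
    have h1 := Nat.find_spec hex
    exact Nat.find_min hex hi ⟨hi1, by omega, u, hu, hcon⟩
  let Z := R.filter (fun u => mom B r u ≠ 0)
  have hZ : Pts Z := ⟨fun u hu => hR.1 u (Finset.mem_filter.mp hu).1,
    fun u hu v hv => hR.2 u (Finset.mem_filter.mp hu).1 v (Finset.mem_filter.mp hv).1⟩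
  have hZne : Z.Nonempty := by
    obtain ⟨v, hv, c, hc, huv⟩ := hRrep u0 hu0
    refine ⟨v, Finset.mem_filter.mpr ⟨hv, ?_⟩⟩
    intro h
    apply hmu0
    rw [huv, mom_smul B r c hc, h, mul_zero]
  have hZPM : ∀ u ∈ Z, IsPM A u := by
    intro u hu
    by_contra hcon
    exact (Finset.mem_filter.mp hu).2
      (hoff u (hR.1 u (Finset.mem_filter.mp hu).1) hcon r (by omega))
  have hlac : ∀ u ∈ Z, 2 * r ≤ p - 1 ∧ 2 * r ≤ ∑ s, m u s * (m u s - 1) := by
    intro u hu
    have hu0' : u ≠ 0 := hR.1 u (Finset.mem_filter.mp hu).1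
    exact lacL2 (m u) (hmsum u hu0') r hr1 hr2 (fun i h1 h2 => hrmin i h1 h2 u hu0')
      (Finset.mem_filter.mp hu).2
  have h2r : 2 * r ≤ p - 1 := by
    obtain ⟨u, hu⟩ := hZne
    exact (hlac u hu).1
  have hcode : Code Z (mom B r) (p - 1 - r) := by
    intro F hF
    have h1 : ∑ u ∈ Z, mom B r u * eval u F = ∑ u ∈ R, mom B r u * eval u F := by
      rw [Finset.sum_filter]
      refine Finset.sum_congr rfl (fun u _ => ?_)
      split_ifs with h
      · rfl
      · push Not at h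
        rw [h, zero_mul]
    have h2 := hRsum (ZMod p) (fun u => mom B r u * eval u F) (by
      intro c u hc
      show mom B r (c • u) * eval (c • u) F = mom B r u * eval u F
      rw [mom_smul B r c hc, eval_smul_hom F _ hF]
      have h3 : c ^ r * c ^ (p - 1 - r) = 1 := by
        rw [← pow_add]
        have : r + (p - 1 - r) = p - 1 := by omega
        rw [this, ZMod.pow_card_sub_one_eq_one hc]
      calc c ^ r * mom B r u * (c ^ (p - 1 - r) * eval u F)
          = (c ^ r * c ^ (p - 1 - r)) * (mom B r u * eval u F) := by ring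
        _ = mom B r u * eval u F := by rw [h3, one_mul])
    rw [mom_code B hB hdvd r hr1 hr2 F hF] at h2
    rw [h1]
    have h7 : ((p - 1 : ℕ) : ZMod p) = -1 := by
      rw [Nat.cast_sub (by omega), Nat.cast_one, ZMod.natCast_self, zero_sub]
    rw [nsmul_eq_mul, h7] at h2
    have h8 := h2.symm
    rwa [neg_one_mul, neg_eq_zero] at h8
  obtain ⟨hGC1, hGC2⟩ := GC hp5 A hA hncA Z hZ hZne hZPM (mom B r)
    (fun u hu => (Finset.mem_filter.mp hu).2) r hr1 h2r hcode
  -- energy
  have hE : ∑ u ∈ R, ∑ s, m u s * (m u s - 1) = p * (p - 1) := by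
    have h1 := hRsum ℕ (fun u => ∑ s, m u s * (m u s - 1)) (by
      intro c u hc
      show ∑ s, m (c • u) s * (m (c • u) s - 1) = ∑ s, m u s * (m u s - 1)
      rw [sum_smul_reindex c hc]
      refine Finset.sum_congr rfl (fun s _ => ?_)
      simp only [m, cnt_smul B c hc])
    have h2 : ∑ u ∈ (Finset.univ.filter (fun u : Fin 3 → ZMod p => u ≠ 0)),
        (p ^ 2 * (∑ s, m u s * (m u s - 1)) + p ^ 3)
        = (p - 1) * (p ^ 4 * (p + 2)) := by
      rw [← energy B hB]
      refine Finset.sum_congr rfl (fun u hu => ?_)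
      have hu' : u ≠ 0 := (Finset.mem_filter.mp hu).2
      have h3 : ∑ s, cnt B u s ^ 2 = ∑ s, (p ^ 2 * (m u s * (m u s - 1)) + p ^ 2 * m u s) := by
        refine Finset.sum_congr rfl (fun s _ => ?_)
        rw [← hm u hu' s]
        rcases Nat.eq_zero_or_pos (m u s) with h | h
        · rw [h]; ring
        · obtain ⟨w, hw⟩ : ∃ w, m u s = w + 1 := ⟨m u s - 1, by omega⟩
          rw [hw, Nat.add_sub_cancel]; ring
      rw [h3, Finset.sum_add_distrib, ← Finset.mul_sum, ← Finset.mul_sum, hmsum u hu']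
      ring
    rw [Finset.sum_add_distrib, ← Finset.mul_sum, Finset.sum_const, card_ne_zero_vec, h1,
      smul_eq_mul, smul_eq_mul] at h2
    obtain ⟨q, rfl⟩ : ∃ q, p = q + 1 := ⟨p - 1, by omega⟩
    rw [Nat.add_sub_cancel] at h2 ⊢
    have hq : 0 < q := by omega
    have h3 : (q * (q + 1) ^ 2) * (∑ u ∈ R, ∑ s, m u s * (m u s - 1))
        = (q * (q + 1) ^ 2) * ((q + 1) * q) := by
      nlinarith [h2]
    exact Nat.eq_of_mul_eq_mul_left (by positivity) h3
  have hfin : 2 * r * Z.card ≤ p * (p - 1) := by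
    rw [← hE]
    calc 2 * r * Z.card = ∑ u ∈ Z, 2 * r := by rw [Finset.sum_const, smul_eq_mul]; ring
      _ ≤ ∑ u ∈ Z, ∑ s, m u s * (m u s - 1) := Finset.sum_le_sum (fun u hu => (hlac u hu).2)
      _ ≤ ∑ u ∈ R, ∑ s, m u s * (m u s - 1) :=
          Finset.sum_le_sum_of_subset (Finset.filter_subset _ _)
  omega

end Pool.Agent.Redei3
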