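import Pool.Agent.Work.MP_e263ba_co.TilingDefs
import Pool.Agent.Work.MP_e263ba_co.PlaneEvA

/-! JOB T3: counting identities and representatives. -/

set_option autoImplicit false

namespace Pool.Agent.Redei3

open Finset MvPolynomial

variable {p : ℕ} [Fact p.Prime]

theorem card_perp (v : Fin 3 → ZMod p) (hv : v ≠ 0) :
    (Finset.univ.filter (fun u : Fin 3 → ZMod p => ∑ i, u i * v i = 0)).card = p ^ 2 := by
  classical
  obtain ⟨k, hk⟩ := Function.ne_iff.1 hv
  let φ : (Fin 3 → ZMod p) →ₗ[ZMod p] ZMod p := ∑ i, (v i) • LinearMap.proj i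
  have hφ : ∀ u, φ u = ∑ i, u i * v i := by
    intro u
    simp [φ, mul_comm]
  have hsurj : Function.Surjective φ := by
    intro s
    refine ⟨Pi.single k (s / v k), ?_⟩
    rw [hφ, Finset.sum_eq_single k]
    · simp only [Pi.single_eq_same]
      exact div_mul_cancel₀ s hk
    · intro b _ hb
      simp [hb]
    · intro h
      exact absurd (Finset.mem_univ k) h
  have h1 := LinearMap.finrank_range_add_finrank_ker φ
  rw [LinearMap.range_eq_top.2 hsurj, finrank_top, Module.finrank_self, Module.finrank_fin_fun] at h1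
  have h2 : Nat.card (LinearMap.ker φ) = Nat.card (ZMod p) ^ Module.finrank (ZMod p) (LinearMap.ker φ) :=
    Module.natCard_eq_pow_finrank
  have h3 : Module.finrank (ZMod p) (LinearMap.ker φ) = 2 := by omega
  rw [h3, Nat.card_zmod] at h2
  rw [← h2, Nat.card_eq_fintype_card, ← Fintype.card_coe]
  refine Fintype.card_congr (Equiv.subtypeEquivRight ?_)
  intro u
  simp only [Finset.mem_filter, Finset.mem_univ, true_and, LinearMap.mem_ker, hφ]

theorem card_perp_ne (v : Fin 3 → ZMod p) :
    (Finset.univ.filter (fun u : Fin 3 → ZMod p => u ≠ 0 ∧ ∑ i, u i * v i = 0)).card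
      = if v = 0 then p ^ 3 - 1 else p ^ 2 - 1 := by
  classical
  have h1 : (Finset.univ.filter (fun u : Fin 3 → ZMod p => u ≠ 0 ∧ ∑ i, u i * v i = 0))
      = (Finset.univ.filter (fun u : Fin 3 → ZMod p => ∑ i, u i * v i = 0)).erase 0 := by
    ext u
    simp
  rw [h1, Finset.card_erase_of_mem (by simp)]
  split_ifs with h
  · subst h
    simp [Fintype.card_pi, ZMod.card]
  · rw [card_perp v h]

/-- T3a: sum over all `u ≠ 0` of the number of points of `B` on the plane `u·b = u·x`. -/
theorem sum_cnt (B : Finset (Fin 3 → ZMod p)) (hB : B.card = p ^ 2) (x : Fin 3 → ZMod p) :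
    ∑ u ∈ (Finset.univ.filter (fun u : Fin 3 → ZMod p => u ≠ 0)), cnt B u (∑ i, u i * x i)
      = (p - 1) * ((p + 1) * p ^ 2 + (if x ∈ B then p ^ 2 else 0)) := by
  classical
  have hp : 2 ≤ p := (Fact.out : p.Prime).two_le
  have h1 : ∑ u ∈ (Finset.univ.filter (fun u : Fin 3 → ZMod p => u ≠ 0)), cnt B u (∑ i, u i * x i)
      = ∑ b ∈ B, (if b - x = 0 then p ^ 3 - 1 else p ^ 2 - 1) := by
    simp only [cnt, Finset.card_filter]
    rw [Finset.sum_comm]
    refine Finset.sum_congr rfl fun b _ => ?_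
    rw [← card_perp_ne (b - x), Finset.card_filter, Finset.sum_filter]
    refine Finset.sum_congr rfl fun u _ => ?_
    have h2 : (∑ i, u i * b i = ∑ i, u i * x i) ↔ (∑ i, u i * (b - x) i = 0) := by
      simp only [Pi.sub_apply, mul_sub, Finset.sum_sub_distrib]
      exact sub_eq_zero.symm
    by_cases hu : u = 0
    · simp [hu]
    · simp only [ne_eq, hu, not_false_eq_true, if_true, true_and, h2]
  rw [h1]
  obtain ⟨q, rfl⟩ : ∃ q, p = q + 1 := ⟨p - 1, by omega⟩
  have h3 : ∑ b ∈ B, (if b - x = 0 then (q + 1) ^ 3 - 1 else (q + 1) ^ 2 - 1)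
      = ∑ b ∈ B, (((q + 1) ^ 2 - 1) + if b = x then q * (q + 1) ^ 2 else 0) := by
    refine Finset.sum_congr rfl fun b _ => ?_
    simp only [sub_eq_zero]
    split_ifs with h
    · have e1 : (q + 1) ^ 3 - 1 = q * (q ^ 2 + 3 * q + 3) := by
        have : (q + 1) ^ 3 = q * (q ^ 2 + 3 * q + 3) + 1 := by ring
        rw [this]; rfl
      have e2 : (q + 1) ^ 2 - 1 = q * (q + 2) := by
        have : (q + 1) ^ 2 = q * (q + 2) + 1 := by ring
        rw [this]; rfl
      rw [e1, e2]; ring
    · simp
  rw [h3, Finset.sum_add_distrib, Finset.sum_const, smul_eq_mul, hB, Finset.sum_ite_eq']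
  have e2 : (q + 1) ^ 2 - 1 = q * (q + 2) := by
    have : (q + 1) ^ 2 = q * (q + 2) + 1 := by ring
    rw [this]; rfl
  rw [e2]
  simp only [Nat.add_sub_cancel]
  split_ifs
  · ring
  · ring

/-- T3b: the energy identity (times `p^2`, over all `u ≠ 0`). -/
theorem energy (B : Finset (Fin 3 → ZMod p)) (hB : B.card = p ^ 2) :
    ∑ u ∈ (Finset.univ.filter (fun u : Fin 3 → ZMod p => u ≠ 0)), ∑ s, cnt B u s ^ 2
      = (p - 1) * (p ^ 4 * (p + 2)) := by
  classical
  have h1 : ∀ u : Fin 3 → ZMod p, ∑ s, cnt B u s ^ 2 = ∑ x ∈ B, cnt B u (∑ i, u i * x i) := by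
    intro u
    rw [← Finset.sum_fiberwise_of_maps_to (s := B) (t := Finset.univ) (g := fun x => ∑ i, u i * x i)
      (fun _ _ => Finset.mem_univ _)]
    refine Finset.sum_congr rfl fun s _ => ?_
    rw [Finset.sum_congr rfl (g := fun _ => cnt B u s)]
    · rw [Finset.sum_const, smul_eq_mul, sq]
      rfl
    · intro x hx
      rw [(Finset.mem_filter.1 hx).2]
  simp only [h1]
  rw [Finset.sum_comm, Finset.sum_congr rfl (fun x (hx : x ∈ B) => sum_cnt B hB x)]
  rw [Finset.sum_congr rfl (g := fun _ => (p - 1) * ((p + 1) * p ^ 2 + p ^ 2))]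
  · rw [Finset.sum_const, smul_eq_mul, hB]
    ring
  · intro x hx
    rw [if_pos hx]


theorem pderiv_linForm {K : Type*} [Field K] (u : Fin 3 → K) (k : Fin 3) :
    pderiv k (linForm u) = C (u k) := by
  classical
  unfold linForm
  rw [map_sum, Finset.sum_eq_single k]
  · rw [pderiv_C_mul, pderiv_X_self, mul_one]
  · intro b _ hb
    rw [pderiv_C_mul, pderiv_X_of_ne hb, mul_zero]
  · intro h
    exact absurd (Finset.mem_univ k) h

omit [Fact p.Prime] in
theorem code_of_pow {K : Type*} [Field K] [CharP K p] (S : Finset (Fin 3 → K)) (n : ℕ) (hn : n < p) :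
    ∀ (c : (Fin 3 → K) → K), (∑ u ∈ S, C (c u) * (linForm u) ^ n = 0) →
    ∀ F : MvPolynomial (Fin 3) K, F.IsHomogeneous n → ∑ u ∈ S, c u * eval u F = 0 := by
  classical
  induction n with
  | zero =>
    intro c h F hF
    have hF' : F.totalDegree = 0 := Nat.le_zero.1 hF.totalDegree_le
    rw [totalDegree_eq_zero_iff_eq_C] at hF'
    rw [hF']
    simp only [eval_C]
    rw [← Finset.sum_mul]
    simp only [pow_zero, mul_one] at h
    rw [← map_sum, map_eq_zero_iff _ (C_injective _ _)] at h
    rw [h, zero_mul]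
  | succ n ih =>
    intro c h F hF
    have key : ∀ k : Fin 3, ∑ u ∈ S, C (c u * u k) * (linForm u) ^ n = 0 := by
      intro k
      have h1 := congrArg (pderiv k) h
      rw [map_sum, map_zero] at h1
      have h2 : ∑ u ∈ S, pderiv k (C (c u) * linForm u ^ (n + 1))
          = C ((n + 1 : ℕ) : K) * ∑ u ∈ S, C (c u * u k) * (linForm u) ^ n := by
        rw [Finset.mul_sum]
        refine Finset.sum_congr rfl fun u _ => ?_
        rw [pderiv_C_mul, pderiv_pow, pderiv_linForm, C_mul, Nat.add_sub_cancel, map_natCast]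
        ring
      rw [h2] at h1
      rcases mul_eq_zero.1 h1 with h3 | h3
      · exfalso
        rw [map_eq_zero_iff _ (C_injective _ _)] at h3
        rw [CharP.cast_eq_zero_iff K p] at h3
        exact absurd (Nat.le_of_dvd (Nat.succ_pos n) h3) (by omega)
      · exact h3
    have hmon : ∀ α : Fin 3 →₀ ℕ, α.degree = n + 1 → ∑ u ∈ S, c u * eval u (monomial α (1 : K)) = 0 := by
      intro α hα
      obtain ⟨k, hk⟩ : ∃ k, α k ≠ 0 := by
        by_contra hcon
        push Not at hcon
        have : α = 0 := by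
          ext k
          exact hcon k
        rw [this] at hα
        simp at hα
      have hle : Finsupp.single k 1 ≤ α := by
        rw [Finsupp.single_le_iff]
        exact Nat.one_le_iff_ne_zero.2 hk
      have hsplit : α = (α - Finsupp.single k 1) + Finsupp.single k 1 := (tsub_add_cancel_of_le hle).symm
      have hdeg : (α - Finsupp.single k 1).degree = n := by
        have h4 := congrArg Finsupp.degree hsplit
        rw [map_add, Finsupp.degree_single] at h4
        omega
      have h5 := ih (by omega) (fun u => c u * u k) (key k) (monomial (α - Finsupp.single k 1) 1)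
        (isHomogeneous_monomial _ hdeg)
      rw [← h5]
      refine Finset.sum_congr rfl fun u _ => ?_
      have h6 : (monomial α (1 : K)) = monomial (α - Finsupp.single k 1) 1 * X k := by
        rw [X, monomial_mul, ← hsplit, one_mul]
      rw [h6, map_mul, eval_X]
      ring
    have hF2 := F.as_sum
    have h7 : ∀ u, eval u F = ∑ α ∈ F.support, coeff α F * eval u (monomial α (1 : K)) := by
      intro u
      conv_lhs => rw [hF2]
      rw [map_sum]
      refine Finset.sum_congr rfl fun α _ => ?_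
      rw [eval_monomial, eval_monomial, one_mul]
    simp only [h7, Finset.mul_sum]
    rw [Finset.sum_comm]
    refine Finset.sum_eq_zero fun α hα => ?_
    have h8 : α.degree = n + 1 := by
      have := hF (mem_support_iff.1 hα)
      rw [Finsupp.degree_eq_weight_one]
      exact this
    have h9 := hmon α h8
    calc ∑ u ∈ S, c u * (coeff α F * eval u (monomial α (1 : K)))
        = coeff α F * ∑ u ∈ S, c u * eval u (monomial α (1 : K)) := by
          rw [Finset.mul_sum]
          refine Finset.sum_congr rfl fun u _ => ?_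
          ring
      _ = 0 := by rw [h9, mul_zero]


theorem kern (t s : ZMod p) : ∑ i ∈ Finset.range p, t ^ i * s ^ (p - 1 - i) = if s = t then 0 else 1 := by
  have hp : 2 ≤ p := (Fact.out : p.Prime).two_le
  split_ifs with h
  · subst h
    rw [Finset.sum_congr rfl (g := fun _ => s ^ (p - 1))]
    · simp
    · intro i hi
      rw [← pow_add]
      congr 1
      have := Finset.mem_range.1 hi
      omega
  · have h1 := Commute.geom_sum₂_mul (Commute.all t s) p
    rw [ZMod.pow_card, ZMod.pow_card] at h1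
    have h2 : t - s ≠ 0 := sub_ne_zero.2 (fun e => h e.symm)
    exact mul_right_cancel₀ h2 (by rw [h1, one_mul])

theorem mom_expand (B : Finset (Fin 3 → ZMod p)) (hB : B.card = p ^ 2) (u : Fin 3 → ZMod p)
    (hdvd : ∀ s, p ∣ cnt B u s) (t : ZMod p) :
    ∑ i ∈ Finset.range p, mom B (p - 1 - i) u * t ^ i = - ((cnt B u t / p : ℕ) : ZMod p) := by
  classical
  have hp : 2 ≤ p := (Fact.out : p.Prime).two_le
  have h1 : ∑ s : ZMod p, ((cnt B u s / p : ℕ) : ZMod p) = 0 := by
    rw [← Nat.cast_sum]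
    have h2 : ∑ s : ZMod p, cnt B u s = p ^ 2 := by
      rw [← hB]
      exact (Finset.card_eq_sum_card_fiberwise (f := fun b : Fin 3 → ZMod p => ∑ i, u i * b i)
        (fun _ _ => Finset.mem_univ _)).symm
    have h3 : p * ∑ s : ZMod p, cnt B u s / p = p * p := by
      rw [Finset.mul_sum, ← sq, ← h2]
      exact Finset.sum_congr rfl fun s _ => Nat.mul_div_cancel' (hdvd s)
    have h4 : ∑ s : ZMod p, cnt B u s / p = p := Nat.eq_of_mul_eq_mul_left (by omega) h3
    rw [h4]
    simp
  unfold mom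
  have h5 : ∑ i ∈ Finset.range p, (∑ s : ZMod p, s ^ (p - 1 - i) * ((cnt B u s / p : ℕ) : ZMod p)) * t ^ i
      = ∑ s : ZMod p, ((cnt B u s / p : ℕ) : ZMod p) * (∑ i ∈ Finset.range p, t ^ i * s ^ (p - 1 - i)) := by
    simp only [Finset.mul_sum, Finset.sum_mul]
    rw [Finset.sum_comm]
    refine Finset.sum_congr rfl fun s _ => Finset.sum_congr rfl fun i _ => ?_
    ring
  rw [h5]
  simp only [kern]
  have h6 : ∀ s : ZMod p, ((cnt B u s / p : ℕ) : ZMod p) * (if s = t then 0 else 1)
      = ((cnt B u s / p : ℕ) : ZMod p) - (if s = t then ((cnt B u s / p : ℕ) : ZMod p) else 0) := by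
    intro s
    split_ifs <;> simp
  simp only [h6, Finset.sum_sub_distrib, h1, Finset.sum_ite_eq', Finset.mem_univ, if_true, zero_sub]


/-- T3c: the code relations. -/
theorem mom_code (B : Finset (Fin 3 → ZMod p)) (hB : B.card = p ^ 2)
    (hdvd : ∀ u : Fin 3 → ZMod p, u ≠ 0 → ∀ s, p ∣ cnt B u s) (j : ℕ) (hj1 : 1 ≤ j)
    (hj2 : j ≤ p - 2) (F : MvPolynomial (Fin 3) (ZMod p)) (hF : F.IsHomogeneous (p - 1 - j)) :
    ∑ u ∈ (Finset.univ.filter (fun u : Fin 3 → ZMod p => u ≠ 0)), mom B j u * eval u F = 0 := by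
  classical
  have hp : 2 ≤ p := (Fact.out : p.Prime).two_le
  set S := Finset.univ.filter (fun u : Fin 3 → ZMod p => u ≠ 0) with hS
  -- the sum of the reduced counts vanishes
  have h1 : ∀ x : Fin 3 → ZMod p, ∑ u ∈ S, ((cnt B u (∑ i, u i * x i) / p : ℕ) : ZMod p) = 0 := by
    intro x
    rw [← Nat.cast_sum]
    have h2 : p * ∑ u ∈ S, cnt B u (∑ i, u i * x i) / p
        = p * (p * ((p - 1) * ((p + 1) + (if x ∈ B then 1 else 0)))) := by
      rw [Finset.mul_sum, Finset.sum_congr rfl (g := fun u => cnt B u (∑ i, u i * x i))]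
      · rw [sum_cnt B hB x]
        split_ifs
        · ring
        · ring
      · intro u hu
        exact Nat.mul_div_cancel' (hdvd u (Finset.mem_filter.1 hu).2 _)
    have h3 := Nat.eq_of_mul_eq_mul_left (by omega) h2
    rw [h3, Nat.cast_mul]
    simp
  let g : ℕ → MvPolynomial (Fin 3) (ZMod p) := fun i => ∑ u ∈ S, C (mom B (p - 1 - i) u) * linForm u ^ i
  have hg : ∀ i, (g i).IsHomogeneous i := by
    intro i
    refine IsHomogeneous.sum _ _ _ fun u _ => ?_
    have := (isHomogeneous_C (Fin 3) (mom B (p - 1 - i) u)).mul ((linForm_hom u).pow i)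
    simpa using this
  have h4 : ∑ i ∈ Finset.range p, g i = 0 := by
    refine MvPolynomial.eq_zero_of_eval_eq_zero (σ := Fin 3) (K := ZMod p) (∑ i ∈ Finset.range p, g i) ?_ ?_
    · intro x
      rw [map_sum]
      have h5 : ∀ i, eval x (g i) = ∑ u ∈ S, mom B (p - 1 - i) u * (∑ k, u k * x k) ^ i := by
        intro i
        simp only [g, map_sum, map_mul, map_pow, eval_C, eval_linForm]
      simp only [h5]
      rw [Finset.sum_comm, Finset.sum_congr rfl
        (g := fun u => - ((cnt B u (∑ i, u i * x i) / p : ℕ) : ZMod p))]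
      · rw [Finset.sum_neg_distrib, h1 x, neg_zero]
      · intro u hu
        exact mom_expand B hB u (hdvd u (Finset.mem_filter.1 hu).2) _
    · rw [mem_restrictDegree]
      intro s hs k
      rw [ZMod.card]
      have h6 : s k ≤ s.degree := by
        rw [Finsupp.degree_eq_sum]
        exact Finset.single_le_sum (f := fun i => s i) (fun _ _ => Nat.zero_le _) (Finset.mem_univ k)
      have h7 : (∑ i ∈ Finset.range p, g i).totalDegree ≤ p - 1 := by
        refine (totalDegree_finsetSum _ _).trans ?_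
        refine Finset.sup_le fun i hi => ?_
        have := (hg i).totalDegree_le
        have h8 := Finset.mem_range.1 hi
        omega
      have h9 : s.degree ≤ (∑ i ∈ Finset.range p, g i).totalDegree := by
        rw [totalDegree]
        have := Finset.le_sup (f := fun s : Fin 3 →₀ ℕ => s.sum fun _ e => e) hs
        refine le_trans (le_of_eq ?_) this
        rfl
      omega
  have h10 : g (p - 1 - j) = 0 := by
    have h11 := congrArg (homogeneousComponent (p - 1 - j)) h4
    rw [map_sum, map_zero] at h11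
    rw [Finset.sum_eq_single (p - 1 - j)] at h11
    · rwa [homogeneousComponent_of_mem (hg (p - 1 - j)), if_pos rfl] at h11
    · intro b _ hb
      rw [homogeneousComponent_of_mem (hg b), if_neg (Ne.symm hb)]
    · intro h
      exact absurd (Finset.mem_range.2 (by omega)) h
  have h12 : p - 1 - (p - 1 - j) = j := by omega
  have h13 : ∑ u ∈ S, C (mom B j u) * linForm u ^ (p - 1 - j) = 0 := by
    have := h10
    simp only [g, h12] at this
    exact this
  exact code_of_pow (p := p) S (p - 1 - j) (by omega) (fun u => mom B j u) h13 F hF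

/-- T3d: representatives of the points of the projective plane over `F_p`. -/
theorem exists_reps : ∃ R : Finset (Fin 3 → ZMod p), Pts R ∧
    (∀ u : Fin 3 → ZMod p, u ≠ 0 → ∃ v ∈ R, ∃ c : ZMod p, c ≠ 0 ∧ u = c • v) ∧
    (∀ (M : Type) [AddCommMonoid M] (g : (Fin 3 → ZMod p) → M),
      (∀ (c : ZMod p) (u : Fin 3 → ZMod p), c ≠ 0 → g (c • u) = g u) →
      ∑ u ∈ (Finset.univ.filter (fun u : Fin 3 → ZMod p => u ≠ 0)), g u
        = (p - 1) • ∑ u ∈ R, g u) := by
  classical
  let s : Setoid (Fin 3 → ZMod p) :=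
    { r := fun u v => ∃ c : ZMod p, c ≠ 0 ∧ u = c • v
      iseqv := by
        refine ⟨fun u => ⟨1, one_ne_zero, (one_smul _ u).symm⟩, ?_, ?_⟩
        · rintro u v ⟨c, hc, rfl⟩
          refine ⟨c⁻¹, inv_ne_zero hc, ?_⟩
          rw [smul_smul, inv_mul_cancel₀ hc, one_smul]
        · rintro u v w ⟨c, hc, rfl⟩ ⟨d, hd, rfl⟩
          exact ⟨c * d, mul_ne_zero hc hd, smul_smul _ _ _⟩ }
  let rep : (Fin 3 → ZMod p) → (Fin 3 → ZMod p) := fun u => (Quotient.mk s u).out
  have hrep : ∀ u, ∃ c : ZMod p, c ≠ 0 ∧ rep u = c • u := fun u => Quotient.exact (Quotient.out_eq (Quotient.mk s u))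
  have hrep' : ∀ u, ∃ c : ZMod p, c ≠ 0 ∧ u = c • rep u := by
    intro u
    obtain ⟨c, hc, h⟩ := hrep u
    refine ⟨c⁻¹, inv_ne_zero hc, ?_⟩
    rw [h, smul_smul, inv_mul_cancel₀ hc, one_smul]
  have hcong : ∀ u v, (∃ c : ZMod p, c ≠ 0 ∧ u = c • v) → rep u = rep v := by
    intro u v h
    have : Quotient.mk s u = Quotient.mk s v := Quotient.sound h
    simp only [rep, this]
  let R := (Finset.univ.filter (fun u : Fin 3 → ZMod p => u ≠ 0)).image rep
  have hR : ∀ u ∈ R, u ≠ 0 ∧ rep u = u := by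
    intro u hu
    obtain ⟨w, hw, rfl⟩ := Finset.mem_image.1 hu
    have hw0 : w ≠ 0 := (Finset.mem_filter.1 hw).2
    obtain ⟨c, hc, h⟩ := hrep w
    refine ⟨?_, ?_⟩
    · rw [h]
      exact smul_ne_zero hc hw0
    · exact hcong _ _ ⟨c, hc, h⟩
  have hRm : ∀ u, u ≠ 0 → rep u ∈ R := fun u hu => Finset.mem_image_of_mem _ (by simp [hu])
  refine ⟨R, ⟨fun u hu => (hR u hu).1, ?_⟩, ?_, ?_⟩
  · intro u hu v hv c h
    have hc : c ≠ 0 := by
      rintro rfl
      exact (hR u hu).1 (by rw [h, zero_smul])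
    rw [← (hR u hu).2, ← (hR v hv).2]
    exact hcong _ _ ⟨c, hc, h⟩
  · intro u hu
    obtain ⟨c, hc, h⟩ := hrep' u
    exact ⟨rep u, hRm u hu, c, hc, h⟩
  · intro M _ g hg
    have h1 : ∑ u ∈ (Finset.univ.filter (fun u : Fin 3 → ZMod p => u ≠ 0)), g u
        = ∑ cv ∈ (Finset.univ.filter (fun c : ZMod p => c ≠ 0)) ×ˢ R, g (cv.1 • cv.2) := by
      symm
      refine Finset.sum_bij (fun cv _ => cv.1 • cv.2) ?_ ?_ ?_ ?_
      · rintro ⟨c, v⟩ hcv
        rw [Finset.mem_product] at hcv
        have hc : c ≠ 0 := (Finset.mem_filter.1 hcv.1).2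
        have hv : v ≠ 0 := (hR v hcv.2).1
        simp only [Finset.mem_filter, Finset.mem_univ, true_and]
        exact smul_ne_zero hc hv
      · rintro ⟨c, v⟩ hcv ⟨d, w⟩ hdw h
        rw [Finset.mem_product] at hcv hdw
        simp only at h hcv hdw
        have hc : c ≠ 0 := (Finset.mem_filter.1 hcv.1).2
        have hd : d ≠ 0 := (Finset.mem_filter.1 hdw.1).2
        have hv : v ≠ 0 := (hR v hcv.2).1
        have hvw : v = w := by
          rw [← (hR v hcv.2).2, ← (hR w hdw.2).2]
          refine hcong _ _ ⟨c⁻¹ * d, mul_ne_zero (inv_ne_zero hc) hd, ?_⟩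
          rw [← smul_smul, ← h, smul_smul, inv_mul_cancel₀ hc, one_smul]
        subst hvw
        have h2 : (c - d) • v = 0 := by rw [sub_smul, h, sub_self]
        rcases smul_eq_zero.1 h2 with h3 | h3
        · rw [sub_eq_zero.1 h3]
        · exact absurd h3 hv
      · intro u hu
        have hu0 : u ≠ 0 := (Finset.mem_filter.1 hu).2
        obtain ⟨c, hc, h⟩ := hrep' u
        exact ⟨(c, rep u), by simp [hc, hRm u hu0], h.symm⟩
      · intro a _
        rfl
    rw [h1, Finset.sum_product]
    rw [Finset.sum_congr rfl (g := fun _ => ∑ u ∈ R, g u)]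
    · rw [Finset.sum_const]
      congr 1
      rw [Finset.filter_ne', Finset.card_erase_of_mem (Finset.mem_univ _), Finset.card_univ, ZMod.card]
    · intro c hc
      refine Finset.sum_congr rfl fun v _ => ?_
      exact hg c v (Finset.mem_filter.1 hc).2

end Pool.Agent.Redei3
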