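import Pool.Agent.Work.MP_e263ba_co.Core
import Pool.Agent.Work.MP_e263ba_co.LinDvd
import Pool.Agent.Work.MP_e263ba_co.TilingDich
import Pool.Agent.Work.MP_e263ba_co.TilingSums

/-! JOB T2: integrality. -/

set_option autoImplicit false
set_option linter.unusedSectionVars false

namespace Pool.Agent.Redei3

open Finset MvPolynomial

variable {p : ℕ} [Fact p.Prime]

theorem card_ne_zero_vec :
    (Finset.univ.filter (fun u : Fin 3 → ZMod p => u ≠ 0)).card = (p - 1) * (p ^ 2 + p + 1) := by
  classical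
  have hp : p.Prime := Fact.out
  rw [Finset.filter_ne', Finset.card_erase_of_mem (Finset.mem_univ _), Finset.card_univ,
    Fintype.card_fun, ZMod.card, Fintype.card_fin]
  obtain ⟨q, rfl⟩ : ∃ q, p = q + 1 := ⟨p - 1, by have := hp.pos; omega⟩
  have h : (q + 1) ^ 3 = q * ((q + 1) ^ 2 + (q + 1) + 1) + 1 := by ring
  rw [h, Nat.add_sub_cancel, Nat.add_sub_cancel]

/-- T2a: some `u` is in `PM`. -/
theorem exists_PM (A B : Finset (Fin 3 → ZMod p)) (hA : A.card = p)
    (hB : B.card = p ^ 2) (hAB : Tiles A B) : ∃ u, IsPM A u := by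
  classical
  have hp : p.Prime := Fact.out
  by_contra hcon
  push Not at hcon
  have h1 := sum_cnt B hB 0
  rw [Finset.sum_congr rfl (g := fun _ => p) (by
    intro u hu
    exact dichotomy A B hA hB hAB u (Finset.mem_filter.mp hu).2 (hcon u) _),
    Finset.sum_const, card_ne_zero_vec, smul_eq_mul, mul_assoc] at h1
  have h2 := Nat.eq_of_mul_eq_mul_left (by have := hp.two_le; omega) h1
  have h2p := hp.two_le
  split_ifs at h2
  · nlinarith
  · nlinarith

/-- membership in `PM` along directions. -/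
theorem isPM_smul_iff (A : Finset (Fin 3 → ZMod p)) (c : ZMod p) (hc : c ≠ 0)
    (u : Fin 3 → ZMod p) : IsPM A (c • u) ↔ IsPM A u := by
  have h1 : ∀ a : Fin 3 → ZMod p, ∑ i, (c • u) i * a i = c * ∑ i, u i * a i := by
    intro a
    rw [Finset.mul_sum]
    exact Finset.sum_congr rfl (fun i _ => by simp [mul_assoc])
  unfold IsPM
  simp only [h1]
  constructor
  · rintro ⟨h2, h3⟩
    refine ⟨?_, ?_⟩
    · rintro rfl; exact h2 (smul_zero c)
    · intro a ha b hb hab
      exact h3 ha hb (by simp only at hab ⊢; rw [hab])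
  · rintro ⟨h2, h3⟩
    refine ⟨smul_ne_zero hc h2, ?_⟩
    intro a ha b hb hab
    exact h3 ha hb (mul_left_cancel₀ hc hab)

/-- T2b: at least `p` pairwise nonproportional directions `e` with `e^⊥ ∩ PM = ∅`. -/
theorem exists_dirs (hp5 : 5 ≤ p) (A : Finset (Fin 3 → ZMod p)) (hA : A.card = p)
    (hnc : NonCop A) (hPM : ∃ u, IsPM A u) :
    ∃ E : Finset (Fin 3 → ZMod p), Pts E ∧ p ≤ E.card ∧
      ∀ e ∈ E, ∀ u : Fin 3 → ZMod p, ∑ i, u i * e i = 0 → ¬ IsPM A u := by
  classical
  have hp : p.Prime := Fact.out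
  obtain ⟨R, hR, hRrep, hRsum⟩ := exists_reps (p := p)
  let isDir : (Fin 3 → ZMod p) → Prop := fun e =>
    ∃ a ∈ A, ∃ b ∈ A, ∃ c : ZMod p, c ≠ 0 ∧ a - b = c • e
  let E := R.filter isDir
  have hE : Pts E := ⟨fun u hu => hR.1 u (Finset.mem_filter.mp hu).1,
    fun u hu v hv => hR.2 u (Finset.mem_filter.mp hu).1 v (Finset.mem_filter.mp hv).1⟩
  have hE1 : ∀ e ∈ E, ∀ u : Fin 3 → ZMod p, ∑ i, u i * e i = 0 → ¬ IsPM A u := by
    rintro e he u hue ⟨hu0, hinj⟩
    obtain ⟨heR, a, ha, b, hb, c, hc, hab⟩ := Finset.mem_filter.mp he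
    have h1 : ∑ i, u i * a i = ∑ i, u i * b i := by
      rw [← sub_eq_zero, ← Finset.sum_sub_distrib]
      have : ∀ i, u i * a i - u i * b i = c * (u i * e i) := by
        intro i
        have := congrFun hab i
        simp only [Pi.sub_apply, Pi.smul_apply, smul_eq_mul] at this
        rw [← mul_sub, this]; ring
      simp only [this]
      rw [← Finset.mul_sum, hue, mul_zero]
    have h2 := hinj ha hb h1
    rw [h2, sub_self] at hab
    have h3 := (smul_eq_zero.mp hab.symm).resolve_left hc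
    exact hR.1 e heR h3
  have hE2 : ∀ u : Fin 3 → ZMod p, u ≠ 0 → ¬ IsPM A u → ∃ e ∈ E, ∑ i, u i * e i = 0 := by
    intro u hu0 hu
    unfold IsPM at hu
    have h1 : ¬ Set.InjOn (fun a : Fin 3 → ZMod p => ∑ i, u i * a i)
        (A : Set (Fin 3 → ZMod p)) := fun h => hu ⟨hu0, h⟩
    unfold Set.InjOn at h1
    push Not at h1
    obtain ⟨a, ha, b, hb, hab, hne⟩ := h1
    obtain ⟨e, heR, c, hc, hce⟩ := hRrep (a - b) (sub_ne_zero.mpr hne)
    refine ⟨e, Finset.mem_filter.mpr ⟨heR, a, ha, b, hb, c, hc, hce⟩, ?_⟩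
    have h2 : c * ∑ i, u i * e i = 0 := by
      rw [Finset.mul_sum]
      have : ∀ i, c * (u i * e i) = u i * a i - u i * b i := by
        intro i
        have := congrFun hce i
        simp only [Pi.sub_apply, Pi.smul_apply, smul_eq_mul] at this
        rw [← mul_sub, this]; ring
      simp only [this]
      rw [Finset.sum_sub_distrib]
      exact sub_eq_zero.mpr hab
    exact (mul_eq_zero.mp h2).resolve_left hc
  refine ⟨E, hE, ?_, hE1⟩
  by_contra hcon
  have hN : E.card + 1 ≤ p := by omega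
  -- a direction e0
  obtain ⟨e0, he0⟩ : ∃ e0, e0 ∈ E := by
    have h1 : 1 < A.card := by omega
    obtain ⟨a, ha, b, hb, hab⟩ := Finset.one_lt_card.mp h1
    obtain ⟨e, heR, c, hc, hce⟩ := hRrep (a - b) (sub_ne_zero.mpr hab)
    exact ⟨e, Finset.mem_filter.mpr ⟨heR, a, ha, b, hb, c, hc, hce⟩⟩
  -- the code
  let Ppol : MvPolynomial (Fin 3) (ZMod p) :=
    (∏ e ∈ E, linForm e) * linForm e0 ^ (p - E.card)
  have hPhom : Ppol.IsHomogeneous p := by
    have h1 : (∏ e ∈ E, linForm e).IsHomogeneous (∑ _e ∈ E, 1) :=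
      MvPolynomial.IsHomogeneous.prod E linForm (fun _ => 1) (fun e _ => linForm_hom e)
    have h2 := h1.mul ((linForm_hom e0).pow (p - E.card))
    have h3 : (∑ _e ∈ E, 1) + 1 * (p - E.card) = p := by
      rw [Finset.sum_const, smul_eq_mul]; omega
    rw [h3] at h2
    exact h2
  let c : (Fin 3 → ZMod p) → ZMod p := fun u => eval u Ppol
  have hceval : ∀ u, c u = (∏ e ∈ E, ∑ i, e i * u i) * (∑ i, e0 i * u i) ^ (p - E.card) := by
    intro u
    simp only [c, Ppol, map_mul, map_prod, map_pow, eval_linForm]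
  have hcomm : ∀ u e : Fin 3 → ZMod p, ∑ i, u i * e i = ∑ i, e i * u i :=
    fun u e => Finset.sum_congr rfl (fun i _ => mul_comm _ _)
  have hc0 : ∀ u, IsPM A u → c u ≠ 0 := by
    intro u hu
    rw [hceval]
    apply mul_ne_zero
    · rw [Finset.prod_ne_zero_iff]
      intro e he h
      exact hE1 e he u (by rw [hcomm]; exact h) hu
    · apply pow_ne_zero
      intro h
      exact hE1 e0 he0 u (by rw [hcomm]; exact h) hu
  have hc1 : ∀ u, ¬ IsPM A u → c u = 0 := by
    intro u hu
    by_cases hu0 : u = 0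
    · subst hu0
      rw [hceval]
      have : (∑ i, e0 i * (0 : Fin 3 → ZMod p) i) = 0 := by simp
      rw [this, zero_pow (by omega), mul_zero]
    · obtain ⟨e, he, hue⟩ := hE2 u hu0 hu
      rw [hceval, Finset.prod_eq_zero he (by rw [hcomm] at hue; exact hue), zero_mul]
  let Z := R.filter (fun u => IsPM A u)
  have hZ : Pts Z := ⟨fun u hu => hR.1 u (Finset.mem_filter.mp hu).1,
    fun u hu v hv => hR.2 u (Finset.mem_filter.mp hu).1 v (Finset.mem_filter.mp hv).1⟩
  have hZne : Z.Nonempty := by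
    obtain ⟨u, hu⟩ := hPM
    obtain ⟨v, hv, c', hc', huv⟩ := hRrep u hu.1
    refine ⟨v, Finset.mem_filter.mpr ⟨hv, ?_⟩⟩
    rw [huv, isPM_smul_iff A c' hc'] at hu
    exact hu
  have hscale : ∀ (F : MvPolynomial (Fin 3) (ZMod p)) (n : ℕ), F.IsHomogeneous n →
      ∀ (c' : ZMod p) (u : Fin 3 → ZMod p), eval (c' • u) F = c' ^ n * eval u F :=
    fun F n hF c' u => eval_smul_hom F n hF c' u
  have hcode : Code Z c (p - 1 - 1) := by
    intro F hF
    have h1 : ∑ u ∈ Z, c u * eval u F = ∑ u ∈ R, c u * eval u F := by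
      rw [Finset.sum_filter]
      refine Finset.sum_congr rfl (fun u _ => ?_)
      split_ifs with h
      · rfl
      · rw [hc1 u h, zero_mul]
    have h2 := hRsum (ZMod p) (fun u => c u * eval u F) (by
      intro c' u hc'
      show eval (c' • u) Ppol * eval (c' • u) F = eval u Ppol * eval u F
      rw [hscale _ _ hPhom, hscale _ _ hF]
      have h3 : c' ^ p * c' ^ (p - 1 - 1) = 1 := by
        rw [← pow_add]
        have : p + (p - 1 - 1) = (p - 1) * 2 := by omega
        rw [this, pow_mul, ZMod.pow_card_sub_one_eq_one hc', one_pow]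
      calc c' ^ p * eval u Ppol * (c' ^ (p - 1 - 1) * eval u F)
          = (c' ^ p * c' ^ (p - 1 - 1)) * (eval u Ppol * eval u F) := by ring
        _ = eval u Ppol * eval u F := by rw [h3, one_mul])
    have h3 : ∑ u ∈ (Finset.univ.filter (fun u : Fin 3 → ZMod p => u ≠ 0)), c u * eval u F
        = ∑ u : Fin 3 → ZMod p, eval u (Ppol * F) := by
      rw [Finset.sum_filter]
      refine Finset.sum_congr rfl (fun u _ => ?_)
      rw [map_mul]
      split_ifs with h
      · rfl
      · push Not at h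
        have : c u = 0 := hc1 u (fun h' => h'.1 h)
        show 0 = c u * eval u F
        rw [this, zero_mul]
    have h4 : ∑ u : Fin 3 → ZMod p, eval u (Ppol * F) = 0 := by
      apply MvPolynomial.sum_eval_eq_zero
      rw [ZMod.card, Fintype.card_fin]
      have h5 := (hPhom.mul hF).totalDegree_le
      have h6 : p + (p - 1 - 1) < (p - 1) * 3 := by omega
      exact lt_of_le_of_lt h5 h6
    rw [h3, h4] at h2
    rw [h1]
    have h7 : ((p - 1 : ℕ) : ZMod p) = -1 := by
      rw [Nat.cast_sub (by omega), Nat.cast_one, ZMod.natCast_self, zero_sub]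
    rw [nsmul_eq_mul, h7] at h2
    have h8 := h2.symm
    rwa [neg_one_mul, neg_eq_zero] at h8
  have hGC := GC hp5 A hA hnc Z hZ hZne (fun u hu => (Finset.mem_filter.mp hu).2) c
    (fun u hu => hc0 u (Finset.mem_filter.mp hu).2) 1 le_rfl (by omega) hcode
  omega

/-- T2c (integrality). -/
theorem cnt_dvd (hp5 : 5 ≤ p) (A B : Finset (Fin 3 → ZMod p)) (hA : A.card = p)
    (hB : B.card = p ^ 2) (hAB : Tiles A B) (hnc : NonCop A) (u : Fin 3 → ZMod p) (hu0 : u ≠ 0)
    (s : ZMod p) : p ∣ cnt B u s := by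
  classical
  have hp : p.Prime := Fact.out
  obtain ⟨E, hE, hEc, hEd⟩ := exists_dirs hp5 A hA hnc (exists_PM A B hA hB hAB)
  -- fibre sums
  have hfib : ∀ (v : Fin 3 → ZMod p) (i : ℕ),
      ∑ b ∈ B, (∑ j, v j * b j) ^ i = ∑ s : ZMod p, (cnt B v s : ZMod p) * s ^ i := by
    intro v i
    rw [← Finset.sum_fiberwise_of_maps_to (s := B) (t := Finset.univ)
      (g := fun b : Fin 3 → ZMod p => ∑ j, v j * b j) (fun _ _ => Finset.mem_univ _)]
    refine Finset.sum_congr rfl (fun s _ => ?_)
    rw [Finset.sum_congr rfl (g := fun _ => s ^ i) (by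
      intro b hb; rw [(Finset.mem_filter.mp hb).2]), Finset.sum_const, nsmul_eq_mul]
    rfl
  -- power sums of B vanish
  let P : ℕ → MvPolynomial (Fin 3) (ZMod p) := fun i => ∑ b ∈ B, linForm b ^ i
  have hPhom : ∀ i, (P i).IsHomogeneous i := by
    intro i
    apply MvPolynomial.IsHomogeneous.sum
    intro b _
    simpa using (linForm_hom b).pow i
  have hPeval : ∀ i v, eval v (P i) = ∑ b ∈ B, (∑ j, v j * b j) ^ i := by
    intro i v
    simp only [P, map_sum, map_pow, eval_linForm]
    refine Finset.sum_congr rfl (fun b _ => ?_)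
    congr 1
    exact Finset.sum_congr rfl (fun j _ => mul_comm _ _)
  have hP0 : ∀ i, 1 ≤ i → i ≤ p - 1 → P i = 0 := by
    intro i hi1 hi2
    apply eq_zero_of_van_planes E hE (P i) i (hPhom i) (by omega) (by omega)
    intro e he v hev
    rw [hPeval]
    by_cases hv0 : v = 0
    · subst hv0
      apply Finset.sum_eq_zero
      intro b _
      simp only [Pi.zero_apply, zero_mul, Finset.sum_const_zero]
      exact zero_pow (by omega)
    · rw [hfib]
      apply Finset.sum_eq_zero
      intro s _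
      rw [dichotomy A B hA hB hAB v hv0 (hEd e he v (by
        rw [← hev]; exact Finset.sum_congr rfl (fun j _ => mul_comm _ _))) s,
        ZMod.natCast_self, zero_mul]
  -- count
  have hcount : (cnt B u s : ZMod p) = 0 := by
    have h1 : (cnt B u s : ZMod p) = ∑ b ∈ B, (1 - ((∑ j, u j * b j) - s) ^ (p - 1)) := by
      unfold cnt
      rw [Finset.card_filter, Nat.cast_sum]
      refine Finset.sum_congr rfl (fun b _ => ?_)
      split_ifs with h
      · rw [h, sub_self, zero_pow (by omega), sub_zero, Nat.cast_one]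
      · rw [ZMod.pow_card_sub_one_eq_one (sub_ne_zero.mpr h), sub_self, Nat.cast_zero]
    rw [h1, Finset.sum_sub_distrib, Finset.sum_const, hB, nsmul_eq_mul, Nat.cast_pow,
      ZMod.natCast_self, zero_pow (by norm_num), zero_mul, zero_sub, neg_eq_zero]
    have h2 : ∀ b : Fin 3 → ZMod p, ((∑ j, u j * b j) - s) ^ (p - 1)
        = ∑ m ∈ Finset.range (p - 1 + 1), (∑ j, u j * b j) ^ m * (-s) ^ (p - 1 - m) *
          ((p - 1).choose m : ZMod p) := by
      intro b
      rw [sub_eq_add_neg, add_pow]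
    simp only [h2]
    rw [Finset.sum_comm]
    apply Finset.sum_eq_zero
    intro m hm
    rw [Finset.mem_range] at hm
    rw [← Finset.sum_mul, ← Finset.sum_mul]
    rcases Nat.eq_zero_or_pos m with h0 | h0
    · subst h0
      simp only [pow_zero, Finset.sum_const, hB, nsmul_eq_mul, Nat.cast_pow, ZMod.natCast_self]
      rw [zero_pow (by norm_num)]; ring
    · rw [← hPeval, hP0 m h0 (by omega), map_zero, zero_mul, zero_mul]
  exact (ZMod.natCast_eq_zero_iff _ _).mp hcount

end Pool.Agent.Redei3
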